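import Pool.Agent.H27.TOP.Top
import Pool.Agent.H62.TOP.Rw
import Pool.Agent.H73.TOP.Rz

/-!
# The rows and the labels over proper subsets, from the statements in smaller dimensions

`rw_all`: the rows over proper subsets (`RW k`, `k < n`) from the rows above the thresholds in
smaller dimensions. `tops_ind`: `TopS n` inside the induction `Pool.ONE.kp_ind`.
-/

set_option autoImplicit false

namespace Pool.TOP

open Pool.GEN Pool.ONE Pool.STR

variable {n : ℕ}

/-- The rows above the thresholds from the three local statements. -/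
theorem rowN_of (hM : Mic n) (hS : Sta n) (hJ : Jmp n) : RowN n := by
  refine LocN.mono ((LocN.and hM hS).and hJ) ?_
  rintro P r h1 h2 - h3 - ⟨⟨h4, h5⟩, h6⟩ w hw hw1
  have h7 := h2 w w hw.le le_rfl hw1
  exact rowsW h1 hw hw1 (hw.le.trans h7.1) h7.2 (h3.monotoneOn _) h6 h4 h5

/-- **The rows at any window over proper subsets.** -/
theorem rw_all (hZ : ∀ k, 1 ≤ k → k < n → FZX k) (hR : ∀ k, 2 ≤ k → k < n → RowN k) :
    ∀ k, 2 ≤ k → k < n → RW k := by
  intro k
  induction k with
  | zero =>
    intro h
    omega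
  | succ k ih =>
    intro h2 hn
    exact rw_of (rz_of (rt_of (hR _ h2 hn) (fun j h1 h3 => hZ j h1 (by omega))
      (fun h3 => ih (by omega) (by omega))))

/-- **No good labels where the rows are not full**, from the rows in smaller dimensions. -/
theorem tops_all (hZ : ∀ k, 1 ≤ k → k < n → FZX k) (hR : ∀ k, 2 ≤ k → k < n → RowN k) :
    TopS n :=
  tops hZ fun h3 => rw_all hZ hR (n - 1) (by omega) (by omega)

/-- The same inside the induction on the dimension. -/
theorem tops_ind (hZ : ∀ k, 1 ≤ k → k < n → FZX k)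
    (h : ∀ k, 2 ≤ k → k < n → Mic k ∧ Sta k ∧ Jmp k) : TopS n :=
  tops_all hZ fun k h1 h2 => rowN_of (h k h1 h2).1 (h k h1 h2).2.1 (h k h1 h2).2.2

end Pool.TOP
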