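import Pool.Agent.H27.TOP.Stm
import Pool.Agent.H72.EXW.Full

/-!
# One germ per line, for classes

`Ful S I w u`: the coordinates in `I` are full below the cells of side `2 ^ (-u J)`, given any
closed function at the window `w`.
`uni_cls`: polynomials in the time and the coordinates in `I` which are attached to closed
functions are small on the balls of radius `2 ^ (-u J)` if they are small at the own points, for
most samples.
-/

set_option autoImplicit false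

namespace Pool.TOP

open Finset Real MvPolynomial
open Pool.Agent.H49.Ent Pool.Agent.H32.Dense Pool.STK Pool.KA Pool.KSAT Pool.K2S Pool.PB Pool.S6C
open Pool.GEN Pool.ONE
open Pool.GRD (LbP)
open Pool.FLF (Fam.sub)
open Pool.UNJ (ceI Tub)
open Pool.BFL (Pb)

variable {m n J : ℕ}

/-- **Fullness below the cells** of side `2 ^ (-u J)`. -/
def Ful (S : PCl m) (I : Finset (Fin m)) (w u : ℝ) : Prop :=
  ∀ ρ : ℝ, 0 < ρ → Bas S (fun J F A => ∀ (V : Type) (z : PtT F → V) (z' : LnT F → V),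
    (∀ ω, A ω → z (ptr F J ω) = z' (slam F ⌊w * J⌋₊ ω)) →
    I.card * (((J - ⌊u * J⌋₊ : ℕ) : ℝ) * Real.log 2) - ρ * J ≤
      CH (Pool.Agent.H49.Ent.cond F.p A True) (fun ω => ceI I (fun _ => J) (F.x ω))
        (fun ω => (ceI I (fun _ => ⌊u * J⌋₊) (F.x ω), z' (slam F ⌊w * J⌋₊ ω), F.W ω)))

/-- The time deficit of an event. -/
theorem tmc_pos {S : PCl m} {C₀ : ℝ} (h : TmC S C₀) {τ : ℝ} {F : Fam m J} {A : F.Ω → Prop}
    (hτ : 0 < τ) (hA : S.St τ J F A) : 0 < Pe F.p A := (h τ J F A hτ hA).1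

theorem tmc_sub {S : PCl m} {C₀ : ℝ} (h : TmC S C₀) {τ : ℝ} {F : Fam m J} {A : F.Ω → Prop}
    (hτ : 0 < τ) (hA : S.St τ J F A) (hA0 : 0 < Pe F.p A) :
    (Fam.sub F A hA0).Tm (C₀ * τ * J) := by
  have h1 := h.sub (B := A) hτ le_rfl hA (fun _ h => h) (by
    rw [zero_mul, neg_zero, Real.exp_zero, one_mul]) hA0
  rwa [add_zero] at h1

/-- **One germ per line**, for classes. -/
theorem uni_cls {S : PCl m} {C₀ : ℝ} (hC₀ : 0 ≤ C₀) (htm : TmC S C₀) (I : Finset (Fin m))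
    {w u : ℝ} (hwu : w ≤ u) (hu0 : 0 ≤ u) (hu : u < 1) (full : Ful S I w u) (K : ℕ) {h η : ℝ}
    (hh : 0 < h) (hη : 0 < η) (hη1 : η ≤ 1) :
    Bas S (fun J F A => ∀ (V : Type) (z : PtT F → V) (z' : LnT F → V)
      (D : V → MvPolynomial (Option (Fin m)) ℝ) (τ : V → ℝ), (∀ v, (D v).totalDegree ≤ K) →
      (∀ v, ∀ b b' : Option (Fin m) → ℝ, b none = b' none →
        (∀ i ∈ I, b (some i) = b' (some i)) → eval b (D v) = eval b' (D v)) →
      (∀ ω, A ω → z (ptr F J ω) = z' (slam F ⌊w * J⌋₊ ω)) → (∀ v, 0 < τ v) →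
      (∀ ω, A ω → |eval (bt F ω) (D (z' (slam F ⌊w * J⌋₊ ω)))| ≤ τ (z' (slam F ⌊w * J⌋₊ ω))) →
      ∃ B : F.Ω → Prop, Sub B A ∧ (1 - η) * Pe F.p A ≤ Pe F.p B ∧ ∀ ω, B ω →
        ∀ b : Option (Fin m) → ℝ, (∀ o, |b o - bt F ω o| ≤ 2 * (1 / 2 ^ ⌊u * J⌋₊)) →
          |eval b (D (z' (slam F ⌊w * J⌋₊ ω)))| ≤
            Real.exp (h * J) * τ (z' (slam F ⌊w * J⌋₊ ω))) := by
  classical
  obtain ⟨C, hC, hU⟩ := Pool.UNJ.uni_dep m K 4 (by norm_num)
  have hl2 : 0 < Real.log 2 := Real.log_pos one_lt_two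
  have hC0 : 0 < C := by linarith
  obtain ⟨δ, hδ⟩ : ∃ δ : ℝ, δ = min (h * η / C) ((1 - u) * Real.log 2 * η / C) := ⟨_, rfl⟩
  have hδ0 : 0 < δ := by
    rw [hδ]
    refine lt_min (by positivity) (div_pos (mul_pos (mul_pos (by linarith) hl2) hη) hC0)
  have hδ1 : C * δ / η ≤ h := by
    have e1 : δ ≤ h * η / C := by
      rw [hδ]
      exact min_le_left _ _
    rw [le_div_iff₀ hC0] at e1
    rw [div_le_iff₀ hη]
    linarith
  have hδ2 : C * δ / η ≤ (1 - u) * Real.log 2 := by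
    have e1 : δ ≤ (1 - u) * Real.log 2 * η / C := by
      rw [hδ]
      exact min_le_right _ _
    rw [le_div_iff₀ hC0] at e1
    rw [div_le_iff₀ hη]
    linarith
  obtain ⟨τ₁, hτ₁, J₁, hF⟩ := full (δ / 3) (by linarith)
  obtain ⟨τ₀, hτ₀⟩ : ∃ τ₀ : ℝ, τ₀ = min τ₁ (δ / (3 * (C₀ + 1))) := ⟨_, rfl⟩
  have hτ0 : 0 < τ₀ := by
    rw [hτ₀]
    exact lt_min hτ₁ (by positivity)
  have hτ2 : C₀ * τ₀ ≤ δ / 3 := by
    have e1 : τ₀ ≤ δ / (3 * (C₀ + 1)) := by
      rw [hτ₀]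
      exact min_le_right _ _
    have e2 : (C₀ + 1) * (δ / (3 * (C₀ + 1))) = δ / 3 := by
      field_simp
    have e3 : (C₀ + 1) * τ₀ ≤ (C₀ + 1) * (δ / (3 * (C₀ + 1))) :=
      mul_le_mul_of_nonneg_left e1 (by linarith)
    rw [e2] at e3
    linarith
  obtain ⟨J₂, hJ₂⟩ := exists_nat_ge (3 / δ)
  refine ⟨τ₀, hτ0, max J₁ J₂, ?_⟩
  intro J hJ F A hA V z z' D τ hD hdep hz hτ hsm
  have hJ1 : J₁ ≤ J := (le_max_left _ _).trans hJ
  have hJ2 : (J₂ : ℝ) ≤ J := by exact_mod_cast (le_max_right _ _).trans hJ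
  have hJ0 : (0 : ℝ) ≤ J := Nat.cast_nonneg J
  have f1 : 1 ≤ δ / 3 * J := by
    have e1 : 3 / δ ≤ J := by linarith
    rw [div_le_iff₀ hδ0] at e1
    linarith
  have hpA := tmc_pos htm hτ0 hA
  have hTm := tmc_sub htm hτ0 hA hpA
  have hq := isLaw_cond F.isLaw hpA
  have huJ : ⌊u * J⌋₊ ≤ J := by
    refine Nat.floor_le_of_le ?_
    calc u * J ≤ 1 * J := mul_le_mul_of_nonneg_right hu.le hJ0
      _ = J := one_mul _
  have huf : ((⌊u * J⌋₊ : ℕ) : ℝ) ≤ u * J := Nat.floor_le (by positivity)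
  have hwJ : ⌊w * J⌋₊ ≤ ⌊u * J⌋₊ := Nat.floor_le_floor (mul_le_mul_of_nonneg_right hwu hJ0)
  obtain ⟨y, hy⟩ : ∃ y : ℝ, y = C * (δ / 3 * J + C₀ * τ₀ * J + 1) / η := ⟨_, rfl⟩
  have hy1 : y ≤ C * δ / η * J := by
    rw [hy]
    have e1 : C₀ * τ₀ * J ≤ δ / 3 * J := mul_le_mul_of_nonneg_right hτ2 hJ0
    have e2 : δ / 3 * J + C₀ * τ₀ * J + 1 ≤ δ * J := by linarith
    calc C * (δ / 3 * J + C₀ * τ₀ * J + 1) / η ≤ C * (δ * J) / η :=
          div_le_div_of_nonneg_right (mul_le_mul_of_nonneg_left e2 hC0.le) hη.le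
      _ = C * δ / η * J := by ring
  have key := hU J F (Pool.Agent.H49.Ent.cond F.p A True) I (fun _ => ⌊u * J⌋₊) ⌊w * J⌋₊
    (J - ⌊u * J⌋₊) V (fun ω => z' (slam F ⌊w * J⌋₊ ω)) D A τ (δ / 3 * J) (C₀ * τ₀ * J) η hq (by
      have h5 : CH (Fam.sub F A hpA).p (Fam.sub F A hpA).T
        (fun ω => ((Fam.sub F A hpA).l ω, (Fam.sub F A hpA).Z ω)) =
        CH (Pool.Agent.H49.Ent.cond F.p A True) F.T (fun ω => (F.l ω, F.Z ω)) :=
        Pool.FLF.sub_CH F.T (fun ω => (F.l ω, F.Z ω))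
      have h6 := hTm
      unfold Fam.Tm at h6
      rw [h5] at h6
      exact h6) (by omega) (fun ω ω' _ _ h => by simp only [h]) hD hdep (by positivity)
    (by positivity) hη hη1 hτ (by
      have h1 := hF J hJ1 F A (S.mono (by rw [hτ₀]; exact min_le_left _ _) hA) V z z' hz
      have e1 : ⌊u * J⌋₊ + (J - ⌊u * J⌋₊) = J := Nat.add_sub_of_le huJ
      simp only [e1]
      exact h1) (by
      have h1 : Pb (Pool.Agent.H49.Ent.cond F.p A True) (fun ω => ¬ A ω) = 0 := by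
        unfold Pb
        refine Finset.sum_eq_zero fun ω _ => ?_
        by_cases hω : A ω
        · rw [if_neg (not_not.2 hω)]
        · rw [if_pos hω]
          unfold Pool.Agent.H49.Ent.cond
          rw [if_neg (by
            intro h2
            exact hω (of_eq_true h2))]
      rw [h1]
      positivity) (by
      rw [← hy]
      refine hy1.trans ?_
      rw [Nat.cast_sub huJ]
      calc C * δ / η * J ≤ (1 - u) * Real.log 2 * J := mul_le_mul_of_nonneg_right hδ2 hJ0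
        _ = (J - u * J) * Real.log 2 := by ring
        _ ≤ ((J : ℝ) - (⌊u * J⌋₊ : ℕ)) * Real.log 2 :=
          mul_le_mul_of_nonneg_right (by linarith) hl2.le) hsm
  obtain ⟨N, hN⟩ : ∃ N : F.Ω → Prop, N = fun ω => ¬ ∀ b, Tub F I (fun _ => ⌊u * J⌋₊) ⌊w * J⌋₊
      4 ω b → |MvPolynomial.eval b (D (z' (slam F ⌊w * J⌋₊ ω)))| ≤
        Real.exp (C * (δ / 3 * J + C₀ * τ₀ * J + 1) / η) * τ (z' (slam F ⌊w * J⌋₊ ω)) := ⟨_, rfl⟩
  rw [← hN, show Pb (Pool.Agent.H49.Ent.cond F.p A True) N =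
    Pe (Pool.Agent.H49.Ent.cond F.p A True) N by rw [Pe_eq]; rfl, Pe_cond,
    div_le_iff₀ hpA] at key
  refine ⟨fun ω => A ω ∧ ¬ N ω, fun ω hω => hω.1, ?_, fun ω hω b hb => ?_⟩
  · have h3 := Pool.GRD.Pe_minus (A := A) (B := A) (N := N) F.isLaw.nonneg fun _ h => h
    linarith
  · have h3 := hω.2
    rw [hN] at h3
    have hwu' : (1 : ℝ) / 2 ^ ⌊u * J⌋₊ ≤ 1 / 2 ^ ⌊w * J⌋₊ := inv_mono hwJ
    have h4 := not_not.1 h3 b (by
      refine ⟨?_, fun i _ => ?_⟩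
      · have e1 := hb none
        have e2 : bt F ω none = F.t ω := rfl
        rw [e2] at e1
        have e3 : (4 : ℝ) / 2 ^ ⌊w * J⌋₊ = 4 * (1 / 2 ^ ⌊w * J⌋₊) := by ring
        have e4 : (0 : ℝ) ≤ 1 / 2 ^ ⌊u * J⌋₊ := by positivity
        rw [e3]
        linarith
      · have e1 := hb none
        have e2 := hb (some i)
        have e3 : bt F ω none = F.t ω := rfl
        have e4 : bt F ω (some i) = F.u ω i + F.t ω * F.d ω i := rfl
        rw [e3] at e1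
        rw [e4] at e2
        have e5 := F.dir ω i
        have e6 : |(b none - F.t ω) * F.d ω i| ≤ 2 * (1 / 2 ^ ⌊u * J⌋₊) := by
          rw [abs_mul]
          exact (mul_le_of_le_one_right (abs_nonneg _) e5).trans e1
        have e7 : b (some i) - (F.u ω i + b none * F.d ω i) =
            (b (some i) - (F.u ω i + F.t ω * F.d ω i)) - (b none - F.t ω) * F.d ω i := by ring
        rw [e7]
        refine (abs_sub _ _).trans ?_
        have e8 : (4 : ℝ) / 2 ^ ⌊u * J⌋₊ = 4 * (1 / 2 ^ ⌊u * J⌋₊) := by ring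
        rw [e8]
        linarith)
    refine h4.trans (mul_le_mul_of_nonneg_right (Real.exp_le_exp.2 ?_) (hτ _).le)
    rw [← hy]
    exact hy1.trans (mul_le_mul_of_nonneg_right hδ1 hJ0)

end Pool.TOP
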