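import Pool.Agent.H27.TOP.Stm
import Pool.Agent.H29.REC.Low

/-!
# Closed labels are chain labels

`tch_of_cls`: a closed label of the coordinate `k` over the coordinates in `I` is a label of the
system `Pool.LBN.Tch`, with trivial labels for the coordinates of the list.
`lbr_no`: above the threshold there are no closed labels.
-/

set_option autoImplicit false

namespace Pool.TOP

open Finset Real MvPolynomial
open Pool.Agent.H49.Ent Pool.Agent.H32.Dense Pool.STK Pool.KA Pool.KSAT Pool.K2S Pool.PB Pool.S6C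
open Pool.GEN Pool.ONE
open Pool.GRD (LbP)
open Pool.LBN (Tch cof cof_lt cof_ge cof_len)
open Pool.LBT (ThrOf)

variable {m n J : ℕ}

/-- A bound for finitely many real numbers by a power of two. -/
theorem two_pow_bd {ι : Type} [Finite ι] (f : ι → ℝ) : ∃ e : ℕ, ∀ i, f i ≤ 2 ^ e := by
  obtain ⟨M, hM⟩ := Finite.bddAbove_range f
  obtain ⟨e, he⟩ := pow_unbounded_of_one_lt M (one_lt_two (α := ℝ))
  exact ⟨e, fun i => (hM ⟨i, rfl⟩).trans he.le⟩

/-- **Closed labels are chain labels.** -/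
theorem tch_of_cls {F : Fam m J} {l : List (Fin m)} {I : Finset (Fin m)} {k : Fin m}
    {K w P : ℕ} {A : F.Ω → Prop} {V : Type} {z : PtT F → V} {z' : LnT F → V}
    {G : V → MvPolynomial (Option (Fin m)) ℝ} (hI : ∀ i ∈ I, i ∈ l) (hw : 1 ≤ w) (hwJ : w ≤ J)
    (hPJ : P ≤ J) (h : LbP F I k K J w P A z z' G) : Tch l k K w w P J F A := by
  classical
  obtain ⟨c, hc⟩ : ∃ c : ℕ → Fin m, c = cof l k := ⟨_, rfl⟩
  obtain ⟨g, hg⟩ : ∃ g : ℕ → ℕ, g = fun i => if i < l.length then w - 1 else P := ⟨_, rfl⟩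
  obtain ⟨Gx, hGx⟩ : ∃ Gx : PtT F → ℕ → MvPolynomial (Option (Fin m)) ℝ, Gx = fun y i =>
    if i < l.length then MvPolynomial.C ((y.1 (c i) : ℝ) / 2 ^ J) else G (z y) := ⟨_, rfl⟩
  obtain ⟨Gl, hGl⟩ : ∃ Gl : LnT F → ℕ → MvPolynomial (Option (Fin m)) ℝ, Gl = fun s i =>
    if i < l.length then MvPolynomial.C (s.1.1 (c i) + (s.2.2 : ℝ) / 2 ^ w * s.1.2 (c i))
      else G (z' s) := ⟨_, rfl⟩
  have hdepG : ∀ (v : V) (i : ℕ), l.length ≤ i → DepC c i (G v) := by
    intro v i hi b b' h0 h1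
    refine h.dep v b b' h0 fun j hj => ?_
    obtain ⟨x, hx, hxj⟩ := List.getElem_of_mem (hI j hj)
    have h2 := h1 x (hx.trans_le hi)
    rwa [hc, cof_lt hx, hxj] at h2
  have hdep : ∀ (y : PtT F) (i : ℕ), DepC c i (Gx y i) := by
    intro y i
    rw [hGx]
    show DepC c i (if i < l.length then _ else _)
    split_ifs with hi
    · intro b b' _ _
      rw [eval_C, eval_C]
    · exact hdepG _ i (by omega)
  -- the gradients
  have hbd : ∀ x : F.Ω × Fin (l.length + 1), ∃ M : ℝ, ∀ b : Option (Fin m) → ℝ,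
      NBx c (Gx (ptr F J x.1)) g w (F.t x.1) l.length b →
      |eval b (pderiv (some (c x.2)) (Gx (ptr F J x.1) l.length))| ≤ M := fun x =>
    Pool.RTS.eval_bdd (hdep (ptr F J x.1)) g w (F.t x.1) l.length ((hdep _ _).pderiv _)
  choose M hM using hbd
  obtain ⟨e, he⟩ := two_pow_bd M
  refine ⟨w, w, e, g, le_rfl, le_rfl, le_rfl, ?_, fun i hi => ?_, ?_⟩
  · rw [hg]
    simp
  · rw [hg]
    show (if i < l.length then w - 1 else P) ≤ J
    split_ifs <;> omega
  rw [← hc]
  have e1 : (1 : ℝ) / 2 ^ J ≤ 1 / 2 ^ w := inv_mono hwJ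
  have e3 : (1 : ℝ) / 2 ^ w + 1 / 2 ^ w = 1 / 2 ^ (w - 1) := by
    obtain ⟨v, rfl⟩ : ∃ v, w = v + 1 := ⟨w - 1, by omega⟩
    rw [Nat.add_sub_cancel, pow_succ]
    field_simp
    norm_num
  refine ⟨Gx, Gl, ⟨fun y i => ?_, fun s i => ?_, hdep, fun s i => ?_, fun ω hω i hi => ?_,
    fun ω hω i hi b _ => ?_, fun ω hω i hi b hb j hj => ?_⟩⟩
  · rw [hGx]
    show (if i < l.length then _ else _ : MvPolynomial (Option (Fin m)) ℝ).totalDegree ≤ K
    split_ifs
    · rw [totalDegree_C]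
      exact Nat.zero_le _
    · exact h.deg _
  · rw [hGl]
    show (if i < l.length then _ else _ : MvPolynomial (Option (Fin m)) ℝ).totalDegree ≤ K
    split_ifs
    · rw [totalDegree_C]
      exact Nat.zero_le _
    · exact h.deg _
  · rw [hGl]
    show DepC c i (if i < l.length then _ else _)
    split_ifs with hi
    · intro b b' _ _
      rw [eval_C, eval_C]
    · exact hdepG _ i (by omega)
  · rw [hGx, hg]
    show |F.x ω (c i) - eval (bt F ω) (if i < l.length then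
      MvPolynomial.C (((ptr F J ω).1 (c i) : ℝ) / 2 ^ J) else G (z (ptr F J ω)))| ≤
        1 / 2 ^ (if i < l.length then w - 1 else P)
    split_ifs with hi'
    · have h1 := Pool.LBN.near_pt F (c i) ω
      rw [eval_C]
      change |F.x ω (c i) - ((F.X J ω (c i) : ℤ) : ℝ) / 2 ^ J| ≤ _
      have : (0 : ℝ) < 1 / 2 ^ w := by positivity
      linarith
    · have e2 : i = l.length := by omega
      have h1 := h.pos ω hω
      rw [h.cls ω hω, e2, hc, cof_len]
      exact h1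
  · rw [hGx, hGl, hg]
    show |eval b (if i < l.length then MvPolynomial.C (((ptr F J ω).1 (c i) : ℝ) / 2 ^ J)
      else G (z (ptr F J ω))) - eval b (if i < l.length then
      MvPolynomial.C ((slam F w ω).1.1 (c i) + ((slam F w ω).2.2 : ℝ) / 2 ^ w *
        (slam F w ω).1.2 (c i)) else G (z' (slam F w ω)))| ≤
        1 / 2 ^ (if i < l.length then w - 1 else P)
    split_ifs with hi'
    · have h1 := Pool.LBN.near_pt F (c i) ω
      have h2 := Pool.LBN.near_win F (c i) hwJ ω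
      rw [eval_C, eval_C]
      change |((F.X J ω (c i) : ℤ) : ℝ) / 2 ^ J - F.x1 w ω (c i)| ≤ _
      rw [abs_le] at h1 h2 ⊢
      constructor <;> linarith [h1.1, h1.2, h2.1, h2.2]
    · rw [h.cls ω hω, sub_self, abs_zero]
      positivity
  · rcases Nat.lt_or_ge i l.length with hi' | hi'
    · have e2 : Gx (ptr F J ω) i = MvPolynomial.C (((ptr F J ω).1 (c i) : ℝ) / 2 ^ J) := by
        rw [hGx]
        exact if_pos hi'
      rw [e2, pderiv_C, map_zero, abs_zero]
      positivity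
    · have e2 : i = l.length := by omega
      subst e2
      refine (hM (ω, ⟨j, by omega⟩) b hb).trans ((he _).trans ?_)
      exact pow_le_pow_right₀ (by norm_num) (Nat.le_add_right _ _)

/-- A stable label is a closed label. -/
theorem LbR.lbp {R : ℝ} (hR : 0 ≤ R) {F : Fam m J} {I : Finset (Fin m)} {k : Fin m}
    {K w P : ℕ} {A : F.Ω → Prop} (h : LbR R F I k K w P A) :
    ∃ (V : Type) (z : PtT F → V) (z' : LnT F → V) (G : V → MvPolynomial (Option (Fin m)) ℝ),
      LbP F I k K J w P A z z' G := by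
  obtain ⟨V, z, z', G, h⟩ := h
  refine ⟨V, z, z', G, h.deg, h.dep, h.cls, fun ω hω => h.pos ω hω _ fun o => ?_⟩
  rw [sub_self, abs_zero]
  positivity

/-- **Above the threshold there are no closed labels.** -/
theorem lbr_no {S : PCl m} {k : Fin m} {P : ℝ → ℝ → ℝ}
    (hT : ThrOf (tgs k) S (fun _ => P)) {R : ℝ} (hR : 0 ≤ R) {I : Finset (Fin m)} (hkI : k ∉ I)
    {v a' Q' : ℝ} (hv : 0 < v) (hva : v < a') (ha' : a' ≤ 1) (hQ : P a' a' < Q') (hQ1 : Q' ≤ 1)
    (K : ℕ) : Bas S (fun J F A => ¬ LbR R F I k K ⌊v * J⌋₊ ⌊Q' * J⌋₊ A) := by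
  classical
  have h1 := hT.no' () K hv.le le_rfl hva hva le_rfl ha' (h := Q' - P a' a') (by linarith)
    (by linarith)
  obtain ⟨J₁, hJ₁⟩ := exists_nat_ge (1 / v)
  refine h1.mono J₁ ?_
  intro J hJ F A h2 h3
  have hJ0 : (0 : ℝ) ≤ J := Nat.cast_nonneg J
  have hJ' : (J₁ : ℝ) ≤ J := by exact_mod_cast hJ
  have e1 : 1 / v ≤ J := hJ₁.trans hJ'
  rw [div_le_iff₀ hv] at e1
  refine h2 ?_
  obtain ⟨V, z, z', G, h4⟩ := h3.lbp hR
  refine ⟨I.toList, I.nodup_toList, fun h => hkI (Finset.mem_toList.1 h), ?_⟩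
  have e2 : P a' a' + (Q' - P a' a') = Q' := by ring
  rw [e2]
  refine tch_of_cls (fun i hi => Finset.mem_toList.2 hi) ?_ ?_ ?_ h4
  · refine Nat.le_floor ?_
    push_cast
    linarith
  · refine Nat.floor_le_of_le ?_
    calc v * J ≤ 1 * J := mul_le_mul_of_nonneg_right (by linarith) hJ0
      _ = J := one_mul _
  · refine Nat.floor_le_of_le ?_
    calc Q' * J ≤ 1 * J := mul_le_mul_of_nonneg_right hQ1 hJ0
      _ = J := one_mul _

end Pool.TOP
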