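import Pool.Agent.H27.TOP.Stp

/-!
# Rows and labels

`row_drop`: the row over `I` without `i` is at most the row over `I` and the entropy of the
coordinate `i`. `row_rate`: the row over all other coordinates and the rate.
`lbp_of_tch`: closed labels from chains. `lbr_of_lbp`: a closed label with a small gradient is
stable.
-/

set_option autoImplicit false

namespace Pool.TOP

open Finset Real MvPolynomial
open Pool.Agent.H49.Ent Pool.Agent.H32.Dense Pool.STK Pool.KA Pool.KSAT Pool.K2S Pool.PB Pool.S6C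
open Pool.GEN Pool.ONE
open Pool.GRD (LbP)
open Pool.LBN (Tch cof cof_lt cof_len)
open Pool.ALL (RateOf)
open Pool.FLF (Fam.sub)
open Pool.GEN.N83 (oth)

variable {m n J : ℕ}

/-! ### Rows -/

/-- The row over `I` without `i`. -/
theorem row_drop {F : Fam m J} {A : F.Ω → Prop} (hA : 0 < Pe F.p A) {I : Finset (Fin m)}
    {i : Fin m} (k : Fin m) (Q : ℕ) {V : Type} (z : F.Ω → V) :
    rowH F A k (I.erase i) Q z ≤
      CH (Pool.Agent.H49.Ent.cond F.p A True) (fun ω => F.X J ω i)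
        (fun ω => (F.X Q ω k, (ub (I.erase i) (F.X J ω), (z ω, F.W ω)))) +
      rowH F A k I Q (fun _ => ()) := by
  have hq := isLaw_cond F.isLaw hA
  unfold rowH
  refine (CH_le_add hq.nonneg _ (fun ω => F.X J ω i) _).trans (add_le_add le_rfl ?_)
  refine CH_mono_cond hq.nonneg fun ω ω' _ _ hh => ?_
  simp only [Prod.mk.injEq] at hh ⊢
  obtain ⟨h1, h2, h3, -, h4⟩ := hh
  refine ⟨h2, ?_, trivial, h4⟩
  funext l
  have h5 := congrFun h3 l
  unfold ub at h5 ⊢
  by_cases hl : l = i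
  · subst hl
    rw [h1]
  · by_cases hI : l ∈ I
    · rw [if_pos (Finset.mem_erase.2 ⟨hl, hI⟩), if_pos (Finset.mem_erase.2 ⟨hl, hI⟩)] at h5
      rw [if_pos hI, if_pos hI, h5]
    · rw [if_neg hI, if_neg hI]

theorem rowH_nonneg {F : Fam m J} {A : F.Ω → Prop} (hA : 0 < Pe F.p A) {I : Finset (Fin m)}
    (k : Fin m) (Q : ℕ) {V : Type} (z : F.Ω → V) : 0 ≤ rowH F A k I Q z :=
  CH_nonneg (isLaw_cond F.isLaw hA).nonneg _ _

/-- Coarser digits are a function of finer digits. -/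
theorem fX_coarse (F : Fam m J) {r r' : ℕ} (h : r ≤ r') (k : Fin m) (ω : F.Ω) :
    F.X r ω k = F.X r' ω k / 2 ^ (r' - r) := by
  have h1 : (2 : ℝ) ^ r * F.x ω k = (2 ^ r' * F.x ω k) / ((2 ^ (r' - r) : ℕ) : ℝ) := by
    have : (2 : ℝ) ^ r' = 2 ^ r * 2 ^ (r' - r) := by
      rw [← pow_add]; congr 1; omega
    rw [this]
    push_cast
    field_simp
  change ⌊(2 : ℝ) ^ r * F.x ω k⌋ = ⌊(2 : ℝ) ^ r' * F.x ω k⌋ / 2 ^ (r' - r)
  rw [h1, Int.floor_div_natCast]
  push_cast
  rfl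

/-- More digits behind fewer digits. -/
theorem rowH_anti {F : Fam m J} {A : F.Ω → Prop} (hA : 0 < Pe F.p A) {I : Finset (Fin m)}
    (k : Fin m) {Q Q' : ℕ} (hQ : Q ≤ Q') {V : Type} (z : F.Ω → V) :
    rowH F A k I Q' z ≤ rowH F A k I Q z := by
  unfold rowH
  refine CH_mono_cond (isLaw_cond F.isLaw hA).nonneg fun ω ω' _ _ hh => ?_
  simp only [Prod.mk.injEq] at hh ⊢
  obtain ⟨h1, h2⟩ := hh
  exact ⟨by rw [fX_coarse F hQ k ω, fX_coarse F hQ k ω', h1], h2⟩

/-- The row over all other coordinates. -/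
theorem rowH_oth {F : Fam m J} {A : F.Ω → Prop} (hA : 0 < Pe F.p A) (k : Fin m) {Q : ℕ}
    (hQ : Q ≤ J) : rowH F A k (univ.erase k) Q (fun _ => ()) =
      CH (Pool.Agent.H49.Ent.cond F.p A True) (fun ω => F.X J ω k)
        (fun ω => oth k J F (ptr F J ω)) -
      CH (Pool.Agent.H49.Ent.cond F.p A True) (fun ω => F.X Q ω k)
        (fun ω => oth k J F (ptr F J ω)) := by
  have hq := isLaw_cond F.isLaw hA
  have h1 := CH_chain hq.nonneg (fun ω => F.X J ω k) (fun ω => F.X Q ω k)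
    (fun ω => oth k J F (ptr F J ω))
  have h2 : CH (Pool.Agent.H49.Ent.cond F.p A True) (fun ω => (F.X J ω k, F.X Q ω k))
      (fun ω => oth k J F (ptr F J ω)) =
      CH (Pool.Agent.H49.Ent.cond F.p A True) (fun ω => F.X J ω k)
        (fun ω => oth k J F (ptr F J ω)) := by
    refine CH_congr hq.nonneg (fun ω ω' _ _ hh => ?_) (fun ω ω' _ _ hh => ?_)
      (fun ω ω' _ _ hh => hh) (fun ω ω' _ _ hh => hh)
    · simp only [Prod.mk.injEq] at hh
      exact hh.1.1
    · simp only [Prod.mk.injEq] at hh ⊢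
      exact ⟨hh.1, by rw [fX_coarse F hQ k ω, fX_coarse F hQ k ω', hh.1]⟩
  have h3 : rowH F A k (univ.erase k) Q (fun _ => ()) =
      CH (Pool.Agent.H49.Ent.cond F.p A True) (fun ω => F.X J ω k)
        (fun ω => (F.X Q ω k, oth k J F (ptr F J ω))) := by
    unfold rowH
    have hub : ∀ ω, ub (univ.erase k) (F.X J ω) = Function.update (F.X J ω) k 0 := by
      intro ω
      funext l
      unfold ub
      by_cases hl : l = k
      · subst hl
        rw [if_neg (by simp), Function.update_self]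
      · rw [if_pos (by simp [hl]), Function.update_of_ne hl]
    refine CH_congr hq.nonneg (fun ω ω' _ _ hh => ?_) (fun ω ω' _ _ hh => ?_)
      (fun ω ω' _ _ hh => ?_) (fun ω ω' _ _ hh => ?_)
    · exact (Prod.ext_iff.mp hh).1
    · exact (Prod.ext_iff.mp hh).1
    · simp only [hub, Prod.mk.injEq] at hh
      obtain ⟨h1, h2, -, h4⟩ := hh
      exact Prod.ext h1 (Prod.ext h2 h4)
    · have h1 := (Prod.ext_iff.mp hh).1
      have h2 := (Prod.ext_iff.mp (Prod.ext_iff.mp hh).2).1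
      have h4 := (Prod.ext_iff.mp (Prod.ext_iff.mp hh).2).2
      simp only [hub, Prod.mk.injEq]
      exact ⟨h1, h2, trivial, h4⟩
  rw [h3]
  linarith

/-- **The row over all other coordinates and the rate.** -/
theorem row_rate {S : PCl n} {k : Fin n} {r : ℝ → ℝ} (hr : RateOf S k r)
    (hpos : Bas S (fun _ F A => 0 < Pe F.p A)) {Q : ℝ} (hQ0 : 0 ≤ Q) (hQ1 : Q ≤ 1) {h : ℝ}
    (hh : 0 < h) : Bas S (fun J F A =>
      |rowH F A k (univ.erase k) ⌊Q * J⌋₊ (fun _ => ()) - (r 1 - r Q) * Real.log 2 * J| ≤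
        h * J) := by
  refine (((hr.num Q hQ0 hQ1 (h / 2) (by linarith)).and
    (hr.num 1 zero_le_one le_rfl (h / 2) (by linarith))).and hpos).mono 0 ?_
  rintro J - F A ⟨⟨h1, h2⟩, hA⟩
  have hJ0 : (0 : ℝ) ≤ J := Nat.cast_nonneg J
  have hQJ : ⌊Q * J⌋₊ ≤ J := by
    refine Nat.floor_le_of_le ?_
    calc Q * J ≤ 1 * J := mul_le_mul_of_nonneg_right hQ1 hJ0
      _ = J := one_mul _
  rw [rowH_oth hA k hQJ]
  rw [one_mul, Nat.floor_natCast] at h2
  rw [abs_le] at h1 h2 ⊢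
  constructor <;> linarith [h1.1, h1.2, h2.1, h2.2]

/-! ### Stable labels -/

/-- A stable label for windows is a stable label for shorter windows. -/
theorem LbR.win {R : ℝ} {F : Fam m J} {I : Finset (Fin m)} {k : Fin m} {K w w' P : ℕ}
    {A : F.Ω → Prop} (h : LbR R F I k K w P A) (hw : w ≤ w') (hw' : w' ≤ J) :
    LbR R F I k K w' P A := by
  obtain ⟨V, z, z', G, h⟩ := h
  have e : ∀ ω, z' ((slam F w' ω).1, (slam F w' ω).2.1, (slam F w' ω).2.2 / 2 ^ (w' - w)) =
      z' (slam F w ω) := fun ω => by rw [← slam_coarse F hw hw' ω]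
  refine ⟨V, z, fun s => z' (s.1, s.2.1, s.2.2 / 2 ^ (w' - w)), G, h.deg, h.dep,
    fun ω hω => (h.cls ω hω).trans (e ω).symm, fun ω hω b hb => ?_⟩
  simp only [e]
  exact h.pos ω hω b hb

theorem slam_ge (F : Fam m J) {w : ℕ} (hw : J ≤ w) (ω : F.Ω) : slam F w ω = slam F J ω := by
  unfold slam Fam.T1
  rw [Nat.sub_eq_zero_of_le hw, Nat.sub_self]

/-- The windows beyond `J` are allowed. -/
theorem LbR.win' {R : ℝ} {F : Fam m J} {I : Finset (Fin m)} {k : Fin m} {K w w' P : ℕ}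
    {A : F.Ω → Prop} (h : LbR R F I k K w P A) (hw : w ≤ w') : LbR R F I k K w' P A := by
  rcases le_or_gt w' J with h1 | h1
  · exact h.win hw h1
  · have h2 : LbR R F I k K J P A := by
      rcases le_or_gt w J with h3 | h3
      · exact h.win h3 le_rfl
      · obtain ⟨V, z, z', G, h⟩ := h
        exact ⟨V, z, z', G, h.deg, h.dep, fun ω hω => by
          rw [← slam_ge F h3.le ω]
          exact h.cls ω hω, fun ω hω b hb => by
          rw [← slam_ge F h3.le ω]
          exact h.pos ω hω b hb⟩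
    obtain ⟨V, z, z', G, h⟩ := h2
    exact ⟨V, z, z', G, h.deg, h.dep, fun ω hω => by
      rw [slam_ge F h1.le ω]
      exact h.cls ω hω, fun ω hω b hb => by
      rw [slam_ge F h1.le ω]
      exact h.pos ω hω b hb⟩

theorem LbR.wk {R : ℝ} {F : Fam m J} {I I' : Finset (Fin m)} {k : Fin m} {K K' w P P' : ℕ}
    {A : F.Ω → Prop} (h : LbR R F I k K w P A) (hI : I ⊆ I') (hK : K ≤ K') (hP : P' ≤ P) :
    LbR R F I' k K' w P' A := by
  obtain ⟨V, z, z', G, h⟩ := h
  exact ⟨V, z, z', G, fun v => (h.deg v).trans hK, fun v b b' h0 h1 =>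
    h.dep v b b' h0 fun i hi => h1 i (hI hi), h.cls, fun ω hω b hb =>
    (h.pos ω hω b hb).trans (inv_mono hP)⟩

/-- **A closed label with a small gradient is stable.** -/
theorem lbr_of_lbp {R : ℝ} {F : Fam m J} {I : Finset (Fin m)} {k : Fin m}
    {K w P Q U : ℕ} {B : F.Ω → Prop} {V : Type} {z : PtT F → V} {z' : LnT F → V}
    {G : V → MvPolynomial (Option (Fin m)) ℝ} (hL : LbP F I k K J w P B z z' G) {a : ℝ}
    (ha : 0 ≤ a) (hRU : R / 2 ^ J ≤ 1 / 2 ^ U)
    (hsup : ∀ ω, B ω → ∀ b : Option (Fin m) → ℝ, (∀ o, |b o - bt F ω o| ≤ 2 * (1 / 2 ^ U)) →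
      ∀ o, |eval b (pderiv o (G (z' (slam F w ω))))| ≤ a) (hP : Q + 1 ≤ P)
    (haQ : a * ((m + 1) * (R / 2 ^ J)) ≤ 1 / 2 ^ (Q + 1)) : LbR R F I k K w Q B := by
  refine ⟨V, z, z', G, hL.deg, hL.dep, hL.cls, fun ω hω b hb => ?_⟩
  have h1 := mvσ (G (z' (slam F w ω))) (bt F ω) b a
    (fun y hy o => hsup ω hω y (fun o' => (hy o').trans ((hb o').trans (by
      have : (0 : ℝ) < 1 / 2 ^ U := by positivity
      linarith))) o)
  have h2 : ∑ o, |b o - bt F ω o| ≤ (m + 1) * (R / 2 ^ J) := by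
    refine (Finset.sum_le_card_nsmul _ _ _ fun o _ => hb o).trans ?_
    rw [nsmul_eq_mul, Finset.card_univ, Fintype.card_option, Fintype.card_fin]
    push_cast
    exact le_rfl
  have h3 := (h1.trans (mul_le_mul_of_nonneg_left h2 ha)).trans haQ
  have h4 := (hL.pos ω hω).trans (inv_mono hP)
  have e1 : (1 : ℝ) / 2 ^ Q = 1 / 2 ^ (Q + 1) + 1 / 2 ^ (Q + 1) := by
    rw [pow_succ]
    field_simp
    norm_num
  rw [e1]
  rw [abs_le] at h3 h4 ⊢
  constructor <;> linarith [h3.1, h3.2, h4.1, h4.2]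

/-! ### Closed labels from chains -/

/-- **Closed labels from chains.** -/
theorem lbp_of_tch (n K : ℕ) : ∃ c' : ℕ, 1 ≤ c' ∧ ∀ (J : ℕ) (F : Fam n J) (k : Fin n)
    (l : List (Fin n)) (a w P : ℕ) (A : F.Ω → Prop), l.Nodup → k ∉ l → a ≤ J →
    Tch l k K a w P J F A → a + c' ≤ P →
    ∃ (V : Type) (z : PtT F → V) (z' : LnT F → V) (G : V → MvPolynomial (Option (Fin n)) ℝ)
      (B : F.Ω → Prop), Sub B A ∧ Pe F.p A ≤ c' * Pe F.p B ∧
      LbP F (univ.erase k) k c' J a (P - a - c') B z z' G := by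
  choose C hC h using fun r : ℕ => Pool.GRD.clo1 (r + 1) K
  obtain ⟨c', hc'⟩ : ∃ c', c' = ∑ r ∈ range (n + 1), C r := ⟨_, rfl⟩
  have hle : ∀ r ≤ n, C r ≤ c' := by
    intro r hr
    rw [hc']
    exact Finset.single_le_sum (f := C) (fun i _ => Nat.zero_le _)
      (Finset.mem_range.2 (Nat.lt_succ_of_le hr))
  refine ⟨c', (hC 0).trans (hle 0 (Nat.zero_le _)), ?_⟩
  rintro J F k l a w P A hl hk haJ ⟨a₀, w₀, e, g, h1, h2, -, h4, h5, G, H, hG⟩ hP
  have hlen : l.length ≤ n := by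
    have := List.Nodup.length_le_card hl
    rwa [Fintype.card_fin] at this
  have hinj : Pool.STAT.CLO.Inj (cof l k) (l.length + 1) := by
    intro x hx y hy hxy
    rcases Nat.lt_or_ge x l.length with hx' | hx'
    · rcases Nat.lt_or_ge y l.length with hy' | hy'
      · rw [cof_lt hx', cof_lt hy'] at hxy
        exact (List.Nodup.getElem_inj_iff hl).1 hxy
      · have e1 : y = l.length := by omega
        rw [e1, cof_len, cof_lt hx'] at hxy
        exact absurd (hxy ▸ List.getElem_mem hx') hk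
    · have e0 : x = l.length := by omega
      rcases Nat.lt_or_ge y l.length with hy' | hy'
      · rw [e0, cof_len, cof_lt hy'] at hxy
        exact absurd (hxy ▸ List.getElem_mem hy') hk
      · omega
  have hCl := hle l.length hlen
  obtain ⟨z, z', P', B, hBA, hPB, -, -, -, -, hlab⟩ := h l.length n J F (cof l k) (fun _ => K)
    a₀ w₀ e g A G H h1 (h2.trans haJ) hinj (fun _ _ => le_rfl) hG
  have h6 := hlab l.length (Nat.lt_succ_self _) (by omega)
  rw [cof_len] at h6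
  have h7 := h6.win h2 haJ
  refine ⟨_, z, _, _, B, hBA, hPB.trans (mul_le_mul_of_nonneg_right (by exact_mod_cast hCl)
    (Pe_nonneg F.isLaw B)), h7.mono ?_ hCl (by omega)⟩
  intro x hx
  obtain ⟨i, hi, rfl⟩ := Finset.mem_image.1 hx
  rw [Finset.mem_range] at hi
  rw [cof_lt hi, Finset.mem_erase]
  refine ⟨fun he => hk (he ▸ List.getElem_mem hi), Finset.mem_univ _⟩

end Pool.TOP
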