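import Pool.Agent.H27.TOP.Rwl
import Pool.Agent.H83.GN.NumX
import Mathlib.Topology.Algebra.Module.Cardinality

/-!
# The rows of a class

`rt_of`: in a class of dimension `n` in which the last coordinate has no stable label over the
others with the precision `Q` at small windows, the rows above `Q` are full; from the rows above
the thresholds (`RowN n`) and from `RW (n - 1)`.
-/

set_option autoImplicit false

namespace Pool.TOP

open Finset Real MvPolynomial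
open Pool.Agent.H49.Ent Pool.Agent.H32.Dense Pool.STK Pool.KA Pool.KSAT Pool.K2S Pool.PB Pool.S6C
open Pool.GEN Pool.ONE Pool.EXW
open Pool.GRD (LbP)
open Pool.LBN (Tch)
open Pool.LBT (ThrOf)
open Pool.ALL (RateOf numx)
open Pool.FLF (Fam.sub)

variable {m n J : ℕ}

/-- **The classes are classes of the exactness theorem.** -/
theorem ClB.clx {N : ℚ → ℚ → ℝ} {S : PCl n} {al : ℝ} {g₀ : ℝ → ℝ} (h : ClB N S)
    (hN : ActM N al g₀) : ClX (fun _ => 0) (fun _ => 1) al g₀ 2 0 N S := by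
  refine ⟨hN, h.ne, fun τ J F A hA => ?_, fun l K hl => ?_, h.actb⟩
  · obtain ⟨h1, h2, h3, h4, h5, h6⟩ := h.mem τ J F A hA
    refine ⟨h1, h2, h3, h4, h5, ⟨fun _ _ _ => MvPolynomial.C 1, fun _ _ _ => ⟨?_, ?_⟩,
      fun ω _ j k _ => ⟨?_, fun b _ o => ?_⟩⟩, h6⟩
    · rw [totalDegree_C]
    · intro b b' _ _
      rw [eval_C, eval_C]
    · rw [eval_C]
      have e1 : ⌊((0 : ℝ) - 2) * (J : ℝ)⌋₊ = 0 := by
        refine Nat.floor_of_nonpos ?_
        have : (0 : ℝ) ≤ J := Nat.cast_nonneg J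
        linarith
      rw [e1, pow_zero, div_one]
      obtain ⟨a1, a2⟩ := gd_x h5 ω k
      rw [abs_le]
      constructor <;> linarith
    · rw [pderiv_C, map_zero, abs_zero]
      positivity
  · exfalso
    have h1 : (1 : ℝ) / ((l : ℝ) + 1) ≤ 1 := by
      rw [div_le_one (by positivity)]
      have : (0 : ℝ) ≤ l := Nat.cast_nonneg l
      linarith
    linarith

theorem bas_no {S : PCl m} (hS : S.Ne) (h : Bas S (fun _ _ _ => False)) : False := by
  obtain ⟨τ, hτ, J₁, h⟩ := h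
  obtain ⟨J, hJ, F, A, hA⟩ := hS τ hτ J₁
  exact h J hJ F A hA

/-- **The contradiction**: on a large event one of the coordinates is determined by the others. -/
theorem drop_contr {S : PCl m} (hS : S.Ne) (hpos : Bas S (fun _ F A => 0 < Pe F.p A))
    {I : Finset (Fin m)} {k : Fin m} (Ok : Fin m → Prop) {w Q ρ c : ℝ} (hρ : 0 < ρ) (hc : 0 < c)
    (Bad : Stat m) (hno : Bas S (fun J F A => ¬ Bad J F A))
    (h1 : Bas S (fun J F A => rowH F A k I ⌊Q * J⌋₊ (fun _ => ()) ≤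
      (1 - Q - ρ) * Real.log 2 * J))
    (h2 : ∀ i, Ok i → Bas S (fun J F A => ∀ (V : Type) (z : PtT F → V) (z' : LnT F → V),
      (∀ ω, A ω → z (ptr F J ω) = z' (slam F ⌊w * J⌋₊ ω)) →
      (1 - Q - ρ / 4) * Real.log 2 * J ≤ rowH F A k (I.erase i) ⌊Q * J⌋₊
        (fun ω => z' (slam F ⌊w * J⌋₊ ω))))
    (h3 : Bas S (fun J F A => ∃ B : F.Ω → Prop, Sub B A ∧ c * Pe F.p A ≤ Pe F.p B ∧
      (Bad J F B ∨ ∃ i, Ok i ∧ ∃ (V : Type) (z : PtT F → V) (z' : LnT F → V),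
        (∀ ω, B ω → z (ptr F J ω) = z' (slam F ⌊w * J⌋₊ ω)) ∧
        CH (Pool.Agent.H49.Ent.cond F.p B True) (fun ω => F.X J ω i)
          (fun ω => (F.X ⌊Q * J⌋₊ ω k, (ub (I.erase i) (F.X J ω),
            (z' (slam F ⌊w * J⌋₊ ω), F.W ω)))) ≤ ρ / 2 * Real.log 2 * J))) : False := by
  have hl2 : 0 < Real.log 2 := Real.log_pos one_lt_two
  have h2' : Bas S (fun J F A => ∀ i, Ok i → ∀ (V : Type) (z : PtT F → V) (z' : LnT F → V),
      (∀ ω, A ω → z (ptr F J ω) = z' (slam F ⌊w * J⌋₊ ω)) →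
      (1 - Q - ρ / 4) * Real.log 2 * J ≤ rowH F A k (I.erase i) ⌊Q * J⌋₊
        (fun ω => z' (slam F ⌊w * J⌋₊ ω))) := by
    refine Bas.fin fun i => ?_
    by_cases hi : Ok i
    · exact (h2 i hi).mono 0 fun J _ F A h _ => h
    · exact ⟨1, one_pos, 0, fun J _ F A _ h => absurd h hi⟩
  refine bas_no hS ?_
  refine (((bas_ev hno hc).and (bas_ev h1 hc)).and ((bas_ev h2' hc).and (h3.and hpos))).mono 1 ?_
  rintro J hJ F A ⟨⟨a1, a2⟩, a3, ⟨B, hBA, hPB, hB⟩, hA⟩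
  have hJ0 : (0 : ℝ) < J := by exact_mod_cast hJ
  have hB0 : 0 < Pe F.p B := lt_of_lt_of_le (by positivity) hPB
  rcases hB with hB | ⟨i, hi, V, z, z', hz, hCH⟩
  · exact a1 B hBA hPB hB
  · have b1 := a3 B hBA hPB i hi V z z' hz
    have b2 := row_drop hB0 (I := I) (i := i) k ⌊Q * J⌋₊ (fun ω => z' (slam F ⌊w * J⌋₊ ω))
    have b3 := a2 B hBA hPB
    have b4 : 0 < ρ / 4 * Real.log 2 * J := by positivity
    have b5 : (1 - Q - ρ / 4) * Real.log 2 * J =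
        (1 - Q - ρ) * Real.log 2 * J + ρ / 2 * Real.log 2 * J + ρ / 4 * Real.log 2 * J := by ring
    linarith

/-- **A coordinate with an almost complete label** is determined by the others. -/
theorem top_ch {S : PCl m} (hpos : Bas S (fun _ F A => 0 < Pe F.p A)) {I I' : Finset (Fin m)}
    {k y : Fin m} (hI : I' ⊆ I.erase y) {K : ℕ} {w Q e p r β : ℝ} (he : 0 ≤ e) (hp : p ≤ 1)
    (hr : r ≤ 1) (hβ : (1 - p + e) * Real.log 2 < β)
    (hlb : Bas S (fun J F A => Lb F I' y K ⌊e * J⌋₊ J ⌊w * J⌋₊ ⌊r * J⌋₊ ⌊p * J⌋₊ A)) :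
    Bas S (fun J F A => ∃ (V : Type) (z : PtT F → V) (z' : LnT F → V),
      (∀ ω, A ω → z (ptr F J ω) = z' (slam F ⌊w * J⌋₊ ω)) ∧
      CH (Pool.Agent.H49.Ent.cond F.p A True) (fun ω => F.X J ω y)
        (fun ω => (F.X ⌊Q * J⌋₊ ω k, (ub (I.erase y) (F.X J ω),
          (z' (slam F ⌊w * J⌋₊ ω), F.W ω)))) ≤ β * J) := by
  have hl2 : 0 < Real.log 2 := Real.log_pos one_lt_two
  obtain ⟨J₁, hJ₁⟩ := exists_nat_ge ((Real.log 2 + Real.log (2 * m + 9)) /
    (β - (1 - p + e) * Real.log 2))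
  refine (hlb.and hpos).mono J₁ ?_
  rintro J hJ F A ⟨⟨V, z, z', G, hG⟩, hA⟩
  have hJ0 : (0 : ℝ) ≤ J := Nat.cast_nonneg J
  have hq := isLaw_cond F.isLaw hA
  have hqA : ∀ ω, 0 < Pool.Agent.H49.Ent.cond F.p A True ω → A ω := fun ω hω =>
    of_eq_true ((cond_pos_iff F.isLaw.nonneg A True ω).1 hω).2
  have hle : ∀ x : ℝ, x ≤ 1 → ⌊x * (J : ℝ)⌋₊ ≤ J := by
    intro x hx
    refine Nat.floor_le_of_le ?_
    calc x * J ≤ 1 * J := mul_le_mul_of_nonneg_right hx hJ0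
      _ = J := one_mul _
  refine ⟨V, z, z', hG.cls, ?_⟩
  have h1 := Pool.EXW.one_cell hG (u := J) (hle r hr) (hle p hp) hq hqA
    (c := fun ω => (F.X ⌊Q * J⌋₊ ω k, (ub (I.erase y) (F.X J ω),
      (z' (slam F ⌊w * J⌋₊ ω), F.W ω)))) (by
      intro ω ω' _ _ hh
      simp only [Prod.mk.injEq] at hh
      obtain ⟨-, a2, a3, a4⟩ := hh
      refine ⟨fun i hi => ?_, a3, congrArg Prod.fst a4⟩
      have a5 := congrFun a2 i
      unfold ub at a5
      rw [if_pos (hI hi), if_pos (hI hi)] at a5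
      exact a5)
  have h2 : CH (Pool.Agent.H49.Ent.cond F.p A True) (fun ω => F.X J ω y)
        (fun ω => (F.X ⌊Q * J⌋₊ ω k, (ub (I.erase y) (F.X J ω),
          (z' (slam F ⌊w * J⌋₊ ω), F.W ω)))) ≤
      ((J : ℝ) - ⌊p * J⌋₊ + ⌊e * J⌋₊) * Real.log 2 + Real.log (2 * m + 9) := h1
  refine h2.trans ?_
  have h3 : p * J - 1 ≤ (⌊p * J⌋₊ : ℝ) := by
    have := Nat.lt_floor_add_one (p * (J : ℝ))
    linarith
  have h4 : (⌊e * J⌋₊ : ℝ) ≤ e * J := Nat.floor_le (by positivity)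
  have h5 : ((J : ℝ) - ⌊p * J⌋₊ + ⌊e * J⌋₊) * Real.log 2 ≤
      ((1 - p + e) * J + 1) * Real.log 2 := by
    refine mul_le_mul_of_nonneg_right ?_ hl2.le
    have e1 : (1 - p + e) * (J : ℝ) = J - p * J + e * J := by ring
    rw [e1]
    linarith
  have h6 : Real.log 2 + Real.log (2 * m + 9) ≤ (β - (1 - p + e) * Real.log 2) * J := by
    have e1 : (J₁ : ℝ) ≤ J := by exact_mod_cast hJ
    have e2 := hJ₁.trans e1
    rw [div_le_iff₀ (by linarith)] at e2
    linarith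
  have e3 : ((1 - p + e) * J + 1) * Real.log 2 = (1 - p + e) * Real.log 2 * J + Real.log 2 := by
    ring
  linarith

/-- **A closed label of precision `Q` is stable or determines a coordinate.** -/
theorem steep_alt {S : PCl m} {C₀ : ℝ} (hC₀ : 0 ≤ C₀) (htm : TmC S C₀)
    (hgd : ∀ (τ : ℝ) (J : ℕ) (F : Fam m J) (A : F.Ω → Prop), S.St τ J F A → Gd F)
    {N : ℚ → ℚ → ℝ} {al : ℝ} (hal : 0 < al) (hN : ActQ N al) {κ : Fin m} (hact : ActB N S κ)
    (I : Finset (Fin m)) (k : Fin m) {w u : ℝ} (hw0 : 0 ≤ w) (hwu : w ≤ u) (hu : u < 1)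
    (full : Ful S I w u) (K : ℕ) {R Q ρ c₁ : ℝ} (hR : 0 ≤ R) (hQ0 : 0 ≤ Q) (hρ : 0 < ρ)
    (hQρ : Q + ρ ≤ 1) (hc₁ : 0 < c₁)
    (hlab : Bas S (fun J F A => ∃ B : F.Ω → Prop, Sub B A ∧ c₁ * Pe F.p A ≤ Pe F.p B ∧
      ∃ (P : ℕ) (V : Type) (z : PtT F → V) (z' : LnT F → V)
        (G : V → MvPolynomial (Option (Fin m)) ℝ), ⌊w * J⌋₊ ≤ P ∧ ⌊Q * J⌋₊ + 1 ≤ P ∧
        LbP F I k K J ⌊w * J⌋₊ P B z z' G)) :
    ∃ c : ℝ, 0 < c ∧ Bas S (fun J F A => ∃ B : F.Ω → Prop, Sub B A ∧ c * Pe F.p A ≤ Pe F.p B ∧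
      (LbR R F I k K ⌊w * J⌋₊ ⌊Q * J⌋₊ B ∨ ∃ i, (i ∈ I ∧ i ≠ κ) ∧
        ∃ (V : Type) (z : PtT F → V) (z' : LnT F → V),
        (∀ ω, B ω → z (ptr F J ω) = z' (slam F ⌊w * J⌋₊ ω)) ∧
        CH (Pool.Agent.H49.Ent.cond F.p B True) (fun ω => F.X J ω i)
          (fun ω => (F.X ⌊Q * J⌋₊ ω k, (ub (I.erase i) (F.X J ω),
            (z' (slam F ⌊w * J⌋₊ ω), F.W ω)))) ≤ ρ / 2 * Real.log 2 * J)) := by
  have hl2 : 0 < Real.log 2 := Real.log_pos one_lt_two
  obtain ⟨h, hh⟩ : ∃ h : ℝ, h = ρ * Real.log 2 / 16 := ⟨_, rfl⟩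
  have hh0 : 0 < h := by
    rw [hh]
    positivity
  obtain ⟨c₂, hc₂, hst⟩ := steep hC₀ htm hgd hal hN hact I k hw0 hwu hu full K hh0 hh0
  have hst' := bas_ev hst hc₁
  obtain ⟨J₁, hJ₁⟩ := exp_big (2 * ((m + 1) * R)) hh0
  obtain ⟨J₂, hJ₂⟩ := exists_nat_ge (Real.log 2 / h)
  obtain ⟨J₃, hJ₃⟩ := exp_big R (b := (1 - u) * Real.log 2) (mul_pos (by linarith) hl2)
  have hu0 : 0 ≤ u := hw0.trans hwu
  refine ⟨c₂ * c₁, by positivity, (hlab.and hst').mono (max J₁ (max J₂ J₃)) ?_⟩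
  rintro J hJ F A ⟨⟨B₁, hB₁A, hPB₁, P, V, z, z', G, hwP, hQP, hL⟩, h2⟩
  have hJ0 : (0 : ℝ) ≤ J := Nat.cast_nonneg J
  have f1 := hJ₁ J ((le_max_left _ _).trans hJ)
  have f2 : Real.log 2 ≤ h * J := by
    have e1 : (J₂ : ℝ) ≤ J := by
      exact_mod_cast (le_max_left J₂ J₃).trans ((le_max_right _ _).trans hJ)
    have e2 := hJ₂.trans e1
    rw [div_le_iff₀ hh0] at e2
    linarith
  have f3 := hJ₃ J ((le_max_right J₂ J₃).trans ((le_max_right _ _).trans hJ))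
  obtain ⟨s, B, hs0, hs3, hBB, hPB, -, hsup, hor⟩ := h2 B₁ hB₁A hPB₁ P V z z' G hwP hL
  have hQJ0 : 0 ≤ Q * (J : ℝ) := by positivity
  have hQf : (⌊Q * J⌋₊ : ℝ) ≤ Q * J := Nat.floor_le hQJ0
  have hQf' : Q * J - 1 ≤ (⌊Q * J⌋₊ : ℝ) := by
    have := Nat.lt_floor_add_one (Q * (J : ℝ))
    linarith
  have hQJ : ⌊Q * J⌋₊ ≤ J := by
    refine Nat.floor_le_of_le ?_
    calc Q * J ≤ 1 * J := mul_le_mul_of_nonneg_right (by linarith) hJ0
      _ = J := one_mul _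
  refine ⟨B, fun ω hω => hB₁A ω (hBB ω hω), ?_, ?_⟩
  · calc c₂ * c₁ * Pe F.p A = c₂ * (c₁ * Pe F.p A) := by ring
      _ ≤ c₂ * Pe F.p B₁ := mul_le_mul_of_nonneg_left hPB₁ hc₂.le
      _ ≤ _ := hPB
  rcases le_or_gt (s + 2 * h) ((1 - Q) * Real.log 2) with hsm | hsm
  · left
    have hRU : R / 2 ^ J ≤ 1 / 2 ^ ⌊u * J⌋₊ := by
      rw [div_le_div_iff₀ (by positivity) (by positivity), one_mul, two_pow_exp, two_pow_exp]
      have e1 : (⌊u * J⌋₊ : ℝ) ≤ u * J := Nat.floor_le (by positivity)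
      have e2 : Real.exp ((⌊u * J⌋₊ : ℝ) * Real.log 2) ≤ Real.exp (u * J * Real.log 2) :=
        Real.exp_le_exp.2 (mul_le_mul_of_nonneg_right e1 hl2.le)
      calc R * Real.exp ((⌊u * J⌋₊ : ℝ) * Real.log 2) ≤
            Real.exp ((1 - u) * Real.log 2 * J) * Real.exp (u * J * Real.log 2) :=
            mul_le_mul f3 e2 (Real.exp_pos _).le (Real.exp_pos _).le
        _ = Real.exp (J * Real.log 2) := by
            rw [← Real.exp_add]
            congr 1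
            ring
    refine lbr_of_lbp (hL.sub hBB) (Real.exp_pos ((s + h) * J)).le hRU hsup hQP ?_
    have e1 : Real.exp ((s + h) * J) ≤ Real.exp (((1 - Q) * Real.log 2 - h) * J) :=
      Real.exp_le_exp.2 (mul_le_mul_of_nonneg_right (by linarith) hJ0)
    have e2 : Real.exp (((1 - Q) * Real.log 2 - h) * J) * Real.exp (h * J) / 2 ^ J *
        2 ^ ⌊Q * J⌋₊ ≤ 1 := by
      rw [two_pow_exp, two_pow_exp, ← Real.exp_add, ← Real.exp_sub, ← Real.exp_add,
        Real.exp_le_one_iff]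
      have e3 : (⌊Q * J⌋₊ : ℝ) * Real.log 2 ≤ Q * J * Real.log 2 :=
        mul_le_mul_of_nonneg_right hQf hl2.le
      have e4 : ((1 - Q) * Real.log 2 - h) * (J : ℝ) + h * J - J * Real.log 2 =
          -(Q * J * Real.log 2) := by ring
      rw [e4]
      linarith
    have e3 : Real.exp ((s + h) * J) * ((m + 1) * (R / 2 ^ J)) * 2 ^ (⌊Q * J⌋₊ + 1) ≤ 1 := by
      have e4 : Real.exp ((s + h) * J) * ((m + 1) * (R / 2 ^ J)) * 2 ^ (⌊Q * J⌋₊ + 1) =
          Real.exp ((s + h) * J) * (2 * ((m + 1) * R)) / 2 ^ J * 2 ^ ⌊Q * J⌋₊ := by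
        rw [pow_succ]
        ring
      rw [e4]
      refine le_trans ?_ e2
      refine mul_le_mul_of_nonneg_right (div_le_div_of_nonneg_right ?_ (by positivity))
        (by positivity)
      exact mul_le_mul e1 f1 (by positivity) (Real.exp_pos _).le
    rwa [le_div_iff₀ (by positivity)]
  · right
    rcases hor with h3 | ⟨i, hi, hiκ, h3⟩
    · exfalso
      have e1 : ρ * Real.log 2 ≤ (1 - Q) * Real.log 2 :=
        mul_le_mul_of_nonneg_right (by linarith) hl2.le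
      have e2 : 0 < ρ * Real.log 2 := by positivity
      rw [hh] at h3 hsm
      linarith
    · refine ⟨i, ⟨hi, hiκ⟩, V, z, z', fun ω hω => hL.cls ω (hBB ω hω), ?_⟩
      refine (h3 ⌊Q * J⌋₊ hQJ).trans ?_
      have e1 : min P ⌊Q * J⌋₊ = ⌊Q * J⌋₊ := min_eq_right (by omega)
      rw [e1]
      have e2 : max (((J : ℝ) - ⌊Q * J⌋₊) * Real.log 2 - s * J) 0 ≤ 3 * h * J := by
        refine max_le ?_ (by positivity)
        have e3 : ((J : ℝ) - ⌊Q * J⌋₊) * Real.log 2 ≤ ((1 - Q) * J + 1) * Real.log 2 := by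
          refine mul_le_mul_of_nonneg_right ?_ hl2.le
          linarith
        have e4 := mul_le_mul_of_nonneg_right hsm.le hJ0
        have e5 : ((1 - Q) * (J : ℝ) + 1) * Real.log 2 = (1 - Q) * Real.log 2 * J + Real.log 2 := by
          ring
        have e6 : (s + 2 * h) * (J : ℝ) = s * J + 2 * h * J := by ring
        linarith
      have e3 : ρ / 2 * Real.log 2 * J = 8 * h * J := by
        rw [hh]
        ring
      rw [e3]
      have e4 : 0 ≤ h * J := by positivity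
      linarith

/-! ### The proof of `RT n` -/

/-- The other coordinates. -/
def oc (hn : 2 ≤ n) (j : Fin (n - 1)) : Fin n := ⟨j, by omega⟩

theorem oc_inj (hn : 2 ≤ n) : Function.Injective (oc hn) := by
  intro a b h
  unfold oc at h
  exact Fin.ext (by simpa using congrArg Fin.val h)

theorem image_oc (hn : 2 ≤ n) (σ : Equiv.Perm (Fin (n - 1))) :
    univ.image (oc hn ∘ σ) = univ.erase (lst hn) := by
  ext x
  simp only [mem_image, mem_univ, true_and, Function.comp_apply, mem_erase, and_true]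
  constructor
  · rintro ⟨j, rfl⟩ h
    have h1 := congrArg Fin.val h
    have h2 := (σ j).2
    unfold oc lst at h1
    simp only at h1
    omega
  · intro h
    have h1 : (x : ℕ) < n - 1 := by
      have h2 := x.2
      by_contra h3
      refine h (Fin.ext ?_)
      unfold lst
      simp only
      omega
    refine ⟨σ.symm ⟨x, h1⟩, ?_⟩
    rw [Equiv.apply_symm_apply]
    rfl

/-- The rate of the rows of the class. -/
theorem rate_le {S : PCl n} (hS : S.Ne) {k : Fin n} {r : ℝ → ℝ} (hr : RateOf S k r)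
    (hpos : Bas S (fun _ F A => 0 < Pe F.p A)) {Q ρ : ℝ} (hQ0 : 0 ≤ Q) (hQ1 : Q ≤ 1)
    (h : Bas S (fun J F A => rowH F A k (univ.erase k) ⌊Q * J⌋₊ (fun _ => ()) ≤
      (1 - Q - ρ) * Real.log 2 * J)) : r 1 - r Q ≤ 1 - Q - ρ := by
  by_contra hcon
  push Not at hcon
  have hl2 : 0 < Real.log 2 := Real.log_pos one_lt_two
  obtain ⟨x, hx⟩ : ∃ x : ℝ, x = ((r 1 - r Q) - (1 - Q - ρ)) * Real.log 2 / 2 := ⟨_, rfl⟩
  have hx0 : 0 < x := by
    rw [hx]
    have : 0 < (r 1 - r Q) - (1 - Q - ρ) := by linarith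
    positivity
  refine bas_no hS (((row_rate hr hpos hQ0 hQ1 hx0).and h).mono 1 ?_)
  rintro J hJ F A ⟨h1, h2⟩
  have hJ0 : (0 : ℝ) < J := by exact_mod_cast hJ
  rw [abs_le] at h1
  have h3 : (r 1 - r Q) * Real.log 2 * J = (1 - Q - ρ) * Real.log 2 * J + 2 * x * J := by
    rw [hx]
    ring
  have h4 : 0 < x * J := by positivity
  linarith [h1.1]

/-- **The rows of a class**, `0 < Q`. -/
theorem rt_pos (hn : 2 ≤ n) (hR : RowN n) (hZ : ∀ k, 1 ≤ k → k < n → FZX k)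
    (hW : 3 ≤ n → RW (n - 1)) {al : ℝ} {g₀ : ℝ → ℝ} (hal : 0 < al)
    (hg₀ : ∀ ε : ℝ, 0 < ε → 0 < g₀ ε) {N : ℚ → ℚ → ℝ} (hN : ActM N al g₀) {R Q d ρ : ℝ}
    (hR0 : 0 ≤ R) (hQ0 : 0 < Q) (hd : 0 < d) (hρ : 0 < ρ) (hQρ : Q + ρ ≤ 1) {S : PCl n}
    (hB : ClB N S)
    (hno : ∀ K : ℕ, Bas S (fun J F A =>
      ¬ LbR R F (univ.erase (lst hn)) (lst hn) K ⌊d * J⌋₊ ⌊Q * J⌋₊ A))
    (hrow : Bas S (fun J F A => rowH F A (lst hn) (univ.erase (lst hn)) ⌊Q * J⌋₊ (fun _ => ()) ≤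
      (1 - Q - ρ) * Real.log 2 * J)) : False := by
  classical
  have hl2 : 0 < Real.log 2 := Real.log_pos one_lt_two
  obtain ⟨S₁, P, r, h1, h2, h3, h4⟩ := numx (hasThr_tgs (lst hn)) (hB.clx hN)
  obtain ⟨S₂, L, h5, h6, hL⟩ := lamw S₁ h1.ne
  have hC := h1.sub h5 h6
  have htm := Pool.GEN.N83.clx_tmc hC
  have hpos : Bas S₂ (fun _ F A => 0 < Pe F.p A) :=
    ⟨1, one_pos, 0, fun J _ F A hA => hC.pos 1 J F A hA⟩
  have hsub : ∀ (τ : ℝ) (J : ℕ) (F : Fam n J) (A : F.Ω → Prop), S₂.St τ J F A →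
      S.St τ J F A := fun τ J F A hA => h2 τ J F A (h6 τ J F A hA)
  have hT := h3.sub h6
  have hr := (h4 (lst hn)).sub h6
  have hno' : ∀ K : ℕ, Bas S₂ (fun J F A =>
      ¬ LbR R F (univ.erase (lst hn)) (lst hn) K ⌊d * J⌋₊ ⌊Q * J⌋₊ A) :=
    fun K => Bas.sub hsub (hno K)
  have hrow' := Bas.sub hsub hrow
  have hrate := rate_le hC.ne hr hpos hQ0.le (by linarith) hrow'
  -- the thresholds are above `Q`
  have hPw : ∀ w : ℝ, 0 < w → w ≤ 1 → Q + ρ / 2 < P () w w := by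
    intro w hw0 hw1
    by_contra hcon
    push Not at hcon
    have a1 := hR hn hZ al g₀ (fun _ => 0) (fun _ => 1) hal hg₀
      ⟨fun _ _ _ => le_rfl, fun _ => le_rfl, fun _ => zero_le_one, fun _ _ => rfl,
        fun _ => one_pos⟩ 2 0 N S₂ two_pos hC (P ()) (r (lst hn)) hT hr w hw0 hw1
    rcases le_or_gt Q (P () w w) with a2 | a2
    · have a3 := hr.mono a2
      linarith
    · have a3 : |r (lst hn) Q - r (lst hn) (P () w w)| ≤ |Q - P () w w| := by
        have := hr.lip.dist_le_mul Q (P () w w)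
        rw [NNReal.coe_one, one_mul, Real.dist_eq, Real.dist_eq] at this
        exact this
      rw [abs_of_pos (by linarith : 0 < Q - P () w w)] at a3
      have a4 := (abs_le.1 a3).2
      linarith
  -- the window
  have hact : ActB N S₂ (⟨0, by omega⟩ : Fin n) := hC.actb _ rfl
  obtain ⟨κ, hκ⟩ : ∃ κ : Fin (n - 1), κ = ⟨0, by omega⟩ := ⟨_, rfl⟩
  have hoκ : oc hn κ = ⟨0, by omega⟩ := by
    rw [hκ]
    rfl
  obtain ⟨D, hD, hcov⟩ := wv_cover hL (φ := oc hn) (κ := κ) (fun w hw0 hw1 => by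
    rw [hoκ]
    exact hL.act hC.ne hal (hN.q hg₀) hact hpos hw0 hw1)
  obtain ⟨w₀, hw₀⟩ : ∃ w₀ : ℝ, w₀ = min (d / 2) (min Q (ρ / 16)) := ⟨_, rfl⟩
  have hw₀0 : 0 < w₀ := by
    rw [hw₀]
    exact lt_min (by linarith) (lt_min hQ0 (by linarith))
  obtain ⟨w, hwD, hw0, hww₀⟩ := (hD.dense_compl ℝ).exists_between hw₀0
  have hwd : w ≤ d / 2 := hww₀.le.trans (by rw [hw₀]; exact min_le_left _ _)
  have hwQ : w ≤ Q := hww₀.le.trans (by
    rw [hw₀]
    exact (min_le_right _ _).trans (min_le_left _ _))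
  have hwρ : w ≤ ρ / 16 := hww₀.le.trans (by
    rw [hw₀]
    exact (min_le_right _ _).trans (min_le_right _ _))
  have hw1 : w < 1 := by linarith
  obtain ⟨σ, ⟨-, -, hg, hc⟩, hσ⟩ := hcov w hw0 hw1 hwD
  obtain ⟨ε, hε⟩ : ∃ ε : Fin (n - 1) → Fin n, ε = oc hn ∘ σ := ⟨_, rfl⟩
  rw [← hε] at hg hc
  have hεi : Function.Injective ε := by
    rw [hε]
    exact (oc_inj hn).comp σ.injective
  have hε0 : ∀ j : Fin (n - 1), (j : ℕ) = 0 → ε j = ⟨0, by omega⟩ := by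
    intro j hj
    rw [hε, Function.comp_apply, hσ j hj, hoκ]
  have himg : univ.image ε = univ.erase (lst hn) := by
    rw [hε]
    exact image_oc hn σ
  have hexa : ∀ ρ' : ℝ, 0 < ρ' → Bas S₂ (fun J F A => ∀ (V : Type) (z : PtT F → V)
      (z' : LnT F → V), (∀ ω, A ω → z (ptr F J ω) = z' (slam F ⌊w * J⌋₊ ω)) →
      ((∑ j : Fin (n - 1), (1 - vs L ε w (j + 1))) - ρ') * Real.log 2 * J ≤
        CH (Pool.Agent.H49.Ent.cond F.p A True)
        (fun ω j => F.X J ω (ε j)) (fun ω => (z' (slam F ⌊w * J⌋₊ ω), F.W ω))) :=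
    fun ρ' hρ' => vst_exa (hZ (n - 1) (by omega) (by omega)) hC.ne (by norm_num) htm hL hal hg₀ hN
      hpos hεi (fun k hk => by rw [hε0 k hk]; exact hact) hw0 hw1 hg hc hρ'
  -- the rows over fewer coordinates
  have hRW : ∀ i : Fin n, (i ∈ univ.erase (lst hn) ∧ i ≠ ⟨0, by omega⟩) →
      Bas S₂ (fun J F A => ∀ (V : Type) (z : PtT F → V) (z' : LnT F → V),
      (∀ ω, A ω → z (ptr F J ω) = z' (slam F ⌊w * J⌋₊ ω)) →
      (1 - Q - ρ / 4) * Real.log 2 * J ≤ rowH F A (lst hn) ((univ.erase (lst hn)).erase i)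
        ⌊Q * J⌋₊ (fun ω => z' (slam F ⌊w * J⌋₊ ω))) := by
    rintro i ⟨hi, hi0⟩
    have hn3 : 3 ≤ n := by
      by_contra hn3
      have hn2 : n = 2 := by omega
      have h7 := (Finset.mem_erase.1 hi).1
      have h8 := i.2
      have h9 : (i : ℕ) ≠ 0 := fun h => hi0 (Fin.ext h)
      refine h7 (Fin.ext ?_)
      unfold lst
      simp only
      omega
    have hd' : w + min (d / 2) ((1 - w) / 2) ≤ d := by
      have := min_le_left (d / 2) ((1 - w) / 2)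
      linarith
    refine hW hn3 al g₀ hal hg₀ N hN n 6 S₂ (by norm_num) htm ((univ.erase (lst hn)).erase i)
      (lst hn) ⟨0, by omega⟩ (fun h => ?_) (Finset.mem_erase.2 ⟨hi0.symm, Finset.mem_erase.2
        ⟨fun h => ?_, Finset.mem_univ _⟩⟩) ?_ hact R w Q (min (d / 2) ((1 - w) / 2)) (ρ / 4) hR0
      hw0 hwQ (by linarith) (lt_min (by linarith) (by linarith)) ?_ (by linarith) (fun K => ?_)
    · exact (Finset.mem_erase.1 (Finset.mem_erase.1 h).2).1 rfl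
    · have := congrArg Fin.val h
      unfold lst at this
      simp only at this
      omega
    · rw [Finset.card_erase_of_mem hi, Finset.card_erase_of_mem (Finset.mem_univ _),
        Finset.card_univ, Fintype.card_fin]
      omega
    · have := min_le_right (d / 2) ((1 - w) / 2)
      linarith
    · refine (hno' K).mono 0 fun J _ F A h7 h8 => h7 ?_
      have hJ0 : (0 : ℝ) ≤ J := Nat.cast_nonneg J
      exact (h8.win' (Nat.floor_le_floor (mul_le_mul_of_nonneg_right hd' hJ0))).wk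
        (Finset.erase_subset _ _) le_rfl le_rfl
  -- the last number
  obtain ⟨j₀, hj₀⟩ : ∃ j₀ : Fin (n - 1), j₀ = ⟨n - 2, by omega⟩ := ⟨_, rfl⟩
  have hj₀v : (j₀ : ℕ) = n - 2 := by rw [hj₀]
  have hmono : Monotone (vs L ε w) := hg.mono hL hw1.le
  have htop : ∀ j : Fin (n - 1), vs L ε w (j + 1) ≤ vs L ε w (j₀ + 1) := by
    intro j
    refine hmono ?_
    have := j.2
    omega
  rcases le_or_gt (vs L ε w (j₀ + 1)) (1 - ρ / 8) with htp | htp
  · -- the coordinates are full in small cells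
    have full : Ful S₂ (univ.erase (lst hn)) w (1 - ρ / 16) := by
      rw [← himg]
      refine full_cls (fun τ J F A _ hA => hC.pos τ J F A hA) (s := fun j => vs L ε w (j + 1))
        (r := fun j => vs L ε w j) (by linarith) (fun j => ?_) (fun j => ?_) hexa
        (fun e he => ?_)
      · exact (htop j).trans (by linarith)
      · exact ((hmono (Nat.le_succ _)).trans (htop j)).trans (by linarith)
      · obtain ⟨K, hK⟩ := vst_att hL hw0 hw1 hg hc he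
        exact ⟨K, fun j => hK j j le_rfl⟩
    obtain ⟨K₁, hK₁⟩ := hT.att () w w (ρ / 8) hw0 le_rfl hw1.le (by positivity)
      (by linarith [hPw w hw0 hw1.le])
    obtain ⟨c', hc', hlb⟩ := lbp_of_tch n K₁
    have hc'0 : (0 : ℝ) < c' := by exact_mod_cast hc'
    obtain ⟨J₁, hJ₁⟩ := exists_nat_ge ((c' + 3) / (ρ / 4))
    have hlab : Bas S₂ (fun J F A => ∃ B : F.Ω → Prop, Sub B A ∧
        1 / (c' : ℝ) * Pe F.p A ≤ Pe F.p B ∧
        ∃ (P : ℕ) (V : Type) (z : PtT F → V) (z' : LnT F → V)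
          (G : V → MvPolynomial (Option (Fin n)) ℝ), ⌊w * J⌋₊ ≤ P ∧ ⌊Q * J⌋₊ + 1 ≤ P ∧
          LbP F (univ.erase (lst hn)) (lst hn) c' J ⌊w * J⌋₊ P B z z' G) := by
      refine hK₁.mono J₁ ?_
      rintro J hJ F A ⟨l, hl1, hl2', hl3⟩
      have hJ0 : (0 : ℝ) ≤ J := Nat.cast_nonneg J
      have f1 : (c' : ℝ) + 3 ≤ ρ / 4 * J := by
        have e1 : (J₁ : ℝ) ≤ J := by exact_mod_cast hJ
        have e2 := hJ₁.trans e1
        rw [div_le_iff₀ (by positivity)] at e2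
        linarith
      have a1 : (⌊w * J⌋₊ : ℝ) ≤ w * J := Nat.floor_le (by positivity)
      have a2 : (P () w w - ρ / 8) * J < (⌊(P () w w - ρ / 8) * J⌋₊ : ℝ) + 1 :=
        Nat.lt_floor_add_one _
      have a3 : (⌊Q * J⌋₊ : ℝ) ≤ Q * J := Nat.floor_le (by positivity)
      have a4 : (Q + ρ / 2 - ρ / 8) * (J : ℝ) ≤ (P () w w - ρ / 8) * J :=
        mul_le_mul_of_nonneg_right (by linarith [hPw w hw0 hw1.le]) hJ0
      have a5 : w * (J : ℝ) ≤ ρ / 16 * J := mul_le_mul_of_nonneg_right hwρ hJ0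
      have a6 : (Q + ρ / 2 - ρ / 8) * (J : ℝ) = Q * J + ρ / 4 * J + 2 * (ρ / 16 * J) := by ring
      have a7 : 0 ≤ ρ / 16 * (J : ℝ) := by positivity
      have b1 : ⌊w * J⌋₊ + c' + (⌊Q * J⌋₊ + 1) ≤ ⌊(P () w w - ρ / 8) * J⌋₊ := by
        have : ((⌊w * J⌋₊ + c' + (⌊Q * J⌋₊ + 1) : ℕ) : ℝ) ≤
            (⌊(P () w w - ρ / 8) * J⌋₊ : ℝ) := by
          push_cast
          linarith
        exact_mod_cast this
      have b2 : ⌊w * J⌋₊ ≤ J := by
        refine Nat.floor_le_of_le ?_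
        calc w * J ≤ 1 * J := mul_le_mul_of_nonneg_right hw1.le hJ0
          _ = J := one_mul _
      have b3 : ⌊w * J⌋₊ ≤ ⌊Q * J⌋₊ := Nat.floor_le_floor (mul_le_mul_of_nonneg_right hwQ hJ0)
      obtain ⟨V, z, z', G, B, hBA, hPB, hG⟩ := hlb J F (lst hn) l ⌊w * J⌋₊ ⌊w * J⌋₊ _ A hl1 hl2'
        b2 hl3 (by omega)
      refine ⟨B, hBA, ?_, _, V, z, z', G, ?_, ?_, hG⟩
      · rw [one_div, inv_mul_le_iff₀ hc'0]
        exact hPB
      · omega
      · omega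
    obtain ⟨c, hc0, hst⟩ := steep_alt (by norm_num) htm
      (fun τ J F A hA => (hC.mem τ J F A hA).2.2.2.2.1) hal (hN.q hg₀) hact
      (univ.erase (lst hn)) (lst hn) hw0.le (u := 1 - ρ / 16) (by linarith) (by linarith) full c'
      hR0 hQ0.le hρ hQρ (by positivity : 0 < 1 / (c' : ℝ)) hlab
    refine drop_contr hC.ne hpos (I := univ.erase (lst hn)) (k := lst hn)
      (fun i => i ∈ univ.erase (lst hn) ∧ i ≠ ⟨0, by omega⟩) hρ hc0
      (fun J F A => LbR R F (univ.erase (lst hn)) (lst hn) c' ⌊w * J⌋₊ ⌊Q * J⌋₊ A)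
      ((hno' c').mono 0 fun J _ F A h7 h8 => h7 (h8.win' ?_)) hrow' hRW hst
    exact Nat.floor_le_floor (mul_le_mul_of_nonneg_right (by linarith) (Nat.cast_nonneg J))
  · -- the last coordinate is determined
    have hj₀0 : (j₀ : ℕ) ≠ 0 := by
      intro h0
      have a1 := vs_succ L ε w j₀
      unfold vn at a1
      have a2 : (Finset.Iio j₀).image ε = ∅ := by
        rw [Finset.image_eq_empty]
        ext x
        simp only [Finset.mem_Iio, Finset.notMem_empty, iff_false, not_lt, Fin.le_def]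
        omega
      have a3 : vs L ε w j₀ = w := by
        rw [h0]
        rfl
      rw [a2, a3, hε0 j₀ h0] at a1
      rw [hL.act hC.ne hal (hN.q hg₀) hact hpos hw0.le hw1] at a1
      linarith
    obtain ⟨K, hK⟩ := vst_att hL hw0 hw1 hg hc (show (0 : ℝ) < ρ / 16 by positivity)
    have hy0 : ε j₀ ≠ ⟨0, by omega⟩ := by
      intro h7
      have h8 := hε0 ⟨0, by omega⟩ rfl
      have h9 := hεi (h7.trans h8.symm)
      rw [h9] at hj₀0
      exact hj₀0 rfl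
    have hyI : ε j₀ ∈ univ.erase (lst hn) := by
      rw [← himg]
      exact mem_image_of_mem _ (mem_univ _)
    have htc := top_ch hpos (I := univ.erase (lst hn)) (k := lst hn) (Q := Q)
      (I' := (Finset.Iio j₀).image ε) (y := ε j₀) (β := ρ / 2 * Real.log 2) (fun x hx => by
        obtain ⟨l, hl, rfl⟩ := Finset.mem_image.1 hx
        refine Finset.mem_erase.2 ⟨fun h7 => ?_, ?_⟩
        · exact (Finset.mem_Iio.1 hl).ne (hεi h7)
        · rw [← himg]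
          exact mem_image_of_mem _ (mem_univ _)) (by positivity : 0 ≤ ρ / 16)
      (by linarith [vs_le1 hL ε hw1.le (j₀ + 1)] : vs L ε w (j₀ + 1) - ρ / 16 ≤ 1)
      (min_le_right _ _) (by
        refine mul_lt_mul_of_pos_right ?_ hl2
        linarith) (hK j₀ j₀ le_rfl)
    refine drop_contr hC.ne hpos (I := univ.erase (lst hn)) (k := lst hn)
      (fun i => i ∈ univ.erase (lst hn) ∧ i ≠ ⟨0, by omega⟩) hρ one_pos
      (fun _ _ _ => False) ⟨1, one_pos, 0, fun _ _ _ _ _ h => h⟩ hrow' hRW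
      (htc.mono 0 fun J _ F A h7 => ⟨A, fun _ h => h, by rw [one_mul], Or.inr ⟨ε j₀,
        ⟨hyI, hy0⟩, h7⟩⟩)

/-- **`RT n`** from the rows above the thresholds and the rows over fewer coordinates. -/
theorem rt_of (hR : RowN n) (hZ : ∀ k, 1 ≤ k → k < n → FZX k) (hW : 3 ≤ n → RW (n - 1)) :
    RT n := by
  intro hn al g₀ hal hg₀ N hN R Q d ρ hR0 hQ0 hQ1 hd hρ S hB hno hrow
  have hl2 : 0 < Real.log 2 := Real.log_pos one_lt_two
  have hpos : Bas S (fun _ F A => 0 < Pe F.p A) :=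
    ⟨1, one_pos, 0, fun J _ F A hA => (hB.clx hN).pos 1 J F A hA⟩
  rcases le_or_gt (Q + ρ) 1 with h1 | h1
  · rcases le_or_gt (ρ / 2) Q with h2 | h2
    · exact rt_pos hn hR hZ hW hal hg₀ hN hR0 (by linarith) hd hρ h1 hB hno hrow
    · -- a small `Q`
      refine rt_pos hn hR hZ hW hal hg₀ hN hR0 (Q := ρ / 2) (ρ := ρ / 2) (by linarith) hd
        (by linarith) (by linarith) hB (fun K => (hno K).mono 0 fun J _ F A h3 h4 => h3
          (h4.wk (Finset.Subset.refl _) le_rfl (Nat.floor_le_floor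
            (mul_le_mul_of_nonneg_right h2.le (Nat.cast_nonneg J))))) ?_
      refine (hrow.and hpos).mono 0 ?_
      rintro J - F A ⟨h3, h4⟩
      have hJ0 : (0 : ℝ) ≤ J := Nat.cast_nonneg J
      refine ((rowH_anti h4 _ (Nat.floor_le_floor (mul_le_mul_of_nonneg_right h2.le hJ0)) _).trans
        h3).trans ?_
      refine mul_le_mul_of_nonneg_right (mul_le_mul_of_nonneg_right (by linarith) hl2.le) hJ0
  · refine bas_no hB.ne ((hrow.and hpos).mono 1 ?_)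
    rintro J hJ F A ⟨h3, h4⟩
    have hJ0 : (0 : ℝ) < J := by exact_mod_cast hJ
    have h5 := rowH_nonneg h4 (I := univ.erase (lst hn)) (lst hn) ⌊Q * J⌋₊ (fun _ => ())
    have h6 : 0 < (Q + ρ - 1) * Real.log 2 * J := by
      have : 0 < Q + ρ - 1 := by linarith
      positivity
    have h7 : (1 - Q - ρ) * Real.log 2 * J = -((Q + ρ - 1) * Real.log 2 * J) := by ring
    linarith

end Pool.TOP
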