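import Pool.Agent.H27.TOP.Uni

/-!
# The square of the gradient

`gsq G`: the sum of the squares of the partial derivatives. The lemmas on the steepest direction.
-/

set_option autoImplicit false

namespace Pool.TOP

open Finset Real MvPolynomial
open Pool.Agent.H49.Ent Pool.Agent.H32.Dense Pool.STK Pool.KA Pool.KSAT Pool.K2S Pool.PB Pool.S6C
open Pool.GEN Pool.ONE
open Pool.GRD (LbP)

variable {m n J : ℕ}

/-- The derivatives depend on the same variables. -/
theorem pderiv_onT {σ : Type} [Fintype σ] [DecidableEq σ] (P : MvPolynomial σ ℝ) (T : σ → Prop)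
    (h : ∀ b b' : σ → ℝ, (∀ j, T j → b j = b' j) → eval b P = eval b' P) (o : σ)
    {b b' : σ → ℝ} (hb : ∀ j, T j → b j = b' j) :
    eval b (pderiv o P) = eval b' (pderiv o P) := by
  classical
  by_cases hT : T o
  · obtain ⟨g, hg⟩ : ∃ g : (σ → ℝ) → σ → Polynomial ℝ, g = fun c j =>
        if j = o then Polynomial.X else Polynomial.C (c j) := ⟨_, rfl⟩
    have hge : ∀ (c : σ → ℝ) (Q : MvPolynomial σ ℝ) (t : ℝ), (MvPolynomial.aeval (g c) Q).eval t =
        MvPolynomial.eval (Function.update c o t) Q := by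
      intro c Q t
      rw [Pool.KBX.eval_aeval_poly]
      congr 1
      congr 1
      funext j
      rw [hg]
      by_cases hj : j = o
      · subst hj
        simp
      · simp [hj]
    have hder : ∀ c : σ → ℝ, Polynomial.derivative (MvPolynomial.aeval (g c) P) =
        MvPolynomial.aeval (g c) (pderiv o P) := by
      intro c
      rw [der_aevalσ, Finset.sum_eq_single o]
      · have h2 : Polynomial.derivative (g c o) = 1 := by
          rw [hg]
          simp
        rw [h2, mul_one]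
      · intro j _ hj
        have h2 : Polynomial.derivative (g c j) = 0 := by
          rw [hg]
          simp [hj]
        rw [h2, mul_zero]
      · intro hk
        exact absurd (Finset.mem_univ o) hk
    have h1 : MvPolynomial.aeval (g b) P = MvPolynomial.aeval (g b') P := by
      refine Polynomial.funext fun t => ?_
      rw [hge, hge]
      refine h _ _ fun j hj => ?_
      by_cases hjo : j = o
      · subst hjo
        rw [Function.update_self, Function.update_self]
      · rw [Function.update_of_ne hjo, Function.update_of_ne hjo, hb j hj]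
    have h2 := congrArg (Polynomial.eval (b o)) (congrArg Polynomial.derivative h1)
    rw [hder, hder, hge, hge, Function.update_eq_self, hb o hT, Function.update_eq_self] at h2
    exact h2
  · rw [pderiv_dep P o (fun c c' hc => h c c' fun j hj => hc j fun he => hT (he ▸ hj)),
      pderiv_dep P o (fun c c' hc => h c c' fun j hj => hc j fun he => hT (he ▸ hj))]

/-- The square of the gradient. -/
noncomputable def gsq (G : MvPolynomial (Option (Fin m)) ℝ) : MvPolynomial (Option (Fin m)) ℝ :=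
  ∑ o, (pderiv o G) ^ 2

theorem gsq_eval (G : MvPolynomial (Option (Fin m)) ℝ) (b : Option (Fin m) → ℝ) :
    eval b (gsq G) = ∑ o, (eval b (pderiv o G)) ^ 2 := by
  unfold gsq
  rw [map_sum]
  exact Finset.sum_congr rfl fun o _ => map_pow _ _ _

theorem gsq_deg {G : MvPolynomial (Option (Fin m)) ℝ} {K : ℕ} (h : G.totalDegree ≤ K) :
    (gsq G).totalDegree ≤ 2 * K := by
  unfold gsq
  refine totalDegree_finsetSum_le fun o _ => ?_
  refine (totalDegree_pow _ _).trans (Nat.mul_le_mul_left 2 ?_)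
  exact totalDegree_pdσ h o

theorem gsq_nonneg (G : MvPolynomial (Option (Fin m)) ℝ) (b : Option (Fin m) → ℝ) :
    0 ≤ eval b (gsq G) := by
  rw [gsq_eval]
  exact Finset.sum_nonneg fun o _ => sq_nonneg _

theorem le_gsq (G : MvPolynomial (Option (Fin m)) ℝ) (b : Option (Fin m) → ℝ)
    (o : Option (Fin m)) : (eval b (pderiv o G)) ^ 2 ≤ eval b (gsq G) := by
  rw [gsq_eval]
  exact Finset.single_le_sum (f := fun o => (eval b (pderiv o G)) ^ 2) (fun o _ => sq_nonneg _)
    (Finset.mem_univ o)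

theorem abs_le_of_gsq {G : MvPolynomial (Option (Fin m)) ℝ} {b : Option (Fin m) → ℝ} {s : ℝ}
    (hs : 0 ≤ s) (h : eval b (gsq G) ≤ s ^ 2) (o : Option (Fin m)) :
    |eval b (pderiv o G)| ≤ s := by
  have h1 := (le_gsq G b o).trans h
  exact abs_le_of_sq_le_sq h1 hs

/-- Dependence on the time and the coordinates in `I`, for the derivatives. -/
theorem pd_on {G : MvPolynomial (Option (Fin m)) ℝ} {I : Finset (Fin m)}
    (h : ∀ b b' : Option (Fin m) → ℝ, b none = b' none →
      (∀ i ∈ I, b (some i) = b' (some i)) → eval b G = eval b' G) (o : Option (Fin m))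
    {b b' : Option (Fin m) → ℝ} (h0 : b none = b' none) (h1 : ∀ i ∈ I, b (some i) = b' (some i)) :
    eval b (pderiv o G) = eval b' (pderiv o G) := by
  refine pderiv_onT G (fun o => o = none ∨ ∃ i ∈ I, o = some i) (fun c c' hc => ?_) o ?_
  · exact h c c' (hc none (Or.inl rfl)) fun i hi => hc (some i) (Or.inr ⟨i, hi, rfl⟩)
  · rintro j (rfl | ⟨i, hi, rfl⟩)
    · exact h0
    · exact h1 i hi

theorem gsq_dep {G : MvPolynomial (Option (Fin m)) ℝ} {I : Finset (Fin m)}
    (h : ∀ b b' : Option (Fin m) → ℝ, b none = b' none →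
      (∀ i ∈ I, b (some i) = b' (some i)) → eval b G = eval b' G)
    (b b' : Option (Fin m) → ℝ) (h0 : b none = b' none)
    (h1 : ∀ i ∈ I, b (some i) = b' (some i)) : eval b (gsq G) = eval b' (gsq G) := by
  rw [gsq_eval, gsq_eval]
  exact Finset.sum_congr rfl fun o _ => by rw [pd_on h o h0 h1]

theorem pd_zero {G : MvPolynomial (Option (Fin m)) ℝ} {I : Finset (Fin m)}
    (h : ∀ b b' : Option (Fin m) → ℝ, b none = b' none →
      (∀ i ∈ I, b (some i) = b' (some i)) → eval b G = eval b' G) {i : Fin m} (hi : i ∉ I)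
    (b : Option (Fin m) → ℝ) : eval b (pderiv (some i) G) = 0 := by
  refine pderiv_dep G (some i) (fun c c' hc => h c c' (hc none (by simp)) fun l hl => ?_) b
  refine hc (some l) fun he => hi ?_
  have := Option.some.inj he
  rwa [this] at hl

/-! ### The steepest direction -/

/-- If the gradient is large and all other derivatives are small, the derivative in the direction
`κ` is large. -/
theorem steep_low {g : Option (Fin m) → ℝ} {d : Fin m → ℝ} {dk x y Z : ℝ} {κ : Fin m}
    (hd : ∀ i, |d i| ≤ 1) (hdk : |dk| ≤ 1) (hx : 0 ≤ x) (hy : 0 ≤ y)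
    (hv : |dk - (g none + ∑ i, d i * g (some i))| ≤ x)
    (ho : ∀ i, i ≠ κ → |g (some i)| ≤ y) (h2 : Z ^ 2 ≤ ∑ o, (g o) ^ 2) :
    Z ≤ 2 * |g (some κ)| + 1 + x + 2 * m * y := by
  classical
  have hm : (1 : ℝ) ≤ m := by
    have := κ.2
    exact_mod_cast (by omega : 1 ≤ m)
  obtain ⟨a, ha⟩ : ∃ a, a = |g (some κ)| := ⟨_, rfl⟩
  have ha0 : 0 ≤ a := by
    rw [ha]
    exact abs_nonneg _
  have h1 : ∑ i, |d i * g (some i)| ≤ a + m * y := by
    rw [← Finset.add_sum_erase _ _ (Finset.mem_univ κ)]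
    refine add_le_add ?_ ?_
    · rw [abs_mul, ← ha]
      exact mul_le_of_le_one_left ha0 (hd κ)
    · refine (Finset.sum_le_card_nsmul _ _ y fun i hi => ?_).trans ?_
      · rw [abs_mul]
        exact (mul_le_of_le_one_left (abs_nonneg _) (hd i)).trans
          (ho i (Finset.ne_of_mem_erase hi))
      · rw [nsmul_eq_mul]
        refine mul_le_mul_of_nonneg_right ?_ hy
        have := Finset.card_le_univ (univ.erase κ : Finset (Fin m))
        rw [Fintype.card_fin] at this
        exact_mod_cast this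
  have h3 : |g none| ≤ 1 + x + (a + m * y) := by
    have e1 : |∑ i, d i * g (some i)| ≤ a + m * y := (Finset.abs_sum_le_sum_abs _ _).trans h1
    rw [abs_le] at hv hdk e1 ⊢
    constructor <;> linarith [hv.1, hv.2, hdk.1, hdk.2, e1.1, e1.2]
  have h4 : ∑ o, (g o) ^ 2 ≤ (1 + x + (a + m * y)) ^ 2 + (a ^ 2 + m * y ^ 2) := by
    rw [Fintype.sum_option]
    refine add_le_add ?_ ?_
    · rw [← sq_abs (g none)]
      exact pow_le_pow_left₀ (abs_nonneg _) h3 2
    · rw [← Finset.add_sum_erase _ _ (Finset.mem_univ κ)]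
      refine add_le_add ?_ ?_
      · rw [← sq_abs (g (some κ)), ← ha]
      · refine (Finset.sum_le_card_nsmul _ _ (y ^ 2) fun i hi => ?_).trans ?_
        · rw [← sq_abs (g (some i))]
          exact pow_le_pow_left₀ (abs_nonneg _) (ho i (Finset.ne_of_mem_erase hi)) 2
        · rw [nsmul_eq_mul]
          refine mul_le_mul_of_nonneg_right ?_ (sq_nonneg y)
          have := Finset.card_le_univ (univ.erase κ : Finset (Fin m))
          rw [Fintype.card_fin] at this
          exact_mod_cast this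
  have h5 : (1 + x + (a + m * y)) ^ 2 + (a ^ 2 + m * y ^ 2) ≤
      (2 * a + 1 + x + 2 * m * y) ^ 2 := by
    have e1 : (m : ℝ) * y ^ 2 ≤ (m * y) ^ 2 := by
      rw [mul_pow]
      refine mul_le_mul_of_nonneg_right ?_ (sq_nonneg y)
      nlinarith
    have e2 : 0 ≤ (1 + x + (a + m * y)) * (a + m * y) := by positivity
    have e3 : 0 ≤ a * (m * y) := by positivity
    nlinarith
  rw [← ha]
  exact abs_le_of_sq_le_sq' ((h2.trans h4).trans h5) (by positivity) |>.2

/-- The direction `κ` from the derivatives near the point. -/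
theorem steep_dir {g g' : Option (Fin m) → ℝ} {d : Fin m → ℝ} {dk x y v a : ℝ} {κ : Fin m}
    {q : ℕ} (hd : ∀ i, |d i| ≤ 1) (hdk : |dk| ≤ 1)
    (hv : |dk - (g none + ∑ i, d i * g (some i))| ≤ x)
    (ho : ∀ i, i ≠ κ → |g (some i)| ≤ y) (hy : 0 ≤ y) (ha : a ≤ |g (some κ)|)
    (hn : |g none - g' none| ≤ v) (hk : |g (some κ) - g' (some κ)| ≤ v)
    (hq : 2 ^ q * (x + 1 + m * y + 2 * v) ≤ a - v) (hav : 0 < a - v) :
    |2 ^ q * d κ - 2 ^ q * (-(g' none / g' (some κ)))| ≤ 1 := by
  classical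
  have h1 : |∑ i ∈ univ.erase κ, d i * g (some i)| ≤ m * y := by
    refine (Finset.abs_sum_le_sum_abs _ _).trans ?_
    refine (Finset.sum_le_card_nsmul _ _ y fun i hi => ?_).trans ?_
    · rw [abs_mul]
      exact (mul_le_of_le_one_left (abs_nonneg _) (hd i)).trans
        (ho i (Finset.ne_of_mem_erase hi))
    · rw [nsmul_eq_mul]
      refine mul_le_mul_of_nonneg_right ?_ hy
      have := Finset.card_le_univ (univ.erase κ : Finset (Fin m))
      rw [Fintype.card_fin] at this
      exact_mod_cast this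
  have h2 : ∑ i, d i * g (some i) = d κ * g (some κ) + ∑ i ∈ univ.erase κ, d i * g (some i) :=
    (Finset.add_sum_erase _ _ (Finset.mem_univ κ)).symm
  rw [h2] at hv
  have h3 : |d κ * g (some κ) + g none| ≤ x + 1 + m * y := by
    rw [abs_le] at hv hdk h1 ⊢
    constructor <;> linarith [hv.1, hv.2, hdk.1, hdk.2, h1.1, h1.2]
  have hv0 : 0 ≤ v := (abs_nonneg _).trans hn
  have h4 : |d κ * (g (some κ) - g' (some κ))| ≤ v := by
    rw [abs_mul]
    exact (mul_le_of_le_one_left (abs_nonneg _) (hd κ)).trans hk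
  have h5 : |d κ * g' (some κ) + g' none| ≤ x + 1 + m * y + 2 * v := by
    have e1 : d κ * g' (some κ) + g' none = (d κ * g (some κ) + g none) -
        d κ * (g (some κ) - g' (some κ)) - (g none - g' none) := by ring
    rw [e1]
    rw [abs_le] at h3 h4 hn ⊢
    constructor <;> linarith [h3.1, h3.2, h4.1, h4.2, hn.1, hn.2]
  have h6 : a - v ≤ |g' (some κ)| := by
    have e1 := abs_sub_abs_le_abs_sub (g (some κ)) (g' (some κ))
    linarith
  have h7 : 0 < |g' (some κ)| := lt_of_lt_of_le hav h6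
  have h8 : g' (some κ) ≠ 0 := abs_pos.1 h7
  have h9 : 2 ^ q * d κ - 2 ^ q * (-(g' none / g' (some κ))) =
      2 ^ q * (d κ * g' (some κ) + g' none) / g' (some κ) := by
    field_simp
    ring
  rw [h9, abs_div, div_le_one h7, abs_mul, abs_of_pos (by positivity : (0 : ℝ) < 2 ^ q)]
  calc (2 : ℝ) ^ q * |d κ * g' (some κ) + g' none| ≤ 2 ^ q * (x + 1 + m * y + 2 * v) :=
        mul_le_mul_of_nonneg_left h5 (by positivity)
    _ ≤ a - v := hq
    _ ≤ _ := h6

/-- The centre of the cell of the point. -/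
noncomputable def rp (J : ℕ) {ζ : Type} (c : (Fin m → ℤ) × (ℕ × ζ)) : Option (Fin m) → ℝ
  | none => (c.2.1 : ℝ) / 2 ^ J
  | some i => (c.1 i : ℝ) / 2 ^ J

theorem rp_near (F : Fam m J) (ω : F.Ω) (o : Option (Fin m)) :
    |rp J (F.X J ω, F.W ω) o - bt F ω o| ≤ 1 / 2 ^ J := by
  rcases o with - | i
  · have : rp J (F.X J ω, F.W ω) none = bt F ω none := rfl
    rw [this, sub_self, abs_zero]
    positivity
  · have e1 : rp J (F.X J ω, F.W ω) (some i) = (⌊(2 : ℝ) ^ J * F.x ω i⌋ : ℝ) / 2 ^ J := rfl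
    have e2 : bt F ω (some i) = F.x ω i := rfl
    rw [e1, e2, div_sub' (by positivity), abs_div, abs_of_pos (by positivity : (0 : ℝ) < 2 ^ J)]
    refine div_le_div_of_nonneg_right ?_ (by positivity)
    have h1 := Int.floor_le ((2 : ℝ) ^ J * F.x ω i)
    have h2 := Int.lt_floor_add_one ((2 : ℝ) ^ J * F.x ω i)
    rw [abs_le]
    constructor <;> linarith

/-- **The digits of the direction `κ`** from the point. -/
theorem dir_ch {F : Fam m J} {B : F.Ω → Prop} (hB : 0 < Pe F.p B) {κ : Fin m} {q : ℕ}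
    (M : PtT F → ℝ) (h : ∀ ω, B ω → |2 ^ q * F.d ω κ - 2 ^ q * M (ptr F J ω)| ≤ 1) :
    CH (Pool.Agent.H49.Ent.cond F.p B True) (fun ω => F.D q ω κ)
      (fun ω => (F.X J ω, F.W ω)) ≤ Real.log 9 := by
  classical
  have hl := isLaw_cond F.isLaw hB
  have hB' : ∀ ω, 0 < Pool.Agent.H49.Ent.cond F.p B True ω → B ω := by
    intro ω hω
    have := ((cond_pos_iff F.isLaw.nonneg B True ω).1 hω).2
    exact of_eq_true this
  refine (Pool.UST.CH_near_int hl (fun ω => F.D q ω κ) (fun ω => (F.X J ω, F.W ω))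
    (fun s => 2 ^ q * M s) (c := 2) fun ω hω => ?_).trans (by norm_num)
  have h3 := h ω (hB' ω hω)
  have h2 : F.D q ω κ = ⌊(2 : ℝ) ^ q * F.d ω κ⌋ := rfl
  rw [h2]
  have a1 := Int.floor_le ((2 : ℝ) ^ q * F.d ω κ)
  have a2 := Int.lt_floor_add_one ((2 : ℝ) ^ q * F.d ω κ)
  have e1 : M (ptr F J ω) = M (F.X J ω, F.W ω) := rfl
  rw [e1] at h3
  rw [abs_le] at h3 ⊢
  constructor <;> linarith [h3.1, h3.2]

/-- `exp (b J)` is large. -/
theorem exp_big (A : ℝ) {b : ℝ} (hb : 0 < b) : ∃ J₁ : ℕ, ∀ J ≥ J₁, A ≤ Real.exp (b * (J : ℕ)) := by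
  obtain ⟨J₁, h⟩ := exists_nat_ge (A / b)
  refine ⟨J₁, fun J hJ => ?_⟩
  have h1 : A / b ≤ J := h.trans (by exact_mod_cast hJ)
  rw [div_le_iff₀ hb] at h1
  have h2 := Real.add_one_le_exp (b * (J : ℝ))
  linarith

end Pool.TOP
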