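import Pool.Agent.H27.TOP.Stp

/-!
# The steepest direction of a relation

A relation: `|lam x_k - E| ≤ 2 ^ (-P)` at the own points, with a polynomial `E` in the time and the
coordinates in `I` which is attached to a closed function; `lam = 1` is a closed label of `x_k`,
`lam = 0` is a relation between the coordinates in `I`. No lower bound for `P` is assumed.
-/

set_option autoImplicit false

namespace Pool.TOP

open Finset Real MvPolynomial
open Pool.Agent.H49.Ent Pool.Agent.H32.Dense Pool.STK Pool.KA Pool.KSAT Pool.K2S Pool.PB Pool.S6C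
open Pool.GEN Pool.ONE
open Pool.GRD (LbP)
open Pool.FLF (Fam.sub)

variable {m n J : ℕ}

/-- **The velocities of a relation**, for classes. -/
theorem vel_rel {S : PCl m} {C₀ : ℝ} (hC₀ : 0 ≤ C₀) (htm : TmC S C₀) {w : ℝ} (hw0 : 0 ≤ w)
    (hw : w < 1) (k : Fin m) (K : ℕ) {δ : ℝ} (hδ : 0 < δ) :
    Bas S (fun J F A => ∀ (P : ℕ) (lam : ℝ) (E : LnT F → MvPolynomial (Option (Fin m)) ℝ),
      (∀ s, (E s).totalDegree ≤ K) →
      (∀ ω, A ω → |lam * F.x ω k - eval (bt F ω) (E (slam F ⌊w * J⌋₊ ω))| ≤ 1 / 2 ^ P) →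
      ∃ B : F.Ω → Prop, Sub B A ∧ 1 / 2 * Pe F.p A ≤ Pe F.p B ∧ ∀ ω, B ω →
        |lam * F.d ω k - ∑ o, bd F ω o * eval (bt F ω) (pderiv o (E (slam F ⌊w * J⌋₊ ω)))| ≤
          Real.exp (δ * J) * (2 ^ ⌊w * J⌋₊ / 2 ^ P)) := by
  classical
  obtain ⟨C, hC, hvel⟩ := Pool.GRD.vel_one m (K + 1)
  have hl2 : 0 < Real.log 2 := Real.log_pos one_lt_two
  have hC0 : 0 < C := by linarith
  obtain ⟨δ', hδ'⟩ : ∃ δ' : ℝ, δ' = min δ ((1 - w) * Real.log 2) := ⟨_, rfl⟩
  have hδ'0 : 0 < δ' := by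
    rw [hδ']
    exact lt_min hδ (mul_pos (by linarith) hl2)
  obtain ⟨τ, hτ⟩ : ∃ τ : ℝ, τ = δ' / (2 * C * (C₀ + 1)) := ⟨_, rfl⟩
  have hτ0 : 0 < τ := by
    rw [hτ]
    positivity
  have hτ1 : C * (C₀ * τ) ≤ δ' / 2 := by
    have e1 : C * ((C₀ + 1) * τ) = δ' / 2 := by
      rw [hτ]
      field_simp
    rw [← e1]
    refine mul_le_mul_of_nonneg_left (mul_le_mul_of_nonneg_right (by linarith) hτ0.le) hC0.le
  obtain ⟨J₁, hJ₁⟩ := exists_nat_ge (C / (δ' / 2))
  refine ⟨τ, hτ0, J₁, fun J hJ F A hA P lam E hE hpos => ?_⟩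
  have hJ0 : (0 : ℝ) ≤ J := Nat.cast_nonneg J
  have hJ1 : C ≤ δ' / 2 * J := by
    have e1 : C / (δ' / 2) ≤ J := hJ₁.trans (by exact_mod_cast hJ)
    rw [div_le_iff₀ (by positivity)] at e1
    linarith
  have hpA := tmc_pos htm hτ0 hA
  have hTm := tmc_sub htm hτ0 hA hpA
  have h1 : C * (C₀ * τ * J + 1) ≤ δ' * J := by
    have e1 := mul_le_mul_of_nonneg_right hτ1 hJ0
    have e2 : C * (C₀ * τ * J + 1) = C * (C₀ * τ) * J + C := by ring
    rw [e2]
    linarith
  have hd1 : δ' ≤ δ := by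
    rw [hδ']
    exact min_le_left _ _
  have hd2 : δ' ≤ (1 - w) * Real.log 2 := by
    rw [hδ']
    exact min_le_right _ _
  have hwJ : ⌊w * J⌋₊ ≤ J := by
    refine Nat.floor_le_of_le ?_
    nlinarith
  have hwf : ((⌊w * J⌋₊ : ℕ) : ℝ) ≤ w * J := Nat.floor_le (by positivity)
  have h2 : C * (C₀ * τ * J + 1) ≤ ((J : ℝ) - (⌊w * J⌋₊ : ℕ)) * Real.log 2 := by
    refine h1.trans ?_
    calc δ' * J ≤ (1 - w) * Real.log 2 * J := mul_le_mul_of_nonneg_right hd2 hJ0
      _ = (J - w * J) * Real.log 2 := by ring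
      _ ≤ _ := mul_le_mul_of_nonneg_right (by linarith) hl2.le
  obtain ⟨B, hBA, hPB, hB⟩ := hvel J F A hpA ⌊w * J⌋₊
    (fun s => E s + MvPolynomial.C (1 - lam) * X (some k)) k (1 / 2 ^ P) (C₀ * τ * J) hwJ
    (fun s => (totalDegree_add _ _).trans (max_le ((hE s).trans (Nat.le_succ K)) (by
      refine (totalDegree_mul _ _).trans ?_
      rw [totalDegree_C, totalDegree_X]
      omega)))
    (by positivity) (by positivity) hTm h2 (fun ω hω => by
      rw [map_add, map_mul, eval_C, eval_X]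
      have e1 : bt F ω (some k) = F.x ω k := rfl
      rw [e1]
      have e2 : F.x ω k - (eval (bt F ω) (E (slam F ⌊w * J⌋₊ ω)) + (1 - lam) * F.x ω k) =
          lam * F.x ω k - eval (bt F ω) (E (slam F ⌊w * J⌋₊ ω)) := by ring
      rw [e2]
      exact hpos ω hω)
  refine ⟨B, hBA, by linarith, fun ω hω => ?_⟩
  have h3 := hB ω hω
  have h4 : ∑ o, bd F ω o * eval (bt F ω)
      (pderiv o (E (slam F ⌊w * J⌋₊ ω) + MvPolynomial.C (1 - lam) * X (some k))) =
      ∑ o, bd F ω o * eval (bt F ω) (pderiv o (E (slam F ⌊w * J⌋₊ ω))) +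
        (1 - lam) * F.d ω k := by
    have e1 : ∀ o, bd F ω o * eval (bt F ω)
        (pderiv o (E (slam F ⌊w * J⌋₊ ω) + MvPolynomial.C (1 - lam) * X (some k))) =
        bd F ω o * eval (bt F ω) (pderiv o (E (slam F ⌊w * J⌋₊ ω))) +
          bd F ω o * ((1 - lam) * if o = some k then 1 else 0) := by
      intro o
      rw [map_add, pderiv_C_mul, pderiv_X, map_add, map_mul, eval_C, Pi.single_apply]
      by_cases ho : o = some k
      · rw [if_pos ho.symm, if_pos ho, map_one]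
        ring
      · rw [if_neg (fun h => ho h.symm), if_neg ho, map_zero]
        ring
    rw [Finset.sum_congr rfl fun o _ => e1 o, Finset.sum_add_distrib]
    congr 1
    rw [Finset.sum_eq_single (some k)]
    · rw [if_pos rfl, mul_one]
      have e2 : bd F ω (some k) = F.d ω k := rfl
      rw [e2, mul_comm]
    · intro o _ ho
      rw [if_neg ho, mul_zero, mul_zero]
    · intro h
      exact absurd (Finset.mem_univ _) h
  rw [h4] at h3
  have h5 : F.d ω k - (∑ o, bd F ω o * eval (bt F ω) (pderiv o (E (slam F ⌊w * J⌋₊ ω))) +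
      (1 - lam) * F.d ω k) =
      lam * F.d ω k - ∑ o, bd F ω o * eval (bt F ω) (pderiv o (E (slam F ⌊w * J⌋₊ ω))) := by
    ring
  rw [h5] at h3
  refine h3.trans ?_
  have e1 : Real.exp (C * (C₀ * τ * J + 1)) * 2 ^ ⌊w * J⌋₊ * (1 / 2 ^ P) =
      Real.exp (C * (C₀ * τ * J + 1)) * (2 ^ ⌊w * J⌋₊ / 2 ^ P) := by ring
  rw [e1]
  exact mul_le_mul_of_nonneg_right (Real.exp_le_exp.2
    (h1.trans (mul_le_mul_of_nonneg_right hd1 hJ0))) (by positivity)

/-- If the gradient is large and all other derivatives are small, the derivative in the direction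
`κ` is large. -/
theorem steep_lowR {g : Option (Fin m) → ℝ} {d : Fin m → ℝ} {x y Z : ℝ} {κ : Fin m}
    (hd : ∀ i, |d i| ≤ 1) (hx : 0 ≤ x) (hy : 0 ≤ y)
    (hv : |g none + ∑ i, d i * g (some i)| ≤ x)
    (ho : ∀ i, i ≠ κ → |g (some i)| ≤ y) (h2 : Z ^ 2 ≤ ∑ o, (g o) ^ 2) :
    Z ≤ 2 * |g (some κ)| + x + 2 * m * y := by
  classical
  have hm : (1 : ℝ) ≤ m := by
    have := κ.2
    exact_mod_cast (by omega : 1 ≤ m)
  obtain ⟨a, ha⟩ : ∃ a, a = |g (some κ)| := ⟨_, rfl⟩
  have ha0 : 0 ≤ a := by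
    rw [ha]
    exact abs_nonneg _
  have h1 : ∑ i, |d i * g (some i)| ≤ a + m * y := by
    rw [← Finset.add_sum_erase _ _ (Finset.mem_univ κ)]
    refine add_le_add ?_ ?_
    · rw [abs_mul, ← ha]
      exact mul_le_of_le_one_left ha0 (hd κ)
    · refine (Finset.sum_le_card_nsmul _ _ y fun i hi => ?_).trans ?_
      · rw [abs_mul]
        exact (mul_le_of_le_one_left (abs_nonneg _) (hd i)).trans
          (ho i (Finset.ne_of_mem_erase hi))
      · rw [nsmul_eq_mul]
        refine mul_le_mul_of_nonneg_right ?_ hy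
        have := Finset.card_le_univ (univ.erase κ : Finset (Fin m))
        rw [Fintype.card_fin] at this
        exact_mod_cast this
  have h3 : |g none| ≤ x + (a + m * y) := by
    have e1 : |∑ i, d i * g (some i)| ≤ a + m * y := (Finset.abs_sum_le_sum_abs _ _).trans h1
    rw [abs_le] at hv e1 ⊢
    constructor <;> linarith [hv.1, hv.2, e1.1, e1.2]
  have h4 : ∑ o, (g o) ^ 2 ≤ (x + (a + m * y)) ^ 2 + (a ^ 2 + m * y ^ 2) := by
    rw [Fintype.sum_option]
    refine add_le_add ?_ ?_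
    · rw [← sq_abs (g none)]
      exact pow_le_pow_left₀ (abs_nonneg _) h3 2
    · rw [← Finset.add_sum_erase _ _ (Finset.mem_univ κ)]
      refine add_le_add ?_ ?_
      · rw [← sq_abs (g (some κ)), ← ha]
      · refine (Finset.sum_le_card_nsmul _ _ (y ^ 2) fun i hi => ?_).trans ?_
        · rw [← sq_abs (g (some i))]
          exact pow_le_pow_left₀ (abs_nonneg _) (ho i (Finset.ne_of_mem_erase hi)) 2
        · rw [nsmul_eq_mul]
          refine mul_le_mul_of_nonneg_right ?_ (sq_nonneg y)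
          have := Finset.card_le_univ (univ.erase κ : Finset (Fin m))
          rw [Fintype.card_fin] at this
          exact_mod_cast this
  have h5 : (x + (a + m * y)) ^ 2 + (a ^ 2 + m * y ^ 2) ≤ (2 * a + x + 2 * m * y) ^ 2 := by
    have e1 : (m : ℝ) * y ^ 2 ≤ (m * y) ^ 2 := by
      rw [mul_pow]
      refine mul_le_mul_of_nonneg_right ?_ (sq_nonneg y)
      nlinarith
    have e2 : 0 ≤ (x + (a + m * y)) * (a + m * y) := by positivity
    have e3 : 0 ≤ a * (m * y) := by positivity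
    nlinarith
  rw [← ha]
  exact abs_le_of_sq_le_sq' ((h2.trans h4).trans h5) (by positivity) |>.2

/-- The direction `κ` from the derivatives near the point. -/
theorem steep_dirR {g g' : Option (Fin m) → ℝ} {d : Fin m → ℝ} {x y v a : ℝ} {κ : Fin m}
    {q : ℕ} (hd : ∀ i, |d i| ≤ 1) (hv : |g none + ∑ i, d i * g (some i)| ≤ x)
    (ho : ∀ i, i ≠ κ → |g (some i)| ≤ y) (ha : a ≤ |g (some κ)|)
    (hn : |g none - g' none| ≤ v) (hk : |g (some κ) - g' (some κ)| ≤ v)
    (hq : 2 ^ q * (x + m * y + 2 * v) ≤ a - v) (hav : 0 < a - v) (hy : 0 ≤ y) :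
    |2 ^ q * d κ - 2 ^ q * (-(g' none / g' (some κ)))| ≤ 1 := by
  classical
  have h1 : |∑ i ∈ univ.erase κ, d i * g (some i)| ≤ m * y := by
    refine (Finset.abs_sum_le_sum_abs _ _).trans ?_
    refine (Finset.sum_le_card_nsmul _ _ y fun i hi => ?_).trans ?_
    · rw [abs_mul]
      exact (mul_le_of_le_one_left (abs_nonneg _) (hd i)).trans
        (ho i (Finset.ne_of_mem_erase hi))
    · rw [nsmul_eq_mul]
      refine mul_le_mul_of_nonneg_right ?_ hy
      have := Finset.card_le_univ (univ.erase κ : Finset (Fin m))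
      rw [Fintype.card_fin] at this
      exact_mod_cast this
  have h2 : ∑ i, d i * g (some i) = d κ * g (some κ) + ∑ i ∈ univ.erase κ, d i * g (some i) :=
    (Finset.add_sum_erase _ _ (Finset.mem_univ κ)).symm
  rw [h2] at hv
  have h3 : |d κ * g (some κ) + g none| ≤ x + m * y := by
    rw [abs_le] at hv h1 ⊢
    constructor <;> linarith [hv.1, hv.2, h1.1, h1.2]
  have hv0 : 0 ≤ v := (abs_nonneg _).trans hn
  have h4 : |d κ * (g (some κ) - g' (some κ))| ≤ v := by
    rw [abs_mul]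
    exact (mul_le_of_le_one_left (abs_nonneg _) (hd κ)).trans hk
  have h5 : |d κ * g' (some κ) + g' none| ≤ x + m * y + 2 * v := by
    have e1 : d κ * g' (some κ) + g' none = (d κ * g (some κ) + g none) -
        d κ * (g (some κ) - g' (some κ)) - (g none - g' none) := by ring
    rw [e1]
    rw [abs_le] at h3 h4 hn ⊢
    constructor <;> linarith [h3.1, h3.2, h4.1, h4.2, hn.1, hn.2]
  have h6 : a - v ≤ |g' (some κ)| := by
    have e1 := abs_sub_abs_le_abs_sub (g (some κ)) (g' (some κ))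
    linarith
  have h7 : 0 < |g' (some κ)| := lt_of_lt_of_le hav h6
  have h8 : g' (some κ) ≠ 0 := abs_pos.1 h7
  have h9 : 2 ^ q * d κ - 2 ^ q * (-(g' none / g' (some κ))) =
      2 ^ q * (d κ * g' (some κ) + g' none) / g' (some κ) := by
    field_simp
    ring
  rw [h9, abs_div, div_le_one h7, abs_mul, abs_of_pos (by positivity : (0 : ℝ) < 2 ^ q)]
  calc (2 : ℝ) ^ q * |d κ * g' (some κ) + g' none| ≤ 2 ^ q * (x + m * y + 2 * v) :=
        mul_le_mul_of_nonneg_left h5 (by positivity)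
    _ ≤ a - v := hq
    _ ≤ _ := h6

end Pool.TOP
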