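import Pool.Agent.H27.TOP.Rel

/-!
# The steepest direction of a relation, for classes
-/

set_option autoImplicit false

namespace Pool.TOP

open Finset Real MvPolynomial
open Pool.Agent.H49.Ent Pool.Agent.H32.Dense Pool.STK Pool.KA Pool.KSAT Pool.K2S Pool.PB Pool.S6C
open Pool.GEN Pool.ONE
open Pool.GRD (LbP)
open Pool.FLF (Fam.sub)

variable {m n J : ℕ}

/-- **The steepest direction of a relation.** -/
theorem slopeR {S : PCl m} {C₀ : ℝ} (hC₀ : 0 ≤ C₀) (htm : TmC S C₀)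
    (hgd : ∀ (τ : ℝ) (J : ℕ) (F : Fam m J) (A : F.Ω → Prop), S.St τ J F A → Gd F)
    {N : ℚ → ℚ → ℝ} {al : ℝ} (hal : 0 < al) (hQ : ActQ N al) {κ : Fin m} (hact : ActB N S κ)
    (I : Finset (Fin m)) (k : Fin m) {w u : ℝ} (hw0 : 0 ≤ w) (hwu : w ≤ u) (hu : u < 1)
    (full : Ful S I w u) (K : ℕ) {t h : ℝ} (ht : 0 < t) (hh : 0 < h) :
    ∃ c : ℝ, 0 < c ∧ Bas S (fun J F A => ∀ (P : ℕ) (lam Λ : ℝ) (V : Type) (z : PtT F → V)
      (z' : LnT F → V) (G : V → MvPolynomial (Option (Fin m)) ℝ), |lam| ≤ 1 →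
      (∀ v, (G v).totalDegree ≤ K) →
      (∀ v, ∀ b b' : Option (Fin m) → ℝ, b none = b' none →
        (∀ i ∈ I, b (some i) = b' (some i)) → eval b (G v) = eval b' (G v)) →
      (∀ ω, A ω → z (ptr F J ω) = z' (slam F ⌊w * J⌋₊ ω)) →
      (∀ ω, A ω → |lam * F.x ω k - eval (bt F ω) (G (z' (slam F ⌊w * J⌋₊ ω)))| ≤ 1 / 2 ^ P) →
      (2 : ℝ) ^ ⌊w * J⌋₊ / 2 ^ P ≤ Real.exp Λ → |lam| ≤ Real.exp Λ →
      (0 ≤ Λ ∨ ∀ ω, A ω → 1 ≤ eval (bt F ω) (gsq (G (z' (slam F ⌊w * J⌋₊ ω))))) →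
      ∃ (s : ℝ) (B : F.Ω → Prop), 0 ≤ s ∧ s ≤ 3 ∧ Sub B A ∧ c * Pe F.p A ≤ Pe F.p B ∧
        (∀ ω, B ω → eval (bt F ω) (gsq (G (z' (slam F ⌊w * J⌋₊ ω)))) ≤ Real.exp (s * J) ^ 2) ∧
        (∀ ω, B ω → ∀ b : Option (Fin m) → ℝ,
          (∀ o, |b o - bt F ω o| ≤ 2 * (1 / 2 ^ ⌊u * J⌋₊)) →
          ∀ o, |eval b (pderiv o (G (z' (slam F ⌊w * J⌋₊ ω))))| ≤ Real.exp ((s + h) * J)) ∧
        (s * J ≤ t * J + Λ ∨ ∃ i ∈ I, i ≠ κ ∧ ∀ ω, B ω → Real.exp ((s - t) * J) ≤
          |eval (bt F ω) (pderiv (some i) (G (z' (slam F ⌊w * J⌋₊ ω))))|)) := by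
  classical
  have hl2 : 0 < Real.log 2 := Real.log_pos one_lt_two
  have hl1 : Real.log 2 ≤ 1 := by
    have := Real.log_two_lt_d9
    linarith
  have hu0 : 0 ≤ u := hw0.trans hwu
  have hw1 : w < 1 := lt_of_le_of_lt hwu hu
  -- the constants
  obtain ⟨D, hD⟩ : ∃ D : ℝ, D = min t ((1 - u) * Real.log 2) := ⟨_, rfl⟩
  have hD0 : 0 < D := by
    rw [hD]
    exact lt_min ht (mul_pos (by linarith) hl2)
  have hDt : D ≤ t := by
    rw [hD]
    exact min_le_left _ _
  have hDu : D ≤ (1 - u) * Real.log 2 := by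
    rw [hD]
    exact min_le_right _ _
  obtain ⟨δ, hδ⟩ : ∃ δ : ℝ, δ = min (min h 1) (D / 8) := ⟨_, rfl⟩
  have hδ0 : 0 < δ := by
    rw [hδ]
    exact lt_min (lt_min hh one_pos) (by positivity)
  have hδh : δ ≤ h := by
    rw [hδ]
    exact (min_le_left _ _).trans (min_le_left _ _)
  have hδ1 : δ ≤ 1 := by
    rw [hδ]
    exact (min_le_left _ _).trans (min_le_right _ _)
  have hδD : δ ≤ D / 8 := by
    rw [hδ]
    exact min_le_right _ _
  obtain ⟨t₁, ht₁⟩ : ∃ t₁ : ℝ, t₁ = D / 4 := ⟨_, rfl⟩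
  have ht₁0 : 0 < t₁ := by
    rw [ht₁]
    positivity
  obtain ⟨ca, hca, hact1⟩ := act_dir hal hQ hact
    ⟨1, one_pos, 0, fun J _ F A hA => tmc_pos htm one_pos hA⟩ ht₁0
  obtain ⟨Cv, hCv, hvar⟩ := var_pd m K
  obtain ⟨Cm, hCm, hmk⟩ := Pool.GRD.dir_markov (m := m) K
  obtain ⟨M, hMe⟩ : ∃ M : ℕ, M = ⌈2 / δ⌉₊ := ⟨_, rfl⟩
  have hM : 2 / δ ≤ M := by
    rw [hMe]
    exact Nat.le_ceil _
  have hM2 : (M : ℝ) * δ ≤ 3 := by
    have h1 : (M : ℝ) < 2 / δ + 1 := by
      rw [hMe]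
      exact Nat.ceil_lt_add_one (by positivity)
    have h2 : (M : ℝ) * δ < (2 / δ + 1) * δ := mul_lt_mul_of_pos_right h1 hδ0
    have h3 : (2 / δ + 1) * δ = 2 + δ := by
      field_simp
    linarith
  have hM0 : (0 : ℝ) ≤ M := Nat.cast_nonneg M
  -- the class facts
  have hb1 := vel_rel hC₀ htm hw0 hw1 k K hδ0
  have hb2 := bas_ev (uni_cls hC₀ htm I hwu hu0 hu full K hδ0 (η := 1 / 2) (by norm_num)
    (by norm_num)) (η' := 1 / 2) (by norm_num)
  have hb3 := bas_ev (uni_cls hC₀ htm I hwu hu0 hu full (2 * K) hδ0 (η := 1 / 2) (by norm_num)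
    (by norm_num)) (η' := 1 / (4 * (M + 1))) (by positivity)
  have hb4 := bas_ev hact1 (η' := 1 / (8 * (M + 1) * (m + 1))) (by positivity)
  have hb5 : Bas S (fun _ F A => 0 < Pe F.p A ∧ Gd F) :=
    ⟨1, one_pos, 0, fun J _ F A hA => ⟨tmc_pos htm one_pos hA, hgd 1 J F A hA⟩⟩
  obtain ⟨J₁, hJ₁⟩ := exp_big (4 * (2 * (m : ℝ) + 3 * (6 * Cv) + 8)) (b := D / 2) (by positivity)
  obtain ⟨J₂, hJ₂⟩ := exp_big ((m + 1) * (Cm * 3) ^ 2) (b := 2 * (1 - δ)) (by
    have : δ ≤ D / 8 := hδD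
    have h2 : D ≤ (1 - u) * Real.log 2 := hDu
    have h3 : (1 - u) * Real.log 2 ≤ 1 := by nlinarith
    linarith)
  obtain ⟨J₃, hJ₃⟩ := exists_nat_gt (Real.log 9 / ca)
  refine ⟨1 / (8 * (M + 1) * (m + 1)), by positivity, ?_⟩
  refine ((hb1.and hb2).and ((hb3.and hb4).and hb5)).mono (max (max J₁ J₂) (max J₃ 1)) ?_
  rintro J hJ F A ⟨⟨hv, hu1⟩, ⟨hu2, ha⟩, hpA, hGd⟩ P lam Λ V z z' G hlam hdeg hdep hcls hpos hΛ1
    hΛ2 hΛ3
  have hJ0 : (0 : ℝ) ≤ J := Nat.cast_nonneg J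
  have hJp : 0 < J := (le_max_right J₃ 1).trans ((le_max_right _ _).trans hJ)
  have hJp' : (0 : ℝ) < J := by exact_mod_cast hJp
  have f1 := hJ₁ J ((le_max_left _ _).trans ((le_max_left _ _).trans hJ))
  have f2 := hJ₂ J ((le_max_right _ _).trans ((le_max_left _ _).trans hJ))
  have f3 : Real.log 9 < ca * J := by
    have h1 : (J₃ : ℝ) ≤ J := by
      exact_mod_cast (le_max_left J₃ 1).trans ((le_max_right _ _).trans hJ)
    have h2 : Real.log 9 / ca < J := lt_of_lt_of_le hJ₃ h1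
    rw [div_lt_iff₀ hca] at h2
    linarith
  have huJ : ⌊u * J⌋₊ ≤ J := by
    refine Nat.floor_le_of_le ?_
    calc u * J ≤ 1 * J := mul_le_mul_of_nonneg_right hu.le hJ0
      _ = J := one_mul _
  have huf : ((⌊u * J⌋₊ : ℕ) : ℝ) ≤ u * J := Nat.floor_le (by positivity)
  -- the velocities
  obtain ⟨B₀, hB₀A, hPB₀, hB₀⟩ := hv P lam (fun s => G (z' s)) (fun s => hdeg _) hpos
  -- the values
  obtain ⟨B₁, hB₁B, hPB₁, hB₁⟩ := hu1 B₀ hB₀A hPB₀ V z z' G (fun _ => 3) hdeg hdep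
    (fun ω hω => hcls ω (hB₀A ω hω)) (fun _ => by norm_num) (fun ω hω => by
      have e1 := hpos ω (hB₀A ω hω)
      have e2 : (1 : ℝ) / 2 ^ P ≤ 1 := by
        rw [div_le_one (by positivity)]
        exact one_le_pow₀ (by norm_num)
      obtain ⟨⟨e3, e4⟩, -⟩ := hGd ω k
      have e5 := F.dir ω k
      have e6 : 0 ≤ F.t ω := by
        unfold Fam.t
        positivity
      have e7 : F.t ω ≤ 1 := by
        unfold Fam.t
        rw [div_le_one (by positivity)]
        exact_mod_cast (F.tim ω).le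
      have e8 : |F.t ω * F.d ω k| ≤ 1 := by
        rw [abs_mul, abs_of_nonneg e6]
        exact mul_le_one₀ e7 (abs_nonneg _) e5
      have e9 : F.x ω k = F.u ω k + F.t ω * F.d ω k := rfl
      have e10 : |F.x ω k| ≤ 2 := by
        rw [e9]
        rw [abs_le] at e8 ⊢
        constructor <;> linarith [e8.1, e8.2]
      have e11 : |lam * F.x ω k| ≤ 2 := by
        rw [abs_mul]
        exact (mul_le_of_le_one_left (abs_nonneg _) hlam).trans e10
      rw [abs_le] at e1 e11 ⊢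
      constructor <;> linarith [e1.1, e1.2, e11.1, e11.2])
  have hB₁A : Sub B₁ A := fun ω hω => hB₀A ω (hB₁B ω hω)
  -- the own gradients
  have hown : ∀ ω, B₁ ω → eval (bt F ω) (gsq (G (z' (slam F ⌊w * J⌋₊ ω)))) ≤
      Real.exp (2 * J) ^ 2 := by
    intro ω hω
    have h1 : ∀ o, |eval (bt F ω) (pderiv o (G (z' (slam F ⌊w * J⌋₊ ω))))| ≤
        Cm * 3 * Real.exp ((1 + δ) * J) := by
      intro o
      have h2 := hmk (G (z' (slam F ⌊w * J⌋₊ ω))) (bt F ω) o (1 / 2 ^ ⌊u * J⌋₊)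
        (Real.exp (δ * J) * 3) (hdeg _) (by positivity) fun s hs => by
          refine hB₁ ω hω _ fun o' => ?_
          by_cases ho : o' = o
          · subst ho
            rw [Function.update_self, add_sub_cancel_left]
            have : (0 : ℝ) < 1 / 2 ^ ⌊u * J⌋₊ := by positivity
            linarith
          · rw [Function.update_of_ne ho, sub_self, abs_zero]
            positivity
      refine h2.trans ?_
      have h3 : (2 : ℝ) ^ ⌊u * J⌋₊ ≤ Real.exp (1 * J) := by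
        rw [two_pow_exp]
        refine Real.exp_le_exp.2 ?_
        have e1 : (⌊u * J⌋₊ : ℝ) ≤ J := by exact_mod_cast huJ
        calc (⌊u * J⌋₊ : ℝ) * Real.log 2 ≤ J * 1 :=
              mul_le_mul e1 hl1 hl2.le hJ0
          _ = 1 * J := by ring
      have e1 : Cm * (Real.exp (δ * J) * 3) / (1 / 2 ^ ⌊u * J⌋₊) =
          Cm * 3 * (Real.exp (δ * J) * 2 ^ ⌊u * J⌋₊) := by
        field_simp
      rw [e1]
      have e2 : Real.exp ((1 + δ) * J) = Real.exp (δ * J) * Real.exp (1 * J) := by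
        rw [← Real.exp_add]
        congr 1
        ring
      rw [e2]
      exact mul_le_mul_of_nonneg_left (mul_le_mul_of_nonneg_left h3 (Real.exp_pos _).le)
        (by linarith)
    rw [gsq_eval]
    have h2 : ∑ o, (eval (bt F ω) (pderiv o (G (z' (slam F ⌊w * J⌋₊ ω))))) ^ 2 ≤
        (m + 1) * (Cm * 3 * Real.exp ((1 + δ) * J)) ^ 2 := by
      refine (Finset.sum_le_card_nsmul _ _ ((Cm * 3 * Real.exp ((1 + δ) * J)) ^ 2)
        fun o _ => ?_).trans ?_
      · rw [← sq_abs (eval _ _)]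
        exact pow_le_pow_left₀ (abs_nonneg _) (h1 o) 2
      · rw [nsmul_eq_mul, Finset.card_univ, Fintype.card_option, Fintype.card_fin]
        push_cast
        exact le_rfl
    refine h2.trans ?_
    have e3 : (m + 1) * (Cm * 3 * Real.exp ((1 + δ) * J)) ^ 2 =
        (m + 1) * (Cm * 3) ^ 2 * Real.exp ((1 + δ) * J) ^ 2 := by ring
    rw [e3]
    refine (mul_le_mul_of_nonneg_right f2 (sq_nonneg _)).trans (le_of_eq ?_)
    rw [← Real.exp_nat_mul, ← Real.exp_nat_mul, ← Real.exp_add]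
    congr 1
    push_cast
    ring
  -- the bins
  obtain ⟨j, hj⟩ : ∃ j : F.Ω → ℕ, j = fun ω =>
      bin δ J (eval (bt F ω) (gsq (G (z' (slam F ⌊w * J⌋₊ ω))))) := ⟨_, rfl⟩
  obtain ⟨j₀, hj₀⟩ := pe_pig (p := F.p) (fun ω => (⟨min (j ω) M, by omega⟩ : Fin (M + 1))) B₁
  obtain ⟨B₂, hB₂⟩ : ∃ B₂ : F.Ω → Prop, B₂ = fun ω => B₁ ω ∧
      (⟨min (j ω) M, by omega⟩ : Fin (M + 1)) = j₀ := ⟨_, rfl⟩
  rw [← hB₂, Fintype.card_fin] at hj₀
  push_cast at hj₀
  have hB₂B : Sub B₂ B₁ := fun ω hω => by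
    rw [hB₂] at hω
    exact hω.1
  have hB₂A : Sub B₂ A := fun ω hω => hB₁A ω (hB₂B ω hω)
  have hjj : ∀ ω, B₂ ω → j ω = (j₀ : ℕ) := by
    intro ω hω
    have h1 : j ω ≤ M := by
      rw [hj]
      exact bin_le hδ0 hJp (by norm_num) (hown ω (hB₂B ω hω)) (gsq_nonneg _ _) hM
    rw [hB₂] at hω
    have h2 := congrArg Fin.val hω.2
    simp only at h2
    rw [min_eq_left h1] at h2
    exact h2
  obtain ⟨s, hs⟩ : ∃ s : ℝ, s = (j₀ : ℕ) * δ := ⟨_, rfl⟩
  have hs0 : 0 ≤ s := by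
    rw [hs]
    positivity
  have hPB₂ : 1 / (4 * (M + 1)) * Pe F.p A ≤ Pe F.p B₂ := by
    refine le_trans ?_ hj₀
    rw [le_div_iff₀ (by positivity)]
    have e1 : 1 / (4 * ((M : ℝ) + 1)) * Pe F.p A * (M + 1) = Pe F.p A / 4 := by
      field_simp
    rw [e1]
    linarith
  have hgB₂ : ∀ ω, B₂ ω → eval (bt F ω) (gsq (G (z' (slam F ⌊w * J⌋₊ ω)))) ≤
      Real.exp (s * J) ^ 2 := by
    intro ω hω
    have h1 := le_bin hδ0 hJp (gsq_nonneg (G (z' (slam F ⌊w * J⌋₊ ω))) (bt F ω))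
    have h2 := hjj ω hω
    rw [hj] at h2
    simp only at h2
    rw [h2, ← hs] at h1
    exact h1
  -- the gradients near the points
  obtain ⟨B₃, hB₃B, hPB₃, hB₃⟩ := hu2 B₂ hB₂A hPB₂ V z z' (fun v => gsq (G v))
    (fun _ => Real.exp (s * J) ^ 2) (fun v => gsq_deg (hdeg v))
    (fun v b b' h0 h1 => gsq_dep (hdep v) b b' h0 h1) (fun ω hω => hcls ω (hB₂A ω hω))
    (fun _ => by positivity) (fun ω hω => by
      rw [abs_of_nonneg (gsq_nonneg _ _)]
      exact hgB₂ ω hω)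
  have hB₃A : Sub B₃ A := fun ω hω => hB₂A ω (hB₃B ω hω)
  have hPB₃' : 1 / (8 * (M + 1)) * Pe F.p A ≤ Pe F.p B₃ := by
    have e1 : 1 / (8 * ((M : ℝ) + 1)) * Pe F.p A = 1 / 2 * (1 / (4 * (M + 1)) * Pe F.p A) := by
      field_simp
      ring
    rw [e1]
    linarith
  have hsup : ∀ ω, B₃ ω → ∀ b : Option (Fin m) → ℝ,
      (∀ o, |b o - bt F ω o| ≤ 2 * (1 / 2 ^ ⌊u * J⌋₊)) →
      ∀ o, |eval b (pderiv o (G (z' (slam F ⌊w * J⌋₊ ω))))| ≤ Real.exp ((s + δ) * J) := by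
    intro ω hω b hb o
    refine abs_le_of_gsq (Real.exp_pos _).le ?_ o
    have h1 := hB₃ ω hω b hb
    rw [abs_of_nonneg (gsq_nonneg _ _)] at h1
    refine h1.trans ?_
    rw [← Real.exp_nat_mul, ← Real.exp_nat_mul, ← Real.exp_add]
    refine Real.exp_le_exp.2 ?_
    push_cast
    nlinarith
  have hs3 : s ≤ 3 := by
    have h1 : ((j₀ : ℕ) : ℝ) ≤ M := by
      have := j₀.2
      exact_mod_cast (by omega : (j₀ : ℕ) ≤ M)
    rw [hs]
    exact (mul_le_mul_of_nonneg_right h1 hδ0.le).trans hM2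
  have hsup' : ∀ ω, B₃ ω → ∀ b : Option (Fin m) → ℝ,
      (∀ o, |b o - bt F ω o| ≤ 2 * (1 / 2 ^ ⌊u * J⌋₊)) →
      ∀ o, |eval b (pderiv o (G (z' (slam F ⌊w * J⌋₊ ω))))| ≤ Real.exp ((s + h) * J) :=
    fun ω hω b hb o => (hsup ω hω b hb o).trans (Real.exp_le_exp.2
      (mul_le_mul_of_nonneg_right (by linarith) hJ0))
  have hcc : 1 / (8 * (M + 1) * (m + 1)) * Pe F.p A ≤ Pe F.p B₃ / (m + 1) := by
    rw [le_div_iff₀ (by positivity)]
    have e1 : 1 / (8 * ((M : ℝ) + 1) * (m + 1)) * Pe F.p A * (m + 1) =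
        1 / (8 * (M + 1)) * Pe F.p A := by
      field_simp
    rw [e1]
    exact hPB₃'
  have hB₃0 := Pe_nonneg F.isLaw B₃
  rcases le_or_gt (s * J) (t * J + Λ) with hst | hst
  · refine ⟨s, B₃, hs0, hs3, hB₃A, hcc.trans ?_, fun ω hω => hgB₂ ω (hB₃B ω hω), hsup',
      Or.inl hst⟩
    rw [div_le_iff₀ (by positivity)]
    nlinarith [Nat.cast_nonneg (α := ℝ) m]
  -- the steepest direction
  obtain ⟨E, hE⟩ : ∃ E : F.Ω → Fin m → Prop, E = fun ω i => i ∈ I ∧ i ≠ κ ∧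
      Real.exp ((s - t) * J) ≤
        |eval (bt F ω) (pderiv (some i) (G (z' (slam F ⌊w * J⌋₊ ω))))| := ⟨_, rfl⟩
  obtain ⟨v, hv⟩ := pe_pig (p := F.p)
    (fun ω => if hi : ∃ i, E ω i then (some hi.choose : Option (Fin m)) else none) B₃
  rw [Fintype.card_option, Fintype.card_fin] at hv
  push_cast at hv
  obtain ⟨B₄, hB₄⟩ : ∃ B₄ : F.Ω → Prop, B₄ = fun ω => B₃ ω ∧
      (if hi : ∃ i, E ω i then (some hi.choose : Option (Fin m)) else none) = v := ⟨_, rfl⟩
  rw [← hB₄] at hv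
  have hB₄B : Sub B₄ B₃ := fun ω hω => by
    rw [hB₄] at hω
    exact hω.1
  have hB₄A : Sub B₄ A := fun ω hω => hB₃A ω (hB₄B ω hω)
  have hPB₄ := hcc.trans hv
  rcases v with - | i
  · exfalso
    have hno : ∀ ω, B₄ ω → ∀ i, i ≠ κ →
        |eval (bt F ω) (pderiv (some i) (G (z' (slam F ⌊w * J⌋₊ ω))))| ≤
          Real.exp ((s - t) * J) := by
      intro ω hω i hi
      rw [hB₄] at hω
      obtain ⟨-, h1⟩ := hω
      by_cases h2 : ∃ i, E ω i
      · rw [dif_pos h2] at h1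
        exact absurd h1 (by simp)
      · push Not at h2
        have h3 := h2 i
        rw [hE] at h3
        by_cases hI : i ∈ I
        · by_contra h4
          push Not at h4
          exact h3 ⟨hI, hi, h4.le⟩
        · rw [pd_zero (hdep _) hI, abs_zero]
          exact (Real.exp_pos _).le
    have hB₄0 : 0 < Pe F.p B₄ := lt_of_lt_of_le (by positivity) hPB₄
    have h1 := ha B₄ hB₄A hPB₄
    obtain ⟨q, hq⟩ : ∃ q : ℕ, q = ⌊t₁ * J⌋₊ := ⟨_, rfl⟩
    rw [← hq] at h1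
    have hqe : (2 : ℝ) ^ q ≤ Real.exp (D / 4 * J) := by
      rw [two_pow_exp]
      refine Real.exp_le_exp.2 ?_
      have e1 : (q : ℝ) ≤ t₁ * J := by
        rw [hq]
        exact Nat.floor_le (by positivity)
      calc (q : ℝ) * Real.log 2 ≤ t₁ * J * 1 := mul_le_mul e1 hl1 hl2.le (by positivity)
        _ = D / 4 * J := by
          rw [ht₁]
          ring
    have hq1 : (1 : ℝ) ≤ 2 ^ q := one_le_pow₀ (by norm_num)
    have hUJ : (2 : ℝ) ^ ⌊u * J⌋₊ / 2 ^ J ≤ Real.exp (-D * J) := by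
      rw [two_pow_exp, two_pow_exp, ← Real.exp_sub]
      refine Real.exp_le_exp.2 ?_
      have e1 : (⌊u * J⌋₊ : ℝ) * Real.log 2 ≤ u * J * Real.log 2 :=
        mul_le_mul_of_nonneg_right huf hl2.le
      have e2 := mul_le_mul_of_nonneg_right hDu hJ0
      have e3 : (1 - u) * Real.log 2 * J = J * Real.log 2 - u * J * Real.log 2 := by ring
      linarith
    obtain ⟨ε, hε⟩ : ∃ ε : ℝ, ε = Real.exp ((s - δ - D / 2) * J) := ⟨_, rfl⟩
    have hε0 : 0 < ε := by
      rw [hε]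
      exact Real.exp_pos _
    have hZε : Real.exp ((s - δ) * J) = ε * Real.exp (D / 2 * J) := by
      rw [hε, ← Real.exp_add]
      congr 1
      ring
    have hZ : ε * (4 * (2 * (m : ℝ) + 3 * (6 * Cv) + 8)) ≤ Real.exp ((s - δ) * J) := by
      rw [hZε]
      exact mul_le_mul_of_nonneg_left f1 hε0.le
    have hxε : 2 ^ q * Real.exp (δ * J + Λ) ≤ ε := by
      refine (mul_le_mul_of_nonneg_right hqe (Real.exp_pos _).le).trans ?_
      rw [← Real.exp_add, hε]
      refine Real.exp_le_exp.2 ?_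
      have e1 : D / 4 * (J : ℝ) + (δ * J + Λ) ≤ (D / 4 + δ - t) * J + s * J := by
        have e2 : (D / 4 + δ - t) * (J : ℝ) = D / 4 * J + δ * J - t * J := by ring
        rw [e2]
        linarith
      refine e1.trans ?_
      rw [← add_mul]
      exact mul_le_mul_of_nonneg_right (by linarith) hJ0
    have hyε : 2 ^ q * Real.exp ((s - t) * J) ≤ ε := by
      refine (mul_le_mul_of_nonneg_right hqe (Real.exp_pos _).le).trans ?_
      rw [← Real.exp_add, hε]
      refine Real.exp_le_exp.2 ?_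
      rw [← add_mul]
      exact mul_le_mul_of_nonneg_right (by linarith) hJ0
    obtain ⟨v, hv'⟩ : ∃ v : ℝ, v = Cv * (1 + 1) * Real.exp ((s + δ) * J) *
        (2 ^ ⌊u * J⌋₊ / 2 ^ J) := ⟨_, rfl⟩
    have hv0 : 0 ≤ v := by
      rw [hv']
      positivity
    have hvε : 2 ^ q * v ≤ 2 * Cv * ε := by
      rw [hv']
      have e1 : Real.exp ((s + δ) * J) * (2 ^ ⌊u * J⌋₊ / 2 ^ J) ≤
          Real.exp ((s + δ - D) * J) := by
        refine (mul_le_mul_of_nonneg_left hUJ (Real.exp_pos _).le).trans (le_of_eq ?_)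
        rw [← Real.exp_add]
        congr 1
        ring
      have e2 : (2 : ℝ) ^ q * Real.exp ((s + δ - D) * J) ≤ ε := by
        refine (mul_le_mul_of_nonneg_right hqe (Real.exp_pos _).le).trans ?_
        rw [← Real.exp_add, hε]
        refine Real.exp_le_exp.2 ?_
        rw [← add_mul]
        exact mul_le_mul_of_nonneg_right (by linarith) hJ0
      calc (2 : ℝ) ^ q * (Cv * (1 + 1) * Real.exp ((s + δ) * J) * (2 ^ ⌊u * J⌋₊ / 2 ^ J)) =
            2 * Cv * (2 ^ q * (Real.exp ((s + δ) * J) * (2 ^ ⌊u * J⌋₊ / 2 ^ J))) := by ring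
        _ ≤ 2 * Cv * (2 ^ q * Real.exp ((s + δ - D) * J)) := by
            refine mul_le_mul_of_nonneg_left (mul_le_mul_of_nonneg_left e1 (by positivity))
              (by positivity)
        _ ≤ 2 * Cv * ε := mul_le_mul_of_nonneg_left e2 (by positivity)
    have hxε' : Real.exp (δ * J + Λ) ≤ ε := by
      refine le_trans ?_ hxε
      exact le_mul_of_one_le_left (Real.exp_pos _).le hq1
    have hyε' : Real.exp ((s - t) * J) ≤ ε := by
      refine le_trans ?_ hyε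
      exact le_mul_of_one_le_left (Real.exp_pos _).le hq1
    have hvε' : v ≤ 2 * Cv * ε := by
      refine le_trans ?_ hvε
      exact le_mul_of_one_le_left hv0 hq1
    have h2 := dir_ch (F := F) (B := B₄) hB₄0 (κ := κ) (q := q)
      (fun c => -(eval (rp J c) (pderiv none (G (z c))) /
        eval (rp J c) (pderiv (some κ) (G (z c))))) (fun ω hω => by
        have hcl := hcls ω (hB₄A ω hω)
        obtain ⟨g, hg⟩ : ∃ g : Option (Fin m) → ℝ, g = fun o =>
          eval (bt F ω) (pderiv o (G (z' (slam F ⌊w * J⌋₊ ω)))) := ⟨_, rfl⟩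
        obtain ⟨g', hg'⟩ : ∃ g' : Option (Fin m) → ℝ, g' = fun o =>
          eval (rp J (ptr F J ω)) (pderiv o (G (z' (slam F ⌊w * J⌋₊ ω)))) := ⟨_, rfl⟩
        have hvel := hB₀ ω (hB₁B ω (hB₂B ω (hB₃B ω (hB₄B ω hω))))
        rw [Fintype.sum_option] at hvel
        have e1 : bd F ω none = 1 := rfl
        have e2 : ∀ i, bd F ω (some i) = F.d ω i := fun i => rfl
        rw [e1, one_mul] at hvel
        simp only [e2] at hvel
        have hvel' : |g none + ∑ i, F.d ω i * g (some i)| ≤ 2 * Real.exp (δ * J + Λ) := by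
          have e3 : |lam * F.d ω k - (g none + ∑ i, F.d ω i * g (some i))| ≤
              Real.exp (δ * J) * (2 ^ ⌊w * J⌋₊ / 2 ^ P) := by
            rw [hg]
            exact hvel
          have e4 : Real.exp (δ * J) * (2 ^ ⌊w * J⌋₊ / 2 ^ P) ≤ Real.exp (δ * J + Λ) := by
            rw [Real.exp_add]
            exact mul_le_mul_of_nonneg_left hΛ1 (Real.exp_pos _).le
          have e5 : |lam * F.d ω k| ≤ Real.exp (δ * J + Λ) := by
            rw [abs_mul]
            refine (mul_le_of_le_one_right (abs_nonneg _) (F.dir ω k)).trans (hΛ2.trans ?_)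
            refine Real.exp_le_exp.2 ?_
            have : 0 ≤ δ * (J : ℝ) := by positivity
            linarith
          have e6 := abs_sub_abs_le_abs_sub (g none + ∑ i, F.d ω i * g (some i)) (lam * F.d ω k)
          rw [abs_sub_comm] at e6
          linarith
        have hoth : ∀ i, i ≠ κ → |g (some i)| ≤ Real.exp ((s - t) * J) := by
          intro i hi
          rw [hg]
          exact hno ω hω i hi
        have hlow : Real.exp ((s - δ) * J) ^ 2 ≤ ∑ o, (g o) ^ 2 := by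
          have e3 := gsq_eval (G (z' (slam F ⌊w * J⌋₊ ω))) (bt F ω)
          have e4 : ∑ o, (g o) ^ 2 = eval (bt F ω) (gsq (G (z' (slam F ⌊w * J⌋₊ ω)))) := by
            rw [e3, hg]
          rw [e4]
          have e5 := hjj ω (hB₃B ω (hB₄B ω hω))
          rw [hj] at e5
          simp only at e5
          rcases Nat.lt_or_ge 0 (j₀ : ℕ) with e6 | e6
          · have e7 := bin_lt (y := eval (bt F ω) (gsq (G (z' (slam F ⌊w * J⌋₊ ω))))) hδ0 hJp
              (gsq_nonneg _ _) (by rw [e5]; exact e6)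
            rw [e5, ← hs] at e7
            exact e7
          · have e8 : (j₀ : ℕ) = 0 := by omega
            rw [e8, Nat.cast_zero, zero_mul] at hs
            rcases hΛ3 with e9 | e9
            · exfalso
              rw [hs, zero_mul] at hst
              have : 0 < t * (J : ℝ) := by positivity
              linarith
            · refine le_trans ?_ (e9 ω (hB₄A ω hω))
              rw [hs, zero_sub]
              refine pow_le_one₀ (Real.exp_pos _).le ?_
              rw [Real.exp_le_one_iff]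
              have : 0 < δ * (J : ℝ) := by positivity
              linarith
        have hst' := steep_lowR (F.dir ω) (by positivity) (Real.exp_pos _).le hvel' hoth hlow
        have hnear : ∀ o, |g o - g' o| ≤ v := by
          intro o
          have e3 := hvar J ⌊u * J⌋₊ F ω (G (z' (slam F ⌊w * J⌋₊ ω))) o
            (Real.exp ((s + δ) * J)) 1 huJ zero_le_one (inv_mono huJ) (hdeg _)
            (fun b hb => hsup ω (hB₄B ω hω) b hb o) (rp J (ptr F J ω)) (rp_near F ω)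
          rw [abs_sub_comm, hg, hg', hv']
          exact e3
        have hmm : (0 : ℝ) ≤ m := Nat.cast_nonneg m
        have hmy : (m : ℝ) * Real.exp ((s - t) * J) ≤ m * ε :=
          mul_le_mul_of_nonneg_left hyε' hmm
        have hmqy : (m : ℝ) * (2 ^ q * Real.exp ((s - t) * J)) ≤ m * ε :=
          mul_le_mul_of_nonneg_left hyε hmm
        have hCε : 0 ≤ Cv * ε := by positivity
        have hmε : 0 ≤ m * ε := by positivity
        have hfin := steep_dirR (g := g) (g' := g') (d := F.d ω)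
          (x := 2 * Real.exp (δ * J + Λ)) (y := Real.exp ((s - t) * J)) (v := v)
          (a := |g (some κ)|) (κ := κ) (q := q) (F.dir ω) hvel' hoth
          le_rfl (hnear none) (hnear (some κ)) (by
            have e3 : 2 ^ q * (2 * Real.exp (δ * J + Λ) + m * Real.exp ((s - t) * J) + 2 * v) =
              2 * (2 ^ q * Real.exp (δ * J + Λ)) + m * (2 ^ q * Real.exp ((s - t) * J)) +
                2 * (2 ^ q * v) := by ring
            rw [e3]
            linarith) (by linarith) (Real.exp_pos _).le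
        have e3 : z (ptr F J ω) = z' (slam F ⌊w * J⌋₊ ω) := hcl
        rw [hg'] at hfin
        simp only [e3]
        exact hfin)
    linarith
  · refine ⟨s, B₄, hs0, hs3, hB₄A, hPB₄, fun ω hω => hgB₂ ω (hB₃B ω (hB₄B ω hω)),
      fun ω hω => hsup' ω (hB₄B ω hω), Or.inr ?_⟩
    have hkey : ∀ ω, B₄ ω → E ω i := by
      intro ω hω
      rw [hB₄] at hω
      obtain ⟨-, h1⟩ := hω
      by_cases h2 : ∃ i, E ω i
      · rw [dif_pos h2] at h1
        rw [← Option.some.inj h1]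
        exact h2.choose_spec
      · rw [dif_neg h2] at h1
        exact absurd h1 (by simp)
    have hB₄0 : 0 < Pe F.p B₄ := lt_of_lt_of_le (by positivity) hPB₄
    have hex : ∃ ω, B₄ ω := by
      by_contra h1
      push Not at h1
      have h2 : Pe F.p B₄ = 0 := by
        rw [Pe_eq]
        refine Finset.sum_eq_zero fun ω _ => ?_
        rw [if_neg (h1 ω)]
      linarith
    obtain ⟨ω₀, hω₀⟩ := hex
    have h1 := hkey ω₀ hω₀
    rw [hE] at h1
    refine ⟨i, h1.1, h1.2.1, fun ω hω => ?_⟩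
    have h2 := hkey ω hω
    rw [hE] at h2
    exact h2.2.2

end Pool.TOP
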