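import Pool.Agent.H27.TOP.Rlq

/-!
# Relations determine a coordinate

`lab_chR`: a relation with a large derivative in the direction `i` determines the digits of the
coordinate `i` from the other coordinates. `steepR`: the class form, with the steepest direction.
-/

set_option autoImplicit false

namespace Pool.TOP

open Finset Real MvPolynomial
open Pool.Agent.H49.Ent Pool.Agent.H32.Dense Pool.STK Pool.KA Pool.KSAT Pool.K2S Pool.PB Pool.S6C
open Pool.GEN Pool.ONE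
open Pool.GRD (LbP)
open Pool.FLF (Fam.sub)

variable {m n J : ℕ}

/-- **A relation determines a coordinate.** -/
theorem lab_chR (m K : ℕ) : ∃ C : ℝ, 1 ≤ C ∧ ∀ (J : ℕ) (F : Fam m J) (B : F.Ω → Prop)
    (_ : 0 < Pe F.p B) (I : Finset (Fin m)) (k i : Fin m) (w P Q U : ℕ) (V : Type)
    (z' : LnT F → V) (G : V → MvPolynomial (Option (Fin m)) ℝ) (lam a s : ℝ),
    |lam| ≤ 1 → (∀ v, (G v).totalDegree ≤ K) →
    (∀ v, ∀ b b' : Option (Fin m) → ℝ, b none = b' none →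
      (∀ i ∈ I, b (some i) = b' (some i)) → eval b (G v) = eval b' (G v)) →
    (∀ ω, B ω → |lam * F.x ω k - eval (bt F ω) (G (z' (slam F w ω)))| ≤ 1 / 2 ^ P) →
    U ≤ J → 0 ≤ a → 0 < s →
    (∀ ω, B ω → ∀ b : Option (Fin m) → ℝ, (∀ o, |b o - bt F ω o| ≤ 2 * (1 / 2 ^ U)) →
      ∀ o, |eval b (pderiv o (G (z' (slam F w ω))))| ≤ a) →
    (∀ ω, B ω → s ≤ |eval (bt F ω) (pderiv (some i) (G (z' (slam F w ω))))|) →
    C * a * (2 ^ U / 2 ^ J) ≤ s / 2 →
    CH (Pool.Agent.H49.Ent.cond F.p B True) (fun ω => F.X J ω i)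
      (fun ω => (F.X Q ω k, (ub (I.erase i) (F.X J ω), (z' (slam F w ω), F.W ω)))) ≤
      Real.log (4 * K + 1) +
        Real.log (16 * ((2 ^ J / 2 ^ P + |lam| * (2 ^ J / 2 ^ Q) + (m + 1) * a) / s) + 3) := by
  classical
  obtain ⟨Cv, hCv, hvar⟩ := var_pd m K
  refine ⟨Cv * 2, by linarith, ?_⟩
  intro J F B hB I k i w P Q U V z' G lam a s hlam hdeg hdep0 hpos hU ha hs hsup hlow hsm
  have hq := isLaw_cond F.isLaw hB
  have hqB : ∀ ω, 0 < Pool.Agent.H49.Ent.cond F.p B True ω → B ω := by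
    intro ω hω
    exact of_eq_true ((cond_pos_iff F.isLaw.nonneg B True ω).1 hω).2
  have pJ : (0 : ℝ) < 2 ^ J := by positivity
  have hlam0 := abs_nonneg lam
  have key := Pool.TOP63.cnt_slope (q := Pool.Agent.H49.Ent.cond F.p B True) hq.nonneg hq.sum_one
    (fun ω => (F.X Q ω k, (ub (I.erase i) (F.X J ω), (z' (slam F w ω), F.W ω))))
    (fun ω => F.x ω i) J K
    (fun c => MvPolynomial.aeval (fpt J i c.2.2.2.1 c.2.1) (G c.2.2.1))
    (fun c => lam * ((c.1 : ℝ) / 2 ^ Q))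
    (δ := 1 / 2 ^ P + |lam| * (1 / 2 ^ Q) + a * ((m + 1) * (1 / 2 ^ J)))
    (ν := s / 4) (by positivity) (fun c => Pool.KBX.natDegree_aeval_le _ _ (fpt_deg J i _ _)
      (hdeg _)) (fun ω hω => ?_) (fun ω hω => ?_)
  · refine key.trans (add_le_add le_rfl ?_)
    refine Real.log_le_log (by positivity) ?_
    have e1 : 2 * ((2 : ℝ) ^ J *
        (2 * (1 / 2 ^ P + |lam| * (1 / 2 ^ Q) + a * ((m + 1) * (1 / 2 ^ J))) / (s / 4)) + 1) + 1 =
        16 * ((2 ^ J / 2 ^ P + |lam| * (2 ^ J / 2 ^ Q) + (m + 1) * a) / s) + 3 := by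
      field_simp
      ring
    rw [e1]
  all_goals
    have hBω := hqB ω hω
    have hdep : ∀ Q' : MvPolynomial (Option (Fin m)) ℝ,
        (∀ b b' : Option (Fin m) → ℝ, b none = b' none →
          (∀ i ∈ I, b (some i) = b' (some i)) → eval b Q' = eval b' Q') →
        eval (fev J i (F.T ω) (ub (I.erase i) (F.X J ω)) (F.x ω i)) Q' =
          eval (fev J i (F.T ω) (F.X J ω) (F.x ω i)) Q' := by
      intro Q' hQ'
      refine hQ' _ _ rfl fun j hj => ?_
      by_cases hji : j = i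
      · subst hji
        exact (if_pos rfl).trans (if_pos rfl).symm
      · have e1 : fev J i (F.T ω) (ub (I.erase i) (F.X J ω)) (F.x ω i) (some j) =
            (ub (I.erase i) (F.X J ω) j : ℝ) / 2 ^ J := if_neg hji
        have e2 : fev J i (F.T ω) (F.X J ω) (F.x ω i) (some j) = (F.X J ω j : ℝ) / 2 ^ J :=
          if_neg hji
        have e3 : ub (I.erase i) (F.X J ω) j = F.X J ω j :=
          if_pos (Finset.mem_erase.2 ⟨hji, hj⟩)
        rw [e1, e2, e3]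
    have hnear := fev_near F i ω
    have hJU : (1 : ℝ) / 2 ^ J ≤ 1 / 2 ^ U := inv_mono hU
  · show |(MvPolynomial.aeval (fpt J i (F.T ω) (ub (I.erase i) (F.X J ω)))
      (G (z' (slam F w ω)))).eval (F.x ω i) - lam * ((F.X Q ω k : ℝ) / 2 ^ Q)| ≤ _
    rw [fpt_eval, hdep _ (hdep0 _)]
    have h1 := mvσ (G (z' (slam F w ω))) (bt F ω) (fev J i (F.T ω) (F.X J ω) (F.x ω i)) a
      (fun y hy o => hsup ω hBω y (fun o' => (hy o').trans ((hnear o').trans (by
        have : (0 : ℝ) < 1 / 2 ^ U := by positivity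
        linarith))) o)
    have h2 : ∑ o, |fev J i (F.T ω) (F.X J ω) (F.x ω i) o - bt F ω o| ≤
        (m + 1) * (1 / 2 ^ J) := by
      refine (Finset.sum_le_card_nsmul _ _ _ fun o _ => hnear o).trans ?_
      rw [nsmul_eq_mul, Finset.card_univ, Fintype.card_option, Fintype.card_fin]
      push_cast
      exact le_rfl
    have h3 := h1.trans (mul_le_mul_of_nonneg_left h2 ha)
    have h4 := hpos ω hBω
    have h5 : |F.x ω k - (F.X Q ω k : ℝ) / 2 ^ Q| ≤ 1 / 2 ^ Q := by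
      have e1 : F.X Q ω k = ⌊(2 : ℝ) ^ Q * F.x ω k⌋ := rfl
      have pQ : (0 : ℝ) < 2 ^ Q := by positivity
      have e2 : F.x ω k - (F.X Q ω k : ℝ) / 2 ^ Q =
          (2 ^ Q * F.x ω k - ⌊(2 : ℝ) ^ Q * F.x ω k⌋) / 2 ^ Q := by
        rw [e1]
        field_simp
      rw [e2, abs_div, abs_of_pos pQ]
      refine div_le_div_of_nonneg_right ?_ pQ.le
      have a1 := Int.floor_le ((2 : ℝ) ^ Q * F.x ω k)
      have a2 := Int.lt_floor_add_one ((2 : ℝ) ^ Q * F.x ω k)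
      rw [abs_le]
      constructor <;> linarith
    have h6 : |lam * F.x ω k - lam * ((F.X Q ω k : ℝ) / 2 ^ Q)| ≤ |lam| * (1 / 2 ^ Q) := by
      rw [← mul_sub, abs_mul]
      exact mul_le_mul_of_nonneg_left h5 hlam0
    rw [abs_le] at h3 h4 h6 ⊢
    constructor <;> linarith [h3.1, h3.2, h4.1, h4.2, h6.1, h6.2]
  · show s / 4 < |(Polynomial.derivative (MvPolynomial.aeval
      (fpt J i (F.T ω) (ub (I.erase i) (F.X J ω))) (G (z' (slam F w ω))))).eval (F.x ω i)|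
    rw [fpt_der, hdep _ (fun b b' h0 h1 => pd_on (hdep0 _) (some i) h0 h1)]
    have h1 := hvar J U F ω (G (z' (slam F w ω))) (some i) a 1 hU zero_le_one hJU (hdeg _)
      (fun b hb => hsup ω hBω b hb (some i)) _ hnear
    have h2 := hlow ω hBω
    have h3 := abs_sub_abs_le_abs_sub (eval (bt F ω) (pderiv (some i) (G (z' (slam F w ω)))))
      (eval (fev J i (F.T ω) (F.X J ω) (F.x ω i)) (pderiv (some i) (G (z' (slam F w ω)))))
    rw [abs_sub_comm] at h3
    have h4 : Cv * (1 + 1) * a * (2 ^ U / 2 ^ J) ≤ s / 2 := by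
      refine le_trans (le_of_eq ?_) hsm
      ring
    linarith

/-- The arithmetic of `steepR`. -/
theorem steep_arithR {m K J P Q R : ℕ} {lam s t' h' X : ℝ} (hlam : |lam| ≤ 1) (ht : 0 ≤ t')
    (hh : 0 ≤ h') (hRP : R ≤ P) (hRQ : lam = 0 ∨ R ≤ Q)
    (hX : X = max (((J : ℝ) - R) * Real.log 2 - s * J) 0) :
    Real.log (4 * K + 1) + Real.log (16 * ((2 ^ J / 2 ^ P + |lam| * (2 ^ J / 2 ^ Q) +
      (m + 1) * Real.exp ((s + h') * J)) / Real.exp ((s - t') * J)) + 3) ≤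
      (Real.log (4 * K + 1) + Real.log (16 * m + 51)) + (X + (t' + h') * J) := by
  have hJ0 : (0 : ℝ) ≤ J := Nat.cast_nonneg J
  have hX0 : 0 ≤ X := by
    rw [hX]
    exact le_max_right _ _
  have hX1 : ((J : ℝ) - R) * Real.log 2 - s * J ≤ X := by
    rw [hX]
    exact le_max_left _ _
  have h1 : (2 : ℝ) ^ J / 2 ^ P + |lam| * (2 ^ J / 2 ^ Q) ≤ 2 * (2 ^ J / 2 ^ R) := by
    have e1 : (2 : ℝ) ^ J / 2 ^ P ≤ 2 ^ J / 2 ^ R :=
      div_le_div_of_nonneg_left (by positivity) (by positivity)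
        (pow_le_pow_right₀ (by norm_num) hRP)
    have e2 : |lam| * ((2 : ℝ) ^ J / 2 ^ Q) ≤ 2 ^ J / 2 ^ R := by
      rcases hRQ with h0 | h0
      · rw [h0, abs_zero, zero_mul]
        positivity
      · refine (mul_le_of_le_one_left (by positivity) hlam).trans ?_
        exact div_le_div_of_nonneg_left (by positivity) (by positivity)
          (pow_le_pow_right₀ (by norm_num) h0)
    linarith
  have h2 : (2 : ℝ) ^ J / 2 ^ R / Real.exp ((s - t') * J) ≤
      Real.exp (X + (t' + h') * J) := by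
    rw [two_pow_exp, two_pow_exp, ← Real.exp_sub, ← Real.exp_sub]
    refine Real.exp_le_exp.2 ?_
    have e1 : 0 ≤ h' * J := mul_nonneg hh hJ0
    have e2 : (J : ℝ) * Real.log 2 - (R : ℝ) * Real.log 2 - (s - t') * J =
        ((J : ℝ) - (R : ℝ)) * Real.log 2 - s * J + t' * J := by ring
    have e3 : (t' + h') * (J : ℝ) = t' * J + h' * J := by ring
    rw [e2, e3]
    linarith
  have h3 : Real.exp ((s + h') * J) / Real.exp ((s - t') * J) ≤ Real.exp (X + (t' + h') * J) := by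
    rw [← Real.exp_sub]
    refine Real.exp_le_exp.2 ?_
    have e1 : (s + h') * (J : ℝ) - (s - t') * J = (t' + h') * J := by ring
    rw [e1]
    linarith
  have h4 : 1 ≤ Real.exp (X + (t' + h') * J) := Real.one_le_exp (by positivity)
  have h5 : 16 * (((2 : ℝ) ^ J / 2 ^ P + |lam| * (2 ^ J / 2 ^ Q) +
      (m + 1) * Real.exp ((s + h') * J)) / Real.exp ((s - t') * J)) + 3 ≤
      (16 * m + 51) * Real.exp (X + (t' + h') * J) := by
    have e1 : ((2 : ℝ) ^ J / 2 ^ P + |lam| * (2 ^ J / 2 ^ Q) +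
        (m + 1) * Real.exp ((s + h') * J)) / Real.exp ((s - t') * J) ≤
        2 * (2 ^ J / 2 ^ R / Real.exp ((s - t') * J)) +
          (m + 1) * (Real.exp ((s + h') * J) / Real.exp ((s - t') * J)) := by
      have e2 := div_le_div_of_nonneg_right h1 (Real.exp_pos ((s - t') * J)).le
      have e3 : 2 * ((2 : ℝ) ^ J / 2 ^ R) / Real.exp ((s - t') * J) =
          2 * (2 ^ J / 2 ^ R / Real.exp ((s - t') * J)) := mul_div_assoc _ _ _
      have e4 : ((m : ℝ) + 1) * Real.exp ((s + h') * J) / Real.exp ((s - t') * J) =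
          (m + 1) * (Real.exp ((s + h') * J) / Real.exp ((s - t') * J)) := mul_div_assoc _ _ _
      rw [add_div, e4]
      linarith
    have e2 : ((m : ℝ) + 1) * (Real.exp ((s + h') * J) / Real.exp ((s - t') * J)) ≤
        (m + 1) * Real.exp (X + (t' + h') * J) := mul_le_mul_of_nonneg_left h3 (by positivity)
    have e3 : (16 * (m : ℝ) + 51) * Real.exp (X + (t' + h') * J) =
        16 * (2 * Real.exp (X + (t' + h') * J) + (m + 1) * Real.exp (X + (t' + h') * J)) +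
          3 * Real.exp (X + (t' + h') * J) := by ring
    rw [e3]
    linarith
  have h6 := Real.log_le_log (by positivity) h5
  rw [Real.log_mul (by positivity) (Real.exp_pos _).ne', Real.log_exp] at h6
  linarith

/-- **A relation determines a coordinate**, for classes. -/
theorem steepR {S : PCl m} {C₀ : ℝ} (hC₀ : 0 ≤ C₀) (htm : TmC S C₀)
    (hgd : ∀ (τ : ℝ) (J : ℕ) (F : Fam m J) (A : F.Ω → Prop), S.St τ J F A → Gd F)
    {N : ℚ → ℚ → ℝ} {al : ℝ} (hal : 0 < al) (hQ : ActQ N al) {κ : Fin m} (hact : ActB N S κ)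
    (I : Finset (Fin m)) (k : Fin m) {w u : ℝ} (hw0 : 0 ≤ w) (hwu : w ≤ u) (hu : u < 1)
    (full : Ful S I w u) (K : ℕ) {t : ℝ} (ht : 0 < t) :
    ∃ c : ℝ, 0 < c ∧ Bas S (fun J F A => ∀ (P : ℕ) (lam Λ : ℝ) (V : Type) (z : PtT F → V)
      (z' : LnT F → V) (G : V → MvPolynomial (Option (Fin m)) ℝ), |lam| ≤ 1 →
      (∀ v, (G v).totalDegree ≤ K) →
      (∀ v, ∀ b b' : Option (Fin m) → ℝ, b none = b' none →
        (∀ i ∈ I, b (some i) = b' (some i)) → eval b (G v) = eval b' (G v)) →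
      (∀ ω, A ω → z (ptr F J ω) = z' (slam F ⌊w * J⌋₊ ω)) →
      (∀ ω, A ω → |lam * F.x ω k - eval (bt F ω) (G (z' (slam F ⌊w * J⌋₊ ω)))| ≤ 1 / 2 ^ P) →
      (2 : ℝ) ^ ⌊w * J⌋₊ / 2 ^ P ≤ Real.exp Λ → |lam| ≤ Real.exp Λ →
      (0 ≤ Λ ∨ ∀ ω, A ω → 1 ≤ eval (bt F ω) (gsq (G (z' (slam F ⌊w * J⌋₊ ω))))) →
      ∃ (s : ℝ) (B : F.Ω → Prop), 0 ≤ s ∧ s ≤ 3 ∧ Sub B A ∧ c * Pe F.p A ≤ Pe F.p B ∧
        (∀ ω, B ω → eval (bt F ω) (gsq (G (z' (slam F ⌊w * J⌋₊ ω)))) ≤ Real.exp (s * J) ^ 2) ∧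
        (s * J ≤ t * J + Λ ∨ ∃ i ∈ I, i ≠ κ ∧ (∀ ω, B ω → Real.exp ((s - t) * J) ≤
          |eval (bt F ω) (pderiv (some i) (G (z' (slam F ⌊w * J⌋₊ ω))))|) ∧
          ∀ Q R : ℕ, R ≤ P → (lam = 0 ∨ R ≤ Q) →
          CH (Pool.Agent.H49.Ent.cond F.p B True) (fun ω => F.X J ω i)
            (fun ω => (F.X Q ω k, (ub (I.erase i) (F.X J ω),
              (z' (slam F ⌊w * J⌋₊ ω), F.W ω)))) ≤
            max (((J : ℝ) - R) * Real.log 2 - s * J) 0 + t * J)) := by
  have hl2 : 0 < Real.log 2 := Real.log_pos one_lt_two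
  obtain ⟨D, hD⟩ : ∃ D : ℝ, D = min t ((1 - u) * Real.log 2) := ⟨_, rfl⟩
  have hD0 : 0 < D := by
    rw [hD]
    exact lt_min ht (mul_pos (by linarith) hl2)
  have hDt : D ≤ t := by
    rw [hD]
    exact min_le_left _ _
  have hDu : D ≤ (1 - u) * Real.log 2 := by
    rw [hD]
    exact min_le_right _ _
  obtain ⟨c, hc, hsl⟩ := slopeR hC₀ htm hgd hal hQ hact I k hw0 hwu hu full K
    (t := D / 4) (by positivity) (h := D / 4) (by positivity)
  obtain ⟨C, hC, hlab⟩ := lab_chR m K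
  obtain ⟨J₁, hJ₁⟩ := exp_big (2 * C) (b := D / 2) (by positivity)
  obtain ⟨J₂, hJ₂⟩ := exists_nat_ge ((Real.log (4 * K + 1) + Real.log (16 * m + 51)) / (t / 2))
  have hpA : Bas S (fun _ F A => 0 < Pe F.p A) :=
    ⟨1, one_pos, 0, fun J _ F A hA => tmc_pos htm one_pos hA⟩
  refine ⟨c, hc, (hsl.and hpA).mono (max J₁ J₂) ?_⟩
  rintro J hJ F A ⟨h1, hA0⟩ P lam Λ V z z' G hlam hdeg hdep hcls hpos hΛ1 hΛ2 hΛ3
  have hJ0 : (0 : ℝ) ≤ J := Nat.cast_nonneg J
  obtain ⟨s, B, hs0, hs3, hBA, hPB, hg, hsup, hor⟩ := h1 P lam Λ V z z' G hlam hdeg hdep hcls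
    hpos hΛ1 hΛ2 hΛ3
  refine ⟨s, B, hs0, hs3, hBA, hPB, hg, ?_⟩
  rcases hor with h2 | ⟨i, hi, hiκ, h2⟩
  · refine Or.inl (h2.trans ?_)
    have : D / 4 * (J : ℝ) ≤ t * J := mul_le_mul_of_nonneg_right (by linarith) hJ0
    linarith
  refine Or.inr ⟨i, hi, hiκ, fun ω hω => (Real.exp_le_exp.2
    (mul_le_mul_of_nonneg_right (by linarith) hJ0)).trans (h2 ω hω), fun Q R hRP hRQ => ?_⟩
  have hB0 : 0 < Pe F.p B := lt_of_lt_of_le (by positivity) hPB
  have huJ : ⌊u * J⌋₊ ≤ J := by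
    refine Nat.floor_le_of_le ?_
    calc u * J ≤ 1 * J := mul_le_mul_of_nonneg_right hu.le hJ0
      _ = J := one_mul _
  have huf : ((⌊u * J⌋₊ : ℕ) : ℝ) ≤ u * J :=
    Nat.floor_le (mul_nonneg (hw0.trans hwu) hJ0)
  have f1 := hJ₁ J ((le_max_left _ _).trans hJ)
  have f2 : Real.log (4 * K + 1) + Real.log (16 * m + 51) ≤ t / 2 * J := by
    have e1 : (J₂ : ℝ) ≤ J := by exact_mod_cast (le_max_right _ _).trans hJ
    have e2 := hJ₂.trans e1
    rw [div_le_iff₀ (by positivity)] at e2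
    linarith
  have h3 := hlab J F B hB0 I k i ⌊w * J⌋₊ P Q ⌊u * J⌋₊ V z' G lam (Real.exp ((s + D / 4) * J))
    (Real.exp ((s - D / 4) * J)) hlam hdeg hdep (fun ω hω => hpos ω (hBA ω hω)) huJ
    (Real.exp_pos _).le (Real.exp_pos _) hsup h2
    (by
      have e1 : (2 : ℝ) ^ ⌊u * J⌋₊ / 2 ^ J ≤ Real.exp (-D * J) := by
        rw [two_pow_exp, two_pow_exp, ← Real.exp_sub]
        refine Real.exp_le_exp.2 ?_
        have e1 : (⌊u * J⌋₊ : ℝ) * Real.log 2 ≤ u * J * Real.log 2 :=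
          mul_le_mul_of_nonneg_right huf hl2.le
        have e2 := mul_le_mul_of_nonneg_right hDu hJ0
        have e3 : (1 - u) * Real.log 2 * J = J * Real.log 2 - u * J * Real.log 2 := by ring
        linarith
      have e2 : Real.exp ((s + D / 4) * J) * Real.exp (-D * J) * Real.exp (D / 2 * J) ≤
          Real.exp ((s - D / 4) * J) := by
        rw [← Real.exp_add, ← Real.exp_add]
        refine Real.exp_le_exp.2 ?_
        rw [← add_mul, ← add_mul]
        exact mul_le_mul_of_nonneg_right (by linarith) hJ0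
      have e3 : 0 ≤ Real.exp ((s + D / 4) * J) * Real.exp (-D * J) := by positivity
      have e4 := mul_le_mul_of_nonneg_left f1 e3
      have e5 : C * Real.exp ((s + D / 4) * J) * (2 ^ ⌊u * J⌋₊ / 2 ^ J) ≤
          C * Real.exp ((s + D / 4) * J) * Real.exp (-D * J) :=
        mul_le_mul_of_nonneg_left e1 (by positivity)
      linarith)
  refine h3.trans ?_
  have h4 := steep_arithR (m := m) (K := K) (J := J) (P := P) (Q := Q) (R := R) (s := s)
    (t' := D / 4) (h' := D / 4) hlam (by positivity) (by positivity) hRP hRQ rfl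
  refine h4.trans ?_
  have e6 : (D / 4 + D / 4) * (J : ℝ) ≤ t / 2 * J := mul_le_mul_of_nonneg_right (by linarith) hJ0
  linarith

end Pool.TOP
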