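import Pool.Agent.H27.TOP.Gsq
import Pool.Agent.H54.GN.NoLb

/-!
# The steepest direction of a closed label

`slope`: on a large event the gradient of a closed label has a constant size, also on the balls of
radius `2 ^ (-u J)`, and if it is large, a coordinate which is not the active one has almost the
largest derivative.
-/

set_option autoImplicit false

namespace Pool.TOP

open Finset Real MvPolynomial
open Pool.Agent.H49.Ent Pool.Agent.H32.Dense Pool.STK Pool.KA Pool.KSAT Pool.K2S Pool.PB Pool.S6C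
open Pool.GEN Pool.ONE
open Pool.GRD (LbP)
open Pool.FLF (Fam.sub)

variable {m n J : ℕ}

/-- Pigeonhole. -/
theorem pe_pig {Ω κ : Type} [Fintype Ω] [Fintype κ] [Nonempty κ] {p : Ω → ℝ}
    (k : Ω → κ) (A : Ω → Prop) :
    ∃ k₀, Pe p A / Fintype.card κ ≤ Pe p (fun ω => A ω ∧ k ω = k₀) := by
  classical
  by_contra hcon
  push Not at hcon
  have hMr : (0 : ℝ) < Fintype.card κ := by exact_mod_cast Fintype.card_pos
  have h1 : Pe p A = ∑ i : κ, Pe p (fun ω => A ω ∧ k ω = i) := by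
    simp only [Pe_eq]
    rw [Finset.sum_comm]
    refine Finset.sum_congr rfl fun ω _ => ?_
    rw [Finset.sum_eq_single (k ω)]
    · by_cases hA : A ω
      · rw [if_pos hA, if_pos ⟨hA, rfl⟩]
      · rw [if_neg hA, if_neg (fun h => hA h.1)]
    · intro i _ hi
      rw [if_neg (fun h => hi h.2.symm)]
    · intro h
      exact absurd (Finset.mem_univ _) h
  have h2 : ∑ i : κ, Pe p (fun ω => A ω ∧ k ω = i) < ∑ _i : κ, Pe p A / Fintype.card κ :=
    Finset.sum_lt_sum_of_nonempty Finset.univ_nonempty fun i _ => hcon i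
  rw [Finset.sum_const, Finset.card_univ, nsmul_eq_mul, ← h1,
    mul_div_cancel₀ _ hMr.ne'] at h2
  exact lt_irrefl _ h2

/-- Statements about all members hold for all events of the members of probability at least `η'`. -/
theorem bas_ev {S : PCl m} {Φ : Stat m} (h : Bas S Φ) {η' : ℝ} (hη : 0 < η') :
    Bas S (fun J F A => ∀ B : F.Ω → Prop, Sub B A → η' * Pe F.p A ≤ Pe F.p B → Φ J F B) := by
  obtain ⟨τ, hτ, J₁, h⟩ := h
  obtain ⟨J₂, hJ₂⟩ := exists_nat_ge (-Real.log η' / (τ / 2))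
  refine ⟨τ / 2, by positivity, max J₁ J₂, fun J hJ F A hA B hB hP => ?_⟩
  refine h J ((le_max_left _ _).trans hJ) F B ?_
  have h1 := S.res (τ := τ / 2) (τ' := τ / 2) (by positivity) hA hB (by
    refine le_trans (mul_le_mul_of_nonneg_right ?_ (Pe_nonneg F.isLaw A)) hP
    have hJ' : (J₂ : ℝ) ≤ J := by exact_mod_cast (le_max_right _ _).trans hJ
    have h2 : -Real.log η' / (τ / 2) ≤ J := hJ₂.trans hJ'
    rw [div_le_iff₀ (by positivity)] at h2
    have h3 : -(τ / 2 * (J : ℝ)) ≤ Real.log η' := by linarith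
    exact (Real.exp_le_exp.2 h3).trans (Real.exp_log hη).le)
  rwa [add_halves] at h1

/-- **The velocities**, for classes. -/
theorem vel_cls {S : PCl m} {C₀ : ℝ} (hC₀ : 0 ≤ C₀) (htm : TmC S C₀) {w : ℝ} (hw0 : 0 ≤ w) (hw : w < 1)
    (k : Fin m) (K : ℕ) {δ : ℝ} (hδ : 0 < δ) :
    Bas S (fun J F A => ∀ (P : ℕ) (G : LnT F → MvPolynomial (Option (Fin m)) ℝ),
      ⌊w * J⌋₊ ≤ P → (∀ s, (G s).totalDegree ≤ K) →
      (∀ ω, A ω → |F.x ω k - eval (bt F ω) (G (slam F ⌊w * J⌋₊ ω))| ≤ 1 / 2 ^ P) →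
      ∃ B : F.Ω → Prop, Sub B A ∧ 1 / 2 * Pe F.p A ≤ Pe F.p B ∧ ∀ ω, B ω →
        |F.d ω k - ∑ o, bd F ω o * eval (bt F ω) (pderiv o (G (slam F ⌊w * J⌋₊ ω)))| ≤
          Real.exp (δ * J)) := by
  obtain ⟨C, hC, hvel⟩ := Pool.GRD.vel_one m K
  have hl2 : 0 < Real.log 2 := Real.log_pos one_lt_two
  have hC0 : 0 < C := by linarith
  obtain ⟨δ', hδ'⟩ : ∃ δ' : ℝ, δ' = min δ ((1 - w) * Real.log 2) := ⟨_, rfl⟩
  have hδ'0 : 0 < δ' := by
    rw [hδ']
    exact lt_min hδ (mul_pos (by linarith) hl2)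
  obtain ⟨τ, hτ⟩ : ∃ τ : ℝ, τ = δ' / (2 * C * (C₀ + 1)) := ⟨_, rfl⟩
  have hτ0 : 0 < τ := by
    rw [hτ]
    positivity
  have hτ1 : C * (C₀ * τ) ≤ δ' / 2 := by
    have e1 : C * ((C₀ + 1) * τ) = δ' / 2 := by
      rw [hτ]
      field_simp
    rw [← e1]
    refine mul_le_mul_of_nonneg_left (mul_le_mul_of_nonneg_right (by linarith) hτ0.le) hC0.le
  obtain ⟨J₁, hJ₁⟩ := exists_nat_ge (C / (δ' / 2))
  refine ⟨τ, hτ0, J₁, fun J hJ F A hA P G hP hG hpos => ?_⟩
  have hJ0 : (0 : ℝ) ≤ J := Nat.cast_nonneg J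
  have hJ1 : C ≤ δ' / 2 * J := by
    have e1 : C / (δ' / 2) ≤ J := hJ₁.trans (by exact_mod_cast hJ)
    rw [div_le_iff₀ (by positivity)] at e1
    linarith
  have hpA := tmc_pos htm hτ0 hA
  have hTm := tmc_sub htm hτ0 hA hpA
  have h1 : C * (C₀ * τ * J + 1) ≤ δ' * J := by
    have e1 := mul_le_mul_of_nonneg_right hτ1 hJ0
    have e2 : C * (C₀ * τ * J + 1) = C * (C₀ * τ) * J + C := by ring
    rw [e2]
    linarith
  have hd1 : δ' ≤ δ := by
    rw [hδ']
    exact min_le_left _ _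
  have hd2 : δ' ≤ (1 - w) * Real.log 2 := by
    rw [hδ']
    exact min_le_right _ _
  have hwJ : ⌊w * J⌋₊ ≤ J := by
    refine Nat.floor_le_of_le ?_
    nlinarith
  have hwf : ((⌊w * J⌋₊ : ℕ) : ℝ) ≤ w * J := Nat.floor_le (by positivity)
  have h2 : C * (C₀ * τ * J + 1) ≤ ((J : ℝ) - (⌊w * J⌋₊ : ℕ)) * Real.log 2 := by
    refine h1.trans ?_
    calc δ' * J ≤ (1 - w) * Real.log 2 * J := mul_le_mul_of_nonneg_right hd2 hJ0
      _ = (J - w * J) * Real.log 2 := by ring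
      _ ≤ _ := mul_le_mul_of_nonneg_right (by linarith) hl2.le
  obtain ⟨B, hBA, hPB, hB⟩ := hvel J F A hpA ⌊w * J⌋₊ G k (1 / 2 ^ P) (C₀ * τ * J) hwJ hG
    (by positivity) (by positivity) hTm h2 hpos
  refine ⟨B, hBA, by linarith, fun ω hω => (hB ω hω).trans ?_⟩
  have h3 : (2 : ℝ) ^ ⌊w * J⌋₊ * (1 / 2 ^ P) ≤ 1 := by
    rw [mul_one_div, div_le_one (by positivity)]
    exact pow_le_pow_right₀ (by norm_num) hP
  calc Real.exp (C * (C₀ * τ * J + 1)) * 2 ^ ⌊w * J⌋₊ * (1 / 2 ^ P) =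
        Real.exp (C * (C₀ * τ * J + 1)) * (2 ^ ⌊w * J⌋₊ * (1 / 2 ^ P)) := by ring
    _ ≤ Real.exp (C * (C₀ * τ * J + 1)) * 1 :=
        mul_le_mul_of_nonneg_left h3 (Real.exp_pos _).le
    _ ≤ Real.exp (δ * J) := by
        rw [mul_one]
        exact Real.exp_le_exp.2 (h1.trans (mul_le_mul_of_nonneg_right hd1 hJ0))

/-- The bins of the size of the gradient. -/
noncomputable def bin (δ : ℝ) (J : ℕ) (y : ℝ) : ℕ := ⌈Real.log y / (2 * (δ * J))⌉₊

theorem le_bin {δ y : ℝ} {J : ℕ} (hδ : 0 < δ) (hJ : 0 < J) (hy : 0 ≤ y) :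
    y ≤ Real.exp (bin δ J y * δ * J) ^ 2 := by
  have hJ' : (0 : ℝ) < J := by exact_mod_cast hJ
  rcases hy.eq_or_lt with h | h
  · rw [← h]
    positivity
  · have h1 := Nat.le_ceil (Real.log y / (2 * (δ * J)))
    rw [div_le_iff₀ (by positivity)] at h1
    rw [← Real.exp_nat_mul]
    calc y = Real.exp (Real.log y) := (Real.exp_log h).symm
      _ ≤ _ := Real.exp_le_exp.2 (by
        unfold bin
        push_cast
        linarith)

theorem bin_lt {δ y : ℝ} {J : ℕ} (hδ : 0 < δ) (hJ : 0 < J) (hy : 0 ≤ y) (hb : 1 ≤ bin δ J y) :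
    Real.exp ((bin δ J y * δ - δ) * J) ^ 2 ≤ y := by
  have hJ' : (0 : ℝ) < J := by exact_mod_cast hJ
  have h0 : 0 < y := by
    rcases hy.eq_or_lt with h | h
    · rw [← h] at hb
      unfold bin at hb
      rw [Real.log_zero, zero_div, Nat.ceil_zero] at hb
      omega
    · exact h
  have h1 : Real.log y / (2 * (δ * J)) > bin δ J y - 1 := by
    unfold bin at hb ⊢
    have h2 : 0 ≤ Real.log y / (2 * (δ * J)) := by
      by_contra h3
      push Not at h3
      rw [Nat.ceil_eq_zero.2 h3.le] at hb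
      omega
    have h3 := Nat.ceil_lt_add_one h2
    linarith
  rw [gt_iff_lt, lt_div_iff₀ (by positivity)] at h1
  rw [← Real.exp_nat_mul]
  calc Real.exp ((2 : ℕ) * ((bin δ J y * δ - δ) * J)) ≤ Real.exp (Real.log y) :=
        Real.exp_le_exp.2 (by
          push_cast
          linarith)
    _ = y := Real.exp_log h0

theorem bin_le {δ y L : ℝ} {J M : ℕ} (hδ : 0 < δ) (hJ : 0 < J) (hL : 0 ≤ L)
    (hy : y ≤ Real.exp (L * J) ^ 2) (hy0 : 0 ≤ y) (hM : L / δ ≤ M) : bin δ J y ≤ M := by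
  have hJ' : (0 : ℝ) < J := by exact_mod_cast hJ
  unfold bin
  refine Nat.ceil_le.2 ?_
  rw [div_le_iff₀ (by positivity)]
  rw [div_le_iff₀ hδ] at hM
  have h1 : Real.log y ≤ 2 * (L * J) := by
    rcases hy0.eq_or_lt with h | h
    · rw [← h, Real.log_zero]
      positivity
    · have h2 := Real.log_le_log h hy
      rwa [Real.log_pow, Real.log_exp] at h2
  have h2 : L * (J : ℝ) ≤ M * δ * J := mul_le_mul_of_nonneg_right hM hJ'.le
  linarith

end Pool.TOP
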