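import Pool.Agent.H1.GEN.One
import Pool.Agent.H45.EXA.Vgr
import Pool.Agent.H99.GEN.GrC

/-!
# The rows of the last coordinate over a proper subset of the other coordinates: statements

`LbR R`: closed labels which are stable under a perturbation of the point by `R` cells (`R = 0`:
the labels `Pool.GRD.LbP`). `rowH`: the entropy of the digits of the coordinate `k` behind the first
`Q`, given all digits of the coordinates in `I` and a function `z`.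
`RowN n`: the rows above the thresholds of a class are full.
`RT n`: in a class in which the coordinate `n - 1` has no label over the others with the precision
`Q` at small windows, the rows above `Q` are full. `RZ n`: the same for a family with side
information. `RW n`: the same at every window, given any closed function, for `n` coordinates of a
class of any dimension.
-/

set_option autoImplicit false

namespace Pool.TOP

open Finset Real MvPolynomial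
open Pool.Agent.H49.Ent Pool.Agent.H32.Dense Pool.STK Pool.KA Pool.KSAT Pool.K2S Pool.PB Pool.S6C
open Pool.GEN Pool.ONE
open Pool.GRD (LbP)

variable {m n J : ℕ}

/-- **Closed labels which are stable** under a perturbation of the point by `R` cells. -/
structure LbROK (R : ℝ) (F : Fam m J) (I : Finset (Fin m)) (k : Fin m) (K w P : ℕ)
    (A : F.Ω → Prop) {V : Type} (z : PtT F → V) (z' : LnT F → V)
    (G : V → MvPolynomial (Option (Fin m)) ℝ) : Prop where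
  deg : ∀ v, (G v).totalDegree ≤ K
  dep : ∀ v, ∀ b b' : Option (Fin m) → ℝ, b none = b' none →
    (∀ i ∈ I, b (some i) = b' (some i)) → eval b (G v) = eval b' (G v)
  cls : ∀ ω, A ω → z (ptr F J ω) = z' (slam F w ω)
  pos : ∀ ω, A ω → ∀ b : Option (Fin m) → ℝ, (∀ o, |b o - bt F ω o| ≤ R / 2 ^ J) →
    |F.x ω k - eval b (G (z' (slam F w ω)))| ≤ 1 / 2 ^ P

/-- There is a stable closed label. -/
def LbR (R : ℝ) (F : Fam m J) (I : Finset (Fin m)) (k : Fin m) (K w P : ℕ)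
    (A : F.Ω → Prop) : Prop :=
  ∃ (V : Type) (z : PtT F → V) (z' : LnT F → V) (G : V → MvPolynomial (Option (Fin m)) ℝ),
    LbROK R F I k K w P A z z' G

/-- The coordinates in `I`. -/
def ub (I : Finset (Fin m)) (x : Fin m → ℤ) : Fin m → ℤ := fun l => if l ∈ I then x l else 0

/-- The entropy of the digits of `k` behind the first `Q`, given all digits of the coordinates in
`I` and the function `z`. -/
noncomputable def rowH (F : Fam m J) (A : F.Ω → Prop) (k : Fin m) (I : Finset (Fin m)) (Q : ℕ)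
    {V : Type} (z : F.Ω → V) : ℝ :=
  CH (Pool.Agent.H49.Ent.cond F.p A True) (fun ω => F.X J ω k)
    (fun ω => (F.X Q ω k, (ub I (F.X J ω), (z ω, F.W ω))))

/-- **The rows above the thresholds are full.** -/
def RowN (n : ℕ) : Prop := LocN n fun P r => ∀ w : ℝ, 0 < w → w ≤ 1 →
  1 - P w w ≤ r 1 - r (P w w)

/-- The classes. -/
structure ClB {n : ℕ} (N : ℚ → ℚ → ℝ) (S : PCl n) : Prop where
  ne : S.Ne
  mem : ∀ (τ : ℝ) (J : ℕ) (F : Fam n J) (A : F.Ω → Prop), S.St τ J F A → F.Tr ∧ F.Tm (τ * J) ∧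
    F.Rb (τ * J) ∧ Real.exp (-(τ * J)) ≤ Pe F.p A ∧ Gd F ∧ Zc F
  actb : ∀ k : Fin n, (k : ℕ) = 0 → ActB N S k

/-- **The rows of a class.** -/
def RT (n : ℕ) : Prop :=
  ∀ hn : 2 ≤ n, ∀ (al : ℝ) (g₀ : ℝ → ℝ), 0 < al → (∀ ε : ℝ, 0 < ε → 0 < g₀ ε) →
    ∀ N : ℚ → ℚ → ℝ, ActM N al g₀ → ∀ R Q d ρ : ℝ, 0 ≤ R → 0 ≤ Q → Q ≤ 1 → 0 < d → 0 < ρ →
    ∀ S : PCl n, ClB N S →
    (∀ K : ℕ, Bas S (fun J F A =>
      ¬ LbR R F (univ.erase (lst hn)) (lst hn) K ⌊d * J⌋₊ ⌊Q * J⌋₊ A)) →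
    ¬ Bas S (fun J F A => rowH F A (lst hn) (univ.erase (lst hn)) ⌊Q * J⌋₊ (fun _ => ()) ≤
      (1 - Q - ρ) * Real.log 2 * J)

/-- The list of the bad properties. -/
def RBad {n : ℕ} (hn : 2 ≤ n) (N : ℚ → ℚ → ℝ) (R Q d : ℝ) (i : ℕ) : Stat n := fun J G B =>
  (∃ (q q' : ℚ) (k : Fin n), (k : ℕ) = 0 ∧ Encodable.encode (q, q') ≤ i ∧ 0 ≤ q ∧ q ≤ q' ∧
    q' ≤ 1 ∧ ActF N q q' (1 / ((i : ℝ) + 1)) k J G B) ∨
  LbR R G (univ.erase (lst hn)) (lst hn) i ⌊d * J⌋₊ ⌊Q * J⌋₊ B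

/-- **The rows of a family with side information.** -/
def RZ (n : ℕ) : Prop :=
  ∀ hn : 2 ≤ n, ∀ (al : ℝ) (g₀ : ℝ → ℝ), 0 < al → (∀ ε : ℝ, 0 < ε → 0 < g₀ ε) →
    ∀ N : ℚ → ℚ → ℝ, ActM N al g₀ → ∀ R Q d ρ : ℝ, 0 ≤ R → 0 ≤ Q → Q ≤ 1 → 0 < d → 0 < ρ →
    ∀ ψ : ℕ → ℝ, (∀ i, 0 < ψ i) → ∃ η : ℝ, 0 < η ∧ ∃ M J₁ : ℕ, ∀ J ≥ J₁,
    ∀ G : Fam n J, G.Tm (η * J) → Gd G →
    (∃ i ≤ M, ∃ B : G.Ω → Prop, Real.exp (-(3 * ψ i * J)) ≤ Pe G.p B ∧
      RBad hn N R Q d i J G B) ∨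
    (1 - Q - ρ) * Real.log 2 * J ≤ rowH G (fun _ => True) (lst hn) (univ.erase (lst hn))
      ⌊Q * J⌋₊ (fun _ => ())

/-- **The rows at any window**, given any closed function. -/
def RW (n : ℕ) : Prop :=
  ∀ (al : ℝ) (g₀ : ℝ → ℝ), 0 < al → (∀ ε : ℝ, 0 < ε → 0 < g₀ ε) →
    ∀ N : ℚ → ℚ → ℝ, ActM N al g₀ → ∀ (m : ℕ) (C₀ : ℝ) (S : PCl m), 0 ≤ C₀ → TmC S C₀ →
    ∀ (I : Finset (Fin m)) (k κ : Fin m), k ∉ I → κ ∈ I → I.card + 1 = n → ActB N S κ →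
    ∀ R w Q d ρ : ℝ, 0 ≤ R → 0 < w → w ≤ Q → Q ≤ 1 → 0 < d → w + d < 1 → 0 < ρ →
    (∀ K : ℕ, Bas S (fun J F A => ¬ LbR R F I k K ⌊(w + d) * J⌋₊ ⌊Q * J⌋₊ A)) →
    Bas S (fun J F A => ∀ (V : Type) (z : PtT F → V) (z' : LnT F → V),
      (∀ ω, A ω → z (ptr F J ω) = z' (slam F ⌊w * J⌋₊ ω)) →
      (1 - Q - ρ) * Real.log 2 * J ≤ rowH F A k I ⌊Q * J⌋₊ (fun ω => z' (slam F ⌊w * J⌋₊ ω)))

end Pool.TOP
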