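import Pool.Agent.H27.TOP.Slq
import Pool.Agent.H63.TOP.Ent

/-!
# Steep closed labels determine another coordinate

`lab_ch`: a closed label with a large derivative in the direction `i` determines the digits of the
coordinate `i`, given the other coordinates, the digits of the coordinate of the label and the
label. `steep`: the class form, with the steepest direction.
-/

set_option autoImplicit false

namespace Pool.TOP

open Finset Real MvPolynomial
open Pool.Agent.H49.Ent Pool.Agent.H32.Dense Pool.STK Pool.KA Pool.KSAT Pool.K2S Pool.PB Pool.S6C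
open Pool.GEN Pool.ONE
open Pool.GRD (LbP)
open Pool.FLF (Fam.sub)

variable {m n J : ℕ}

/-- The point in which the coordinate `i` is free. -/
noncomputable def fpt (J : ℕ) (i : Fin m) (T : ℕ) (b : Fin m → ℤ) :
    Option (Fin m) → Polynomial ℝ := fun o => match o with
  | none => Polynomial.C ((T : ℝ) / 2 ^ J)
  | some j => if j = i then Polynomial.X else Polynomial.C ((b j : ℝ) / 2 ^ J)

theorem fpt_deg (J : ℕ) (i : Fin m) (T : ℕ) (b : Fin m → ℤ) (o : Option (Fin m)) :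
    (fpt J i T b o).natDegree ≤ 1 := by
  unfold fpt
  rcases o with - | j
  · rw [Polynomial.natDegree_C]
    exact Nat.zero_le _
  · simp only
    split_ifs
    · exact Polynomial.natDegree_X_le
    · rw [Polynomial.natDegree_C]
      exact Nat.zero_le _

/-- The evaluation. -/
noncomputable def fev (J : ℕ) (i : Fin m) (T : ℕ) (b : Fin m → ℤ) (x : ℝ) : Option (Fin m) → ℝ := fun o =>
  match o with
  | none => (T : ℝ) / 2 ^ J
  | some j => if j = i then x else (b j : ℝ) / 2 ^ J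

theorem fpt_eval (J : ℕ) (i : Fin m) (T : ℕ) (b : Fin m → ℤ) (x : ℝ)
    (Q : MvPolynomial (Option (Fin m)) ℝ) :
    (MvPolynomial.aeval (fpt J i T b) Q).eval x = eval (fev J i T b x) Q := by
  rw [Pool.KBX.eval_aeval_poly]
  congr 1
  congr 1
  funext o
  unfold fpt fev
  rcases o with - | j
  · simp
  · simp only
    split_ifs <;> simp

theorem fpt_der (J : ℕ) (i : Fin m) (T : ℕ) (b : Fin m → ℤ) (x : ℝ)
    (Q : MvPolynomial (Option (Fin m)) ℝ) :
    (Polynomial.derivative (MvPolynomial.aeval (fpt J i T b) Q)).eval x =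
      eval (fev J i T b x) (pderiv (some i) Q) := by
  classical
  rw [der_aevalσ, Polynomial.eval_finsetSum, Finset.sum_eq_single (some i)]
  · rw [Polynomial.eval_mul, fpt_eval]
    have h1 : Polynomial.derivative (fpt J i T b (some i)) = 1 := by
      unfold fpt
      simp
    rw [h1, Polynomial.eval_one, mul_one]
  · intro o _ ho
    have h1 : Polynomial.derivative (fpt J i T b o) = 0 := by
      unfold fpt
      rcases o with - | j
      · simp
      · have hj : j ≠ i := fun h => ho (by rw [h])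
        simp [hj]
    rw [h1, mul_zero, Polynomial.eval_zero]
  · intro h
    exact absurd (Finset.mem_univ _) h

/-- The point with the centres of the cells. -/
theorem fev_near (F : Fam m J) (i : Fin m) (ω : F.Ω) (o : Option (Fin m)) :
    |fev J i (F.T ω) (F.X J ω) (F.x ω i) o - bt F ω o| ≤ 1 / 2 ^ J := by
  rcases o with - | j
  · have : fev J i (F.T ω) (F.X J ω) (F.x ω i) none = bt F ω none := rfl
    rw [this, sub_self, abs_zero]
    positivity
  · by_cases hj : j = i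
    · subst hj
      have : fev J j (F.T ω) (F.X J ω) (F.x ω j) (some j) = F.x ω j := if_pos rfl
      have e2 : bt F ω (some j) = F.x ω j := rfl
      rw [this, e2, sub_self, abs_zero]
      positivity
    · have h1 := rp_near F ω (some j)
      have e1 : fev J i (F.T ω) (F.X J ω) (F.x ω i) (some j) =
          rp J (F.X J ω, F.W ω) (some j) := if_neg hj
      rw [e1]
      exact h1

/-- **A steep closed label determines another coordinate.** -/
theorem lab_ch (m K : ℕ) : ∃ C : ℝ, 1 ≤ C ∧ ∀ (J : ℕ) (F : Fam m J) (B : F.Ω → Prop)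
    (_ : 0 < Pe F.p B) (I : Finset (Fin m)) (k i : Fin m) (w P Q U : ℕ) (V : Type)
    (z : PtT F → V) (z' : LnT F → V) (G : V → MvPolynomial (Option (Fin m)) ℝ) (a s : ℝ),
    LbP F I k K J w P B z z' G → U ≤ J → 0 ≤ a → 0 < s →
    (∀ ω, B ω → ∀ b : Option (Fin m) → ℝ, (∀ o, |b o - bt F ω o| ≤ 2 * (1 / 2 ^ U)) →
      ∀ o, |eval b (pderiv o (G (z' (slam F w ω))))| ≤ a) →
    (∀ ω, B ω → s ≤ |eval (bt F ω) (pderiv (some i) (G (z' (slam F w ω))))|) →
    C * a * (2 ^ U / 2 ^ J) ≤ s / 2 →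
    CH (Pool.Agent.H49.Ent.cond F.p B True) (fun ω => F.X J ω i)
      (fun ω => (F.X Q ω k, (ub (I.erase i) (F.X J ω), (z' (slam F w ω), F.W ω)))) ≤
      Real.log (4 * K + 1) +
        Real.log (16 * ((2 ^ J / 2 ^ P + 2 ^ J / 2 ^ Q + (m + 1) * a) / s) + 3) := by
  classical
  obtain ⟨Cv, hCv, hvar⟩ := var_pd m K
  refine ⟨Cv * 2, by linarith, ?_⟩
  intro J F B hB I k i w P Q U V z z' G a s hL hU ha hs hsup hlow hsm
  have hq := isLaw_cond F.isLaw hB
  have hqB : ∀ ω, 0 < Pool.Agent.H49.Ent.cond F.p B True ω → B ω := by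
    intro ω hω
    exact of_eq_true ((cond_pos_iff F.isLaw.nonneg B True ω).1 hω).2
  have pJ : (0 : ℝ) < 2 ^ J := by positivity
  have key := Pool.TOP63.cnt_slope (q := Pool.Agent.H49.Ent.cond F.p B True) hq.nonneg hq.sum_one
    (fun ω => (F.X Q ω k, (ub (I.erase i) (F.X J ω), (z' (slam F w ω), F.W ω))))
    (fun ω => F.x ω i) J K
    (fun c => MvPolynomial.aeval (fpt J i c.2.2.2.1 c.2.1) (G c.2.2.1))
    (fun c => (c.1 : ℝ) / 2 ^ Q) (δ := 1 / 2 ^ P + 1 / 2 ^ Q + a * ((m + 1) * (1 / 2 ^ J)))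
    (ν := s / 4) (by positivity) (fun c => Pool.KBX.natDegree_aeval_le _ _ (fpt_deg J i _ _)
      (hL.deg _)) (fun ω hω => ?_) (fun ω hω => ?_)
  · refine key.trans (add_le_add le_rfl ?_)
    refine Real.log_le_log (by positivity) ?_
    have e1 : 2 * ((2 : ℝ) ^ J *
        (2 * (1 / 2 ^ P + 1 / 2 ^ Q + a * ((m + 1) * (1 / 2 ^ J))) / (s / 4)) + 1) + 1 =
        16 * ((2 ^ J / 2 ^ P + 2 ^ J / 2 ^ Q + (m + 1) * a) / s) + 3 := by
      field_simp
      ring
    rw [e1]
  all_goals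
    have hBω := hqB ω hω
    have hdep : ∀ Q' : MvPolynomial (Option (Fin m)) ℝ,
        (∀ b b' : Option (Fin m) → ℝ, b none = b' none →
          (∀ i ∈ I, b (some i) = b' (some i)) → eval b Q' = eval b' Q') →
        eval (fev J i (F.T ω) (ub (I.erase i) (F.X J ω)) (F.x ω i)) Q' =
          eval (fev J i (F.T ω) (F.X J ω) (F.x ω i)) Q' := by
      intro Q' hQ'
      refine hQ' _ _ rfl fun j hj => ?_
      by_cases hji : j = i
      · subst hji
        exact (if_pos rfl).trans (if_pos rfl).symm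
      · have e1 : fev J i (F.T ω) (ub (I.erase i) (F.X J ω)) (F.x ω i) (some j) =
            (ub (I.erase i) (F.X J ω) j : ℝ) / 2 ^ J := if_neg hji
        have e2 : fev J i (F.T ω) (F.X J ω) (F.x ω i) (some j) = (F.X J ω j : ℝ) / 2 ^ J :=
          if_neg hji
        have e3 : ub (I.erase i) (F.X J ω) j = F.X J ω j :=
          if_pos (Finset.mem_erase.2 ⟨hji, hj⟩)
        rw [e1, e2, e3]
    have hnear := fev_near F i ω
    have hJU : (1 : ℝ) / 2 ^ J ≤ 1 / 2 ^ U := inv_mono hU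
  · show |(MvPolynomial.aeval (fpt J i (F.T ω) (ub (I.erase i) (F.X J ω)))
      (G (z' (slam F w ω)))).eval (F.x ω i) - (F.X Q ω k : ℝ) / 2 ^ Q| ≤ _
    rw [fpt_eval, hdep _ (hL.dep _)]
    have h1 := mvσ (G (z' (slam F w ω))) (bt F ω) (fev J i (F.T ω) (F.X J ω) (F.x ω i)) a
      (fun y hy o => hsup ω hBω y (fun o' => (hy o').trans ((hnear o').trans (by
        have : (0 : ℝ) < 1 / 2 ^ U := by positivity
        linarith))) o)
    have h2 : ∑ o, |fev J i (F.T ω) (F.X J ω) (F.x ω i) o - bt F ω o| ≤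
        (m + 1) * (1 / 2 ^ J) := by
      refine (Finset.sum_le_card_nsmul _ _ _ fun o _ => hnear o).trans ?_
      rw [nsmul_eq_mul, Finset.card_univ, Fintype.card_option, Fintype.card_fin]
      push_cast
      exact le_rfl
    have h3 := h1.trans (mul_le_mul_of_nonneg_left h2 ha)
    have h4 := hL.pos ω hBω
    have h5 : |F.x ω k - (F.X Q ω k : ℝ) / 2 ^ Q| ≤ 1 / 2 ^ Q := by
      have e1 : F.X Q ω k = ⌊(2 : ℝ) ^ Q * F.x ω k⌋ := rfl
      have pQ : (0 : ℝ) < 2 ^ Q := by positivity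
      have e2 : F.x ω k - (F.X Q ω k : ℝ) / 2 ^ Q =
          (2 ^ Q * F.x ω k - ⌊(2 : ℝ) ^ Q * F.x ω k⌋) / 2 ^ Q := by
        rw [e1]
        field_simp
      rw [e2, abs_div, abs_of_pos pQ]
      refine div_le_div_of_nonneg_right ?_ pQ.le
      have a1 := Int.floor_le ((2 : ℝ) ^ Q * F.x ω k)
      have a2 := Int.lt_floor_add_one ((2 : ℝ) ^ Q * F.x ω k)
      rw [abs_le]
      constructor <;> linarith
    rw [abs_le] at h3 h4 h5 ⊢
    constructor <;> linarith [h3.1, h3.2, h4.1, h4.2, h5.1, h5.2]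
  · show s / 4 < |(Polynomial.derivative (MvPolynomial.aeval
      (fpt J i (F.T ω) (ub (I.erase i) (F.X J ω))) (G (z' (slam F w ω))))).eval (F.x ω i)|
    rw [fpt_der, hdep _ (fun b b' h0 h1 => pd_on (hL.dep _) (some i) h0 h1)]
    have h1 := hvar J U F ω (G (z' (slam F w ω))) (some i) a 1 hU zero_le_one hJU (hL.deg _)
      (fun b hb => hsup ω hBω b hb (some i)) _ hnear
    have h2 := hlow ω hBω
    have h3 := abs_sub_abs_le_abs_sub (eval (bt F ω) (pderiv (some i) (G (z' (slam F w ω)))))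
      (eval (fev J i (F.T ω) (F.X J ω) (F.x ω i)) (pderiv (some i) (G (z' (slam F w ω)))))
    rw [abs_sub_comm] at h3
    have h4 : Cv * (1 + 1) * a * (2 ^ U / 2 ^ J) ≤ s / 2 := by
      refine le_trans (le_of_eq ?_) hsm
      ring
    linarith

/-- The arithmetic of `steep`. -/
theorem steep_arith {m K J P Q : ℕ} {s t' h' X : ℝ} (ht : 0 ≤ t') (hh : 0 ≤ h')
    (hX : X = max (((J : ℝ) - min P Q) * Real.log 2 - s * J) 0) :
    Real.log (4 * K + 1) + Real.log (16 * ((2 ^ J / 2 ^ P + 2 ^ J / 2 ^ Q +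
      (m + 1) * Real.exp ((s + h') * J)) / Real.exp ((s - t') * J)) + 3) ≤
      (Real.log (4 * K + 1) + Real.log (16 * m + 51)) + (X + (t' + h') * J) := by
  have hJ0 : (0 : ℝ) ≤ J := Nat.cast_nonneg J
  have hX0 : 0 ≤ X := by
    rw [hX]
    exact le_max_right _ _
  have hX1 : ((J : ℝ) - min P Q) * Real.log 2 - s * J ≤ X := by
    rw [hX]
    exact le_max_left _ _
  have h1 : (2 : ℝ) ^ J / 2 ^ P + 2 ^ J / 2 ^ Q ≤ 2 * (2 ^ J / 2 ^ (min P Q)) := by
    have e1 : (2 : ℝ) ^ J / 2 ^ P ≤ 2 ^ J / 2 ^ (min P Q) :=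
      div_le_div_of_nonneg_left (by positivity) (by positivity)
        (pow_le_pow_right₀ (by norm_num) (min_le_left _ _))
    have e2 : (2 : ℝ) ^ J / 2 ^ Q ≤ 2 ^ J / 2 ^ (min P Q) :=
      div_le_div_of_nonneg_left (by positivity) (by positivity)
        (pow_le_pow_right₀ (by norm_num) (min_le_right _ _))
    linarith
  have h2 : (2 : ℝ) ^ J / 2 ^ (min P Q) / Real.exp ((s - t') * J) ≤
      Real.exp (X + (t' + h') * J) := by
    rw [two_pow_exp, two_pow_exp, ← Real.exp_sub, ← Real.exp_sub]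
    refine Real.exp_le_exp.2 ?_
    have e1 : 0 ≤ h' * J := mul_nonneg hh hJ0
    have e2 : (J : ℝ) * Real.log 2 - ((min P Q : ℕ) : ℝ) * Real.log 2 - (s - t') * J =
        ((J : ℝ) - ((min P Q : ℕ) : ℝ)) * Real.log 2 - s * J + t' * J := by ring
    have e3 : (t' + h') * (J : ℝ) = t' * J + h' * J := by ring
    rw [e2, e3]
    linarith
  have h3 : Real.exp ((s + h') * J) / Real.exp ((s - t') * J) ≤ Real.exp (X + (t' + h') * J) := by
    rw [← Real.exp_sub]
    refine Real.exp_le_exp.2 ?_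
    have e1 : (s + h') * (J : ℝ) - (s - t') * J = (t' + h') * J := by ring
    rw [e1]
    linarith
  have h4 : 1 ≤ Real.exp (X + (t' + h') * J) := Real.one_le_exp (by positivity)
  have h5 : 16 * (((2 : ℝ) ^ J / 2 ^ P + 2 ^ J / 2 ^ Q +
      (m + 1) * Real.exp ((s + h') * J)) / Real.exp ((s - t') * J)) + 3 ≤
      (16 * m + 51) * Real.exp (X + (t' + h') * J) := by
    have e1 : ((2 : ℝ) ^ J / 2 ^ P + 2 ^ J / 2 ^ Q +
        (m + 1) * Real.exp ((s + h') * J)) / Real.exp ((s - t') * J) ≤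
        2 * (2 ^ J / 2 ^ (min P Q) / Real.exp ((s - t') * J)) +
          (m + 1) * (Real.exp ((s + h') * J) / Real.exp ((s - t') * J)) := by
      rw [add_div, mul_div_assoc]
      refine add_le_add ?_ le_rfl
      rw [← mul_div_assoc]
      exact div_le_div_of_nonneg_right h1 (Real.exp_pos _).le
    have e2 : ((m : ℝ) + 1) * (Real.exp ((s + h') * J) / Real.exp ((s - t') * J)) ≤
        (m + 1) * Real.exp (X + (t' + h') * J) := mul_le_mul_of_nonneg_left h3 (by positivity)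
    have e3 : (16 * (m : ℝ) + 51) * Real.exp (X + (t' + h') * J) =
        16 * (2 * Real.exp (X + (t' + h') * J) + (m + 1) * Real.exp (X + (t' + h') * J)) +
          3 * Real.exp (X + (t' + h') * J) := by ring
    rw [e3]
    linarith
  have h6 := Real.log_le_log (by positivity) h5
  rw [Real.log_mul (by positivity) (Real.exp_pos _).ne', Real.log_exp] at h6
  linarith

/-- **A steep closed label determines another coordinate**, for classes. -/
theorem steep {S : PCl m} {C₀ : ℝ} (hC₀ : 0 ≤ C₀) (htm : TmC S C₀)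
    (hgd : ∀ (τ : ℝ) (J : ℕ) (F : Fam m J) (A : F.Ω → Prop), S.St τ J F A → Gd F)
    {N : ℚ → ℚ → ℝ} {al : ℝ} (hal : 0 < al) (hQ : ActQ N al) {κ : Fin m} (hact : ActB N S κ)
    (I : Finset (Fin m)) (k : Fin m) {w u : ℝ} (hw0 : 0 ≤ w) (hwu : w ≤ u) (hu : u < 1)
    (full : Ful S I w u) (K : ℕ) {t h : ℝ} (ht : 0 < t) (hh : 0 < h) :
    ∃ c : ℝ, 0 < c ∧ Bas S (fun J F A => ∀ (P : ℕ) (V : Type) (z : PtT F → V)
      (z' : LnT F → V) (G : V → MvPolynomial (Option (Fin m)) ℝ), ⌊w * J⌋₊ ≤ P →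
      LbP F I k K J ⌊w * J⌋₊ P A z z' G →
      ∃ (s : ℝ) (B : F.Ω → Prop), 0 ≤ s ∧ s ≤ 3 ∧ Sub B A ∧ c * Pe F.p A ≤ Pe F.p B ∧
        (∀ ω, B ω → eval (bt F ω) (gsq (G (z' (slam F ⌊w * J⌋₊ ω)))) ≤ Real.exp (s * J) ^ 2) ∧
        (∀ ω, B ω → ∀ b : Option (Fin m) → ℝ,
          (∀ o, |b o - bt F ω o| ≤ 2 * (1 / 2 ^ ⌊u * J⌋₊)) →
          ∀ o, |eval b (pderiv o (G (z' (slam F ⌊w * J⌋₊ ω))))| ≤ Real.exp ((s + h) * J)) ∧
        (s ≤ t ∨ ∃ i ∈ I, i ≠ κ ∧ ∀ Q : ℕ, Q ≤ J →
          CH (Pool.Agent.H49.Ent.cond F.p B True) (fun ω => F.X J ω i)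
            (fun ω => (F.X Q ω k, (ub (I.erase i) (F.X J ω),
              (z' (slam F ⌊w * J⌋₊ ω), F.W ω)))) ≤
            max (((J : ℝ) - min P Q) * Real.log 2 - s * J) 0 + t * J)) := by
  have hl2 : 0 < Real.log 2 := Real.log_pos one_lt_two
  obtain ⟨D, hD⟩ : ∃ D : ℝ, D = min t ((1 - u) * Real.log 2) := ⟨_, rfl⟩
  have hD0 : 0 < D := by
    rw [hD]
    exact lt_min ht (mul_pos (by linarith) hl2)
  have hDt : D ≤ t := by
    rw [hD]
    exact min_le_left _ _
  have hDu : D ≤ (1 - u) * Real.log 2 := by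
    rw [hD]
    exact min_le_right _ _
  obtain ⟨h', hh'⟩ : ∃ h' : ℝ, h' = min h (D / 4) := ⟨_, rfl⟩
  have hh'0 : 0 < h' := by
    rw [hh']
    exact lt_min hh (by positivity)
  have hh'h : h' ≤ h := by
    rw [hh']
    exact min_le_left _ _
  have hh'D : h' ≤ D / 4 := by
    rw [hh']
    exact min_le_right _ _
  obtain ⟨c, hc, hsl⟩ := slope hC₀ htm hgd hal hQ hact I k hw0 hwu hu full K
    (t := D / 4) (by positivity) hh'0
  obtain ⟨C, hC, hlab⟩ := lab_ch m K
  obtain ⟨J₁, hJ₁⟩ := exp_big (2 * C) (b := D / 2) (by positivity)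
  obtain ⟨J₂, hJ₂⟩ := exists_nat_ge ((Real.log (4 * K + 1) + Real.log (16 * m + 51)) / (t / 2))
  have hpA : Bas S (fun _ F A => 0 < Pe F.p A) :=
    ⟨1, one_pos, 0, fun J _ F A hA => tmc_pos htm one_pos hA⟩
  refine ⟨c, hc, (hsl.and hpA).mono (max J₁ J₂) ?_⟩
  rintro J hJ F A ⟨h1, hA0⟩ P V z z' G hP hL
  have hJ0 : (0 : ℝ) ≤ J := Nat.cast_nonneg J
  obtain ⟨s, B, hs0, hs3, hBA, hPB, hg, hsup, hor⟩ := h1 P V z z' G hP hL
  refine ⟨s, B, hs0, hs3, hBA, hPB, hg, fun ω hω b hb o => (hsup ω hω b hb o).trans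
    (Real.exp_le_exp.2 (mul_le_mul_of_nonneg_right (by linarith) hJ0)), ?_⟩
  rcases hor with h2 | ⟨i, hi, hiκ, h2⟩
  · exact Or.inl (h2.trans (by linarith))
  refine Or.inr ⟨i, hi, hiκ, fun Q hQJ => ?_⟩
  have hB0 : 0 < Pe F.p B := lt_of_lt_of_le (by positivity) hPB
  have huJ : ⌊u * J⌋₊ ≤ J := by
    refine Nat.floor_le_of_le ?_
    calc u * J ≤ 1 * J := mul_le_mul_of_nonneg_right hu.le hJ0
      _ = J := one_mul _
  have huf : ((⌊u * J⌋₊ : ℕ) : ℝ) ≤ u * J :=
    Nat.floor_le (mul_nonneg (hw0.trans hwu) hJ0)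
  have f1 := hJ₁ J ((le_max_left _ _).trans hJ)
  have f2 : Real.log (4 * K + 1) + Real.log (16 * m + 51) ≤ t / 2 * J := by
    have e1 : (J₂ : ℝ) ≤ J := by exact_mod_cast (le_max_right _ _).trans hJ
    have e2 := hJ₂.trans e1
    rw [div_le_iff₀ (by positivity)] at e2
    linarith
  have h3 := hlab J F B hB0 I k i ⌊w * J⌋₊ P Q ⌊u * J⌋₊ V z z' G (Real.exp ((s + h') * J))
    (Real.exp ((s - D / 4) * J)) (hL.sub hBA) huJ (Real.exp_pos _).le (Real.exp_pos _) hsup h2
    (by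
      have e1 : (2 : ℝ) ^ ⌊u * J⌋₊ / 2 ^ J ≤ Real.exp (-D * J) := by
        rw [two_pow_exp, two_pow_exp, ← Real.exp_sub]
        refine Real.exp_le_exp.2 ?_
        have e1 : (⌊u * J⌋₊ : ℝ) * Real.log 2 ≤ u * J * Real.log 2 :=
          mul_le_mul_of_nonneg_right huf hl2.le
        have e2 := mul_le_mul_of_nonneg_right hDu hJ0
        have e3 : (1 - u) * Real.log 2 * J = J * Real.log 2 - u * J * Real.log 2 := by ring
        linarith
      have e2 : Real.exp ((s + h') * J) * Real.exp (-D * J) * Real.exp (D / 2 * J) ≤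
          Real.exp ((s - D / 4) * J) := by
        rw [← Real.exp_add, ← Real.exp_add]
        refine Real.exp_le_exp.2 ?_
        rw [← add_mul, ← add_mul]
        exact mul_le_mul_of_nonneg_right (by linarith) hJ0
      have e3 : 0 ≤ Real.exp ((s + h') * J) * Real.exp (-D * J) := by positivity
      have e4 := mul_le_mul_of_nonneg_left f1 e3
      have e5 : C * Real.exp ((s + h') * J) * (2 ^ ⌊u * J⌋₊ / 2 ^ J) ≤
          C * Real.exp ((s + h') * J) * Real.exp (-D * J) :=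
        mul_le_mul_of_nonneg_left e1 (by positivity)
      linarith)
  refine h3.trans ?_
  have h4 := steep_arith (m := m) (K := K) (J := J) (P := P) (Q := Q) (s := s) (t' := D / 4)
    (h' := h') (by positivity) hh'0.le rfl
  refine h4.trans ?_
  have e6 : (D / 4 + h') * (J : ℝ) ≤ t / 2 * J := mul_le_mul_of_nonneg_right (by linarith) hJ0
  linarith

end Pool.TOP
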