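import Pool.Agent.H27.TOP.Ty
import Pool.Agent.H9.GEN.Tgs2

/-!
# T2 at a good point

`t1c_of_gpt`: at a good point of all the coordinates without the target no coordinate has a closed
label of a precision above the numbers. `T2c.stc`: the form `Pool.FRN.StC`. `stc_of_gpt`: no steep
closed labels of the target before a good point.
-/

set_option autoImplicit false

namespace Pool.TOP

open Finset Real MvPolynomial
open Pool.Agent.H49.Ent Pool.Agent.H32.Dense Pool.STK Pool.KA Pool.KSAT Pool.K2S Pool.PB Pool.S6C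
open Pool.GEN Pool.ONE Pool.EXW
open Pool.GRD (LbP)
open Pool.LBT (ThrOf)
open Pool.ALL (RateOf)

variable {m n J : ℕ}

/-- The form with the polynomials of the points. -/
theorem T2c.stc {S : PCl m} {k : Fin m} {α Q σ : ℝ} (h : T2c S k α Q σ) :
    Pool.FRN.StC S k α Q σ := by
  intro K ε hε
  refine (h.lit K ε hε).mono 0 ?_
  rintro J - F A h1 p s V z z' G l h2 h3 hl h4 h5 h6 h7 h8
  exact h1 p s h3 ((Nat.le_ceil _).trans (by exact_mod_cast h2)) ⟨V, z, z', G, h4, h5, h6, h7, l,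
    hl, h8⟩

/-- **No good labels at a good point.** -/
theorem t1c_of_gpt {S : PCl m} (hpos : Bas S (fun _ F A => 0 < Pe F.p A)) {N : Fin m}
    {c : ℕ → Fin m} {r : ℕ} {β : ℕ → ℝ} {a w α σ : ℝ} (hw1 : w ≤ 1) (hαw : α ≤ w)
    (hc : Set.InjOn c (Set.Iio r)) (hall : ∀ i, i ≠ N → ∃ j < r, c j = i)
    (hσ : 0 ≤ σ) (hβ : ∀ l < r, β l ≤ σ) (hsort : ∀ i < r, ∀ l ≤ i, β l ≤ β i)
    (hG : Pool.FRN.GPt S c r β a w) : T1c S N α σ := by
  classical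
  intro K ε hε
  obtain ⟨η, hη⟩ : ∃ η : ℝ, η = ε / (2 * (2 + 3 * r)) := ⟨_, rfl⟩
  have hη0 : 0 < η := by
    rw [hη]
    positivity
  have hηε : (2 + 3 * (r : ℝ)) * η = ε / 2 := by
    rw [hη]
    field_simp
  obtain ⟨Kc, K₁, hK₁, hrel⟩ := hG (K + 1) η hη0
  obtain ⟨c₀, hgr⟩ := Pool.FRN.clo_grad r (max Kc (K + 1))
  obtain ⟨J₁, hJ₁⟩ := exists_nat_ge ((c₀ + 3 + 3 * r) / (ε / 2))
  refine (((hrel 1 (1 / 2) one_pos (by norm_num)).and hpos).mono (max 1 J₁) ?_)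
  rintro J hJ F A ⟨⟨B, q, G₁, H, hBA, hPB, hq, hch, hR⟩, hA⟩ l b P hl hb hP ⟨V, z, z', G, hL⟩
  have hJ0 : (0 : ℝ) < J := by exact_mod_cast (le_max_left _ _).trans hJ
  have e1 : (J₁ : ℝ) ≤ J := by exact_mod_cast (le_max_right _ _).trans hJ
  have e2 := hJ₁.trans e1
  rw [div_le_iff₀ (by positivity)] at e2
  have hwJ : ⌊w * J⌋₊ ≤ J := by
    refine Nat.floor_le_of_le ?_
    calc w * J ≤ 1 * J := mul_le_mul_of_nonneg_right hw1 hJ0.le
      _ = J := one_mul _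
  have hbW : b ≤ ⌊w * J⌋₊ :=
    hb.trans (Nat.floor_le_floor (mul_le_mul_of_nonneg_right hαw hJ0.le))
  have hB0 : 0 < Pe F.p B := by
    by_contra h
    push Not at h
    have := mul_le_mul_of_nonneg_left h hK₁.le
    linarith
  have h5 := (hL.win hbW hwJ).sub hBA
  have hdep : ∀ v, DepC c r (G v - X (some l)) := by
    intro v b b' h0 h7
    have h8 : ∀ i, i ≠ N → b (some i) = b' (some i) := by
      intro i hi
      obtain ⟨j, hj, rfl⟩ := hall i hi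
      exact h7 j hj
    rw [map_sub, map_sub, eval_X, eval_X, h8 l hl,
      hL.dep v b b' h0 fun i hi => h8 i (Finset.mem_erase.1 (Finset.mem_erase.1 hi).2).1]
  have hdeg : ∀ v, (G v - X (some l)).totalDegree ≤ K + 1 := by
    intro v
    rw [sub_eq_add_neg]
    refine (totalDegree_add _ _).trans (max_le ((hL.deg v).trans (Nat.le_succ K)) ?_)
    rw [totalDegree_neg, totalDegree_X]
    omega
  obtain ⟨B', hB', hPB', h6⟩ := hR B (fun _ h => h) (by rw [one_mul])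
    (fun y => G (z y) - X (some l))
    (fun s => G (z' (s.1, s.2.1, s.2.2 / 2 ^ (⌊w * J⌋₊ - b))) - X (some l)) P
    (fun y => hdeg _) (fun s => hdeg _) (fun y => hdep _) (fun s => hdep _)
    (fun ω hω => by
      have k1 : z (ptr F J ω) = z' ((slam F ⌊w * J⌋₊ ω).1, (slam F ⌊w * J⌋₊ ω).2.1,
        (slam F ⌊w * J⌋₊ ω).2.2 / 2 ^ (⌊w * J⌋₊ - b)) := h5.cls ω hω
      have k2 := h5.pos ω hω
      rw [k1]
      refine ⟨?_, fun b' _ => ?_⟩
      · rw [map_sub, eval_X, abs_sub_comm]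
        exact k2
      · rw [sub_self, abs_zero]
        positivity)
  obtain ⟨ω, hω⟩ := pe_ex (p := F.p) (B := B') (by
    refine lt_of_lt_of_le ?_ hPB'
    have : (0 : ℝ) < 1 - 1 / 2 := by norm_num
    positivity)
  obtain ⟨j, hj, hcj⟩ := hall l hl
  have k1 := hgr (F := F) (c := c) (a := ⌊a * J⌋₊) (w := ⌊w * J⌋₊) (e := ⌊η * J⌋₊)
    (ν := ⌈2 * η * J⌉₊) (Q := ⌈(σ + η) * J⌉₊) (s := ⌈η * J⌉₊) (p := P) (Kv := fun _ => Kc)
    (q := q) (A := B) (G := G₁) (H := H) (P := G (z (ptr F J ω)) - X (some l)) (ω := ω) hc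
    (fun _ => le_max_left _ _) hch (fun i hi l hl => by
      unfold nlp
      rw [Nat.sub_le_iff_le_add]
      refine Finset.sup_le fun l' hl' => ?_
      obtain ⟨m1, m2⟩ := Finset.mem_Icc.1 hl'
      have m3 := (abs_le.1 (hq l' (lt_of_le_of_lt m2 hi))).2
      have m4 := (abs_le.1 (hq i hi)).1
      have m5 := mul_le_mul_of_nonneg_right (hsort i hi l' m2) hJ0.le
      have m6 := Nat.le_ceil (2 * η * (J : ℝ))
      have m7 : (q l' : ℝ) ≤ ⌈2 * η * J⌉₊ + q i := by linarith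
      exact_mod_cast m7) (fun l hl => by
      have m3 := (abs_le.1 (hq l hl)).2
      have m5 := mul_le_mul_of_nonneg_right (hβ l hl) hJ0.le
      have m6 := Nat.le_ceil ((σ + η) * (J : ℝ))
      have m7 : (q l : ℝ) ≤ ⌈(σ + η) * J⌉₊ := by linarith
      exact_mod_cast m7) (hB' ω hω) ((hdeg _).trans (le_max_right _ _)) (hdep _)
    (fun b' hb' => h6 ω hω b' hb') (bt F ω) (Pool.FRN.own_nbx hch (hB' ω hω)) j hj
  rw [hcj, map_sub, map_sub, pderiv_X, Pi.single_eq_same, map_one,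
    pd_zero (hL.dep _) (fun h => (Finset.mem_erase.1 h).1 rfl), zero_sub, abs_neg, abs_one,
    le_div_iff₀ (by positivity), one_mul] at k1
  have k2 := (pow_le_pow_iff_right₀ (one_lt_two (α := ℝ))).1 k1
  have k3 : (P : ℝ) ≤ ((c₀ + ⌈η * J⌉₊ + ⌈(σ + η) * J⌉₊ +
    (⌊η * J⌋₊ + ⌈2 * η * J⌉₊ + 2) * r : ℕ) : ℝ) := by exact_mod_cast k2
  push_cast at k3
  have f1 := Nat.ceil_lt_add_one (show 0 ≤ η * (J : ℝ) by positivity)
  have f2 := Nat.ceil_lt_add_one (show 0 ≤ (σ + η) * (J : ℝ) by positivity)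
  have f3 := Nat.floor_le (show 0 ≤ η * (J : ℝ) by positivity)
  have f4 := Nat.ceil_lt_add_one (show 0 ≤ 2 * η * (J : ℝ) by positivity)
  have f5 : ((⌊η * J⌋₊ : ℝ) + ⌈2 * η * J⌉₊ + 2) * r ≤ (3 * η * J + 3) * r :=
    mul_le_mul_of_nonneg_right (by linarith) (Nat.cast_nonneg r)
  have f6 : (2 + 3 * (r : ℝ)) * η * J = ε / 2 * J := by rw [hηε]
  have f7 : (σ + ε) * (J : ℝ) = σ * J + ε / 2 * J + ε / 2 * J := by ring
  have f8 : (2 + 3 * (r : ℝ)) * η * J = 2 * (η * J) + 3 * η * J * r := by ring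
  have f9 : (3 * η * J + 3) * (r : ℝ) = 3 * η * J * r + 3 * r := by ring
  have f10 : (σ + η) * (J : ℝ) = σ * J + η * J := by ring
  have f11 : (J : ℝ) * (ε / 2) = ε / 2 * J := mul_comm _ _
  linarith

/-- **No steep closed labels of the target before a good point.** -/
theorem stc_of_gpt (hn : 2 ≤ n) (hZ : ∀ k, 1 ≤ k → k < n → FZX k) (hW : 3 ≤ n → RW (n - 1))
    {al : ℝ} {g₀ : ℝ → ℝ} {s : Fin n → ℝ} {d : ℕ → ℝ} {e : ℝ} {K₀ : ℕ} {N : ℚ → ℚ → ℝ}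
    {S : PCl n} (hal : 0 < al) (hg₀ : ∀ ε : ℝ, 0 < ε → 0 < g₀ ε)
    (hC : ClX s d al g₀ e K₀ N S) {r : ℝ → ℝ} (hr : RateOf S (lst hn) r)
    {c : ℕ → Fin n} {i : ℕ} {β : ℕ → ℝ} {a w w' Q σ : ℝ} (hw : 0 ≤ w) (hww : w < w')
    (hw' : w' ≤ 1) (hQ : w' ≤ Q) (hσ0 : 0 ≤ σ) (hσ : σ < 1)
    (hcD : 1 - σ ≤ 1 - Q - (r 1 - r Q)) (hc : Set.InjOn c (Set.Iio i))
    (hall : ∀ j, j ≠ lst hn → ∃ l < i, c l = j) (hβ : ∀ l < i, β l ≤ σ)
    (hsort : ∀ j < i, ∀ l ≤ j, β l ≤ β j) (hG : Pool.FRN.GPt S c i β a w') :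
    T1c S (lst hn) w' σ ∧ T2c S (lst hn) w Q σ ∧ Pool.FRN.StC S (lst hn) w Q σ := by
  have hT1 := t1c_of_gpt ⟨1, one_pos, 0, fun J _ F A hA => hC.pos 1 J F A hA⟩ hw' le_rfl hc hall
    hσ0 hβ hsort hG
  have hT2 := t2_of_t1 hn hZ hW hal hg₀ hC hr hw hww hw' hQ hσ hcD hT1
  exact ⟨hT1, hT2, hT2.stc⟩

end Pool.TOP
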