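import Pool.Agent.H27.TOP.Tpe

/-!
# No good labels where the rows of the target are not full

`tops : TopS n`, from the rows in smaller dimension.
-/

set_option autoImplicit false

namespace Pool.TOP

open Finset Real MvPolynomial
open Pool.Agent.H49.Ent Pool.Agent.H32.Dense Pool.STK Pool.KA Pool.KSAT Pool.K2S Pool.PB Pool.S6C
open Pool.GEN Pool.ONE Pool.EXW
open Pool.GRD (LbP)
open Pool.LBT (ThrOf)
open Pool.ALL (RateOf)

variable {m n J : ℕ}

/-- **A hereditary property which no subclass has** is absent in the class. -/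
theorem bas_of_no {S : PCl m} {Φ : Stat m} (her : ∀ (J : ℕ) (F : Fam m J), Hered (Φ J F))
    (h : ∀ S' : PCl m, S'.Ne → (∀ (τ : ℝ) (J : ℕ) (F : Fam m J) (A : F.Ω → Prop),
      S'.St τ J F A → S.St τ J F A) → Bas S' Φ → False) :
    Bas S (fun J F A => ¬ Φ J F A) := by
  by_contra hcon
  refine h ⟨fun τ J F A => S.St τ J F A ∧ Φ J F A, fun hτ hA => ⟨S.mono hτ hA.1, hA.2⟩,
    fun hτ hA hB hP => ⟨S.res hτ hA.1 hB hP, her _ _ _ _ hB hA.2⟩⟩ ?_ (fun _ _ _ _ h => h.1)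
    ⟨1, one_pos, 0, fun _ _ _ _ hA => hA.2⟩
  intro τ hτ J₁
  by_contra h2
  refine hcon ⟨τ, hτ, J₁, fun J hJ F A hA hΦ => h2 ⟨J, hJ, F, A, hA, hΦ⟩⟩

/-- **The contradiction.** -/
theorem top_core (hn : 2 ≤ n) (hW : 3 ≤ n → RW (n - 1))
    {al : ℝ} {g₀ : ℝ → ℝ} {s : Fin n → ℝ} {d : ℕ → ℝ} {e : ℝ} {K₀ : ℕ} {N : ℚ → ℚ → ℝ}
    {S : PCl n} (hal : 0 < al) (hg₀ : ∀ ε : ℝ, 0 < ε → 0 < g₀ ε)
    (hC : ClX s d al g₀ e K₀ N S) {P : ℝ → ℝ → ℝ} {r : ℝ → ℝ}
    (hT : ThrOf (tgs (lst hn)) S (fun _ => P)) (hr : RateOf S (lst hn) r)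
    {w u α' Q c : ℝ} (hw0 : 0 < w) (hwα : w < α') (hα' : α' ≤ 1) (hP : P α' α' ≤ Q)
    (hcD : c ≤ 1 - Q - (r 1 - r Q)) (hQc : Q ≤ 1 - c) (hwu : w ≤ u) (hu : u < 1)
    (full : Ful S (univ.erase (lst hn)) w u) (K : ℕ) {η : ℝ} (hη : 0 < η) (hηc : η ≤ c)
    (hrel : Bas S (fun J F A => ∃ (P R : ℕ) (lam Λ : ℝ) (V : Type) (z : PtT F → V)
      (z' : LnT F → V) (G : V → MvPolynomial (Option (Fin n)) ℝ), |lam| ≤ 1 ∧
      (∀ v, (G v).totalDegree ≤ K) ∧
      (∀ v, ∀ b b' : Option (Fin n) → ℝ, b none = b' none →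
        (∀ i ∈ univ.erase (lst hn), b (some i) = b' (some i)) → eval b (G v) = eval b' (G v)) ∧
      (∀ ω, A ω → z (ptr F J ω) = z' (slam F ⌊w * J⌋₊ ω)) ∧
      (∀ ω, A ω → |lam * F.x ω (lst hn) - eval (bt F ω) (G (z' (slam F ⌊w * J⌋₊ ω)))| ≤
        1 / 2 ^ P) ∧
      (2 : ℝ) ^ ⌊w * J⌋₊ / 2 ^ P ≤ Real.exp Λ ∧ |lam| ≤ Real.exp Λ ∧
      (0 ≤ Λ ∨ ∀ ω, A ω → 1 ≤ eval (bt F ω) (gsq (G (z' (slam F ⌊w * J⌋₊ ω))))) ∧ R ≤ P ∧
      (lam = 0 ∨ R ≤ ⌊(Q + η / 8) * J⌋₊) ∧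
      ∀ x : ℝ, 0 ≤ x → (∃ B : F.Ω → Prop, 0 < Pe F.p B ∧ Sub B A ∧ ∀ ω, B ω →
        eval (bt F ω) (gsq (G (z' (slam F ⌊w * J⌋₊ ω)))) ≤ Real.exp (x * J) ^ 2) →
        η / 8 * Real.log 2 * J + Λ < x * J ∧
        ((J : ℝ) - R) * Real.log 2 - x * J ≤ (c - η) * Real.log 2 * J)) : False := by
  classical
  have hl2 : 0 < Real.log 2 := Real.log_pos one_lt_two
  have htm := Pool.GEN.N83.clx_tmc hC
  have hpos : Bas S (fun _ F A => 0 < Pe F.p A) :=
    ⟨1, one_pos, 0, fun J _ F A hA => hC.pos 1 J F A hA⟩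
  have hact : ActB N S (⟨0, by omega⟩ : Fin n) := hC.actb _ rfl
  obtain ⟨c₁, hc₁, hst⟩ := steepR (by norm_num) htm
    (fun τ J F A hA => (hC.mem τ J F A hA).2.2.2.2.1) hal (hC.actm.q hg₀) hact
    (univ.erase (lst hn)) (lst hn) hw0.le hwu hu full K (t := η / 8 * Real.log 2) (by positivity)
  have hen : Bas S (fun J F A => ∀ i : Fin n, i ≠ lst hn → i ≠ ⟨0, by omega⟩ →
      ∀ (V : Type) (z : PtT F → V) (z' : LnT F → V),
      (∀ ω, A ω → z (ptr F J ω) = z' (slam F ⌊w * J⌋₊ ω)) →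
      (1 - Q - (r 1 - r Q) - (Q + η / 8 - Q) - η / 8) * Real.log 2 * J ≤
        CH (Pool.Agent.H49.Ent.cond F.p A True) (fun ω => F.X J ω i)
          (fun ω => (F.X ⌊(Q + η / 8) * J⌋₊ ω (lst hn),
            (ub ((univ.erase (lst hn)).erase i) (F.X J ω),
            (z' (slam F ⌊w * J⌋₊ ω), F.W ω))))) := by
    refine Bas.fin fun i => ?_
    by_cases hi : i ≠ lst hn ∧ i ≠ ⟨0, by omega⟩
    · have hn3 : 3 ≤ n := by
        by_contra hn3
        have h8 := i.2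
        have h9 : (i : ℕ) ≠ 0 := fun h => hi.2 (Fin.ext h)
        refine hi.1 (Fin.ext ?_)
        unfold lst
        simp only
        omega
      exact (top_ent hn hn3 (hW hn3) hal hg₀ hC hT hr hw0 hwα hα' hP (Q' := Q + η / 8)
        (by linarith) (by linarith) (show (0 : ℝ) < η / 8 by positivity) hi.1 hi.2).mono 0
        fun J _ F A h _ _ => h
    · exact ⟨1, one_pos, 0, fun J _ F A _ h1 h2 => absurd ⟨h1, h2⟩ hi⟩
  refine bas_no hC.ne (((hrel.and hst).and ((bas_ev hen hc₁).and hpos)).mono 1 ?_)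
  rintro J hJ F A ⟨⟨⟨P', R, lam, Λ, V, z, z', G, h1, h2, h3, h4, h5, h6, h7, h8, h9, h10, h11⟩,
    h12⟩, h13, hA⟩
  have hJ0 : (0 : ℝ) < J := by exact_mod_cast hJ
  obtain ⟨x, B, hx0, -, hBA, hPB, hg, hor⟩ := h12 P' lam Λ V z z' G h1 h2 h3 h4 h5 h6 h7 h8
  have hB0 : 0 < Pe F.p B := lt_of_lt_of_le (by positivity) hPB
  obtain ⟨h14, h15⟩ := h11 x hx0 ⟨B, hB0, hBA, hg⟩
  rcases hor with h16 | ⟨i, hi, hi0, -, h16⟩
  · linarith
  · have h17 := h16 ⌊(Q + η / 8) * J⌋₊ R h9 h10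
    have h18 := h13 B hBA hPB i (Finset.ne_of_mem_erase hi) hi0 V z z'
      (fun ω hω => h4 ω (hBA ω hω))
    have h19 : max (((J : ℝ) - R) * Real.log 2 - x * J) 0 ≤ (c - η) * Real.log 2 * J :=
      max_le h15 (by
        have : 0 ≤ c - η := by linarith
        positivity)
    have h20 : (c - η / 4) * Real.log 2 * J ≤
        (1 - Q - (r 1 - r Q) - (Q + η / 8 - Q) - η / 8) * Real.log 2 * J :=
      mul_le_mul_of_nonneg_right (mul_le_mul_of_nonneg_right (by linarith) hl2.le) hJ0.le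
    have h21 : (c - η / 4) * Real.log 2 * J = (c - η) * Real.log 2 * J +
        η / 8 * Real.log 2 * J + 5 * η / 8 * Real.log 2 * J := by ring
    have h22 : 0 < 5 * η / 8 * Real.log 2 * J := by positivity
    linarith

/-- The defect of the rows bounds `Q`. -/
theorem q_le {S : PCl m} {k : Fin m} {r : ℝ → ℝ} (hr : RateOf S k r) {Q c : ℝ} (hc : 0 < c)
    (hcD : c ≤ 1 - Q - (r 1 - r Q)) : Q ≤ 1 - c := by
  rcases le_or_gt Q 1 with h | h
  · have := hr.mono h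
    linarith
  · have h1 : |r Q - r 1| ≤ |Q - 1| := by
      have := hr.lip.dist_le_mul Q 1
      rw [NNReal.coe_one, one_mul, Real.dist_eq, Real.dist_eq] at this
      exact this
    rw [abs_of_pos (by linarith : 0 < Q - 1)] at h1
    have h2 := (abs_le.1 h1).2
    linarith

/-- An event of positive probability has a sample. -/
theorem pe_ex {Ω : Type} [Fintype Ω] {p : Ω → ℝ} {B : Ω → Prop} (h : 0 < Pe p B) :
    ∃ ω, B ω := by
  classical
  by_contra h1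
  push Not at h1
  have h2 : Pe p B = 0 := by
    rw [Pe_eq]
    refine Finset.sum_eq_zero fun ω _ => ?_
    rw [if_neg (h1 ω)]
  linarith

/-- The logarithm of a quotient of powers of two. -/
theorem two_div (a b : ℕ) : (2 : ℝ) ^ a / 2 ^ b = Real.exp (((a : ℝ) - b) * Real.log 2) := by
  rw [two_pow_exp, two_pow_exp, ← Real.exp_sub]
  congr 1
  ring

/-- **T1.** -/
theorem t1_of (hn : 2 ≤ n) (hZ : ∀ k, 1 ≤ k → k < n → FZX k) (hW : 3 ≤ n → RW (n - 1))
    {al : ℝ} {g₀ : ℝ → ℝ} {s : Fin n → ℝ} {d : ℕ → ℝ} {e : ℝ} {K₀ : ℕ} {N : ℚ → ℚ → ℝ}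
    {S : PCl n} (hal : 0 < al) (hg₀ : ∀ ε : ℝ, 0 < ε → 0 < g₀ ε)
    (hC : ClX s d al g₀ e K₀ N S) {P : ℝ → ℝ → ℝ} {r : ℝ → ℝ}
    (hT : ThrOf (tgs (lst hn)) S (fun _ => P)) (hr : RateOf S (lst hn) r)
    {α α' Q c : ℝ} (hα : 0 ≤ α) (hαα' : α < α') (hα' : α' ≤ 1) (hP : P α' α' ≤ Q) (hc : 0 < c)
    (hcD : c ≤ 1 - Q - (r 1 - r Q)) : T1c S (lst hn) α (1 - c) := by
  classical
  intro K ε hε
  have hl2 : 0 < Real.log 2 := Real.log_pos one_lt_two
  have key : Bas S (fun J F A => ¬ ∃ (l : Fin n) (a P : ℕ), l ≠ lst hn ∧ a ≤ ⌊α * J⌋₊ ∧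
      (1 - c + ε) * J ≤ P ∧ ∃ (V : Type) (z : PtT F → V) (z' : LnT F → V)
        (G : V → MvPolynomial (Option (Fin n)) ℝ),
        LbP F ((univ.erase (lst hn)).erase l) l K J a P A z z' G) := by
    refine bas_of_no (fun J F A B hB h => ?_) fun S' hS' hs hΦ => ?_
    · obtain ⟨l, a, P, h1, h2, h3, V, z, z', G, h4⟩ := h
      exact ⟨l, a, P, h1, h2, h3, V, z, z', G, h4.sub hB⟩
    obtain ⟨S₂, L, h5, h6, hL⟩ := lamw S' hS'
    have hs2 : ∀ (τ : ℝ) (J : ℕ) (F : Fam n J) (A : F.Ω → Prop), S₂.St τ J F A →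
        S.St τ J F A := fun τ J F A hA => hs τ J F A (h6 τ J F A hA)
    have hC2 := hC.sub h5 hs2
    have hT2 := hT.sub hs2
    have hr2 := hr.sub hs2
    have hQc := q_le hr hc hcD
    obtain ⟨w, hwα, hwα', full⟩ := top_full hn hZ hW hal hg₀ hC2 hT2 hr2 hL hα hαα' hα' hP hc hcD
    have hw0 : 0 < w := by linarith
    have hαP : α' ≤ P α' α' := hT.low () α' α' (by linarith) le_rfl hα'
    obtain ⟨η, hη⟩ : ∃ η : ℝ, η = min ε c := ⟨_, rfl⟩
    have hη0 : 0 < η := by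
      rw [hη]
      exact lt_min hε hc
    have hηε : η ≤ ε := by
      rw [hη]
      exact min_le_left _ _
    have hηc : η ≤ c := by
      rw [hη]
      exact min_le_right _ _
    refine top_core hn hW hal hg₀ hC2 hT2 hr2 hw0 hwα' hα' hP hcD hQc (by linarith)
      (by linarith) full (K + 1) hη0 hηc ?_
    refine (Bas.sub h6 hΦ).mono 1 ?_
    rintro J hJ F A ⟨l, a, P', h1, h2, h3, V, z, z', G, h4⟩
    have hJ0 : (0 : ℝ) < J := by exact_mod_cast hJ
    have hwJ : ⌊w * J⌋₊ ≤ J := by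
      refine Nat.floor_le_of_le ?_
      calc w * J ≤ 1 * J := mul_le_mul_of_nonneg_right (by linarith) hJ0.le
        _ = J := one_mul _
    have haW : a ≤ ⌊w * J⌋₊ :=
      h2.trans (Nat.floor_le_floor (mul_le_mul_of_nonneg_right hwα.le hJ0.le))
    have hWf : (⌊w * J⌋₊ : ℝ) ≤ w * J := Nat.floor_le (by positivity)
    have h5 := h4.win haW hwJ
    have hlI : l ∈ univ.erase (lst hn) := Finset.mem_erase.2 ⟨h1, Finset.mem_univ _⟩
    have hge : ∀ (v : V) (b : Option (Fin n) → ℝ), 1 ≤ eval b (gsq (G v - X (some l))) := by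
      intro v b
      have e1 : eval b (pderiv (some l) (G v - X (some l))) = -1 := by
        rw [map_sub, map_sub, pderiv_X, Pi.single_eq_same, map_one,
          pd_zero (h4.dep v) (fun h => (Finset.mem_erase.1 h).1 rfl) b]
        ring
      have e2 := le_gsq (G v - X (some l)) b (some l)
      rw [e1] at e2
      linarith
    have hΛ : ((⌊w * J⌋₊ : ℝ) - P') * Real.log 2 ≤ -(ε * Real.log 2 * J) := by
      have e1 : (⌊w * J⌋₊ : ℝ) - P' ≤ -(ε * J) := by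
        have e2 : w * (J : ℝ) ≤ (1 - c) * J := mul_le_mul_of_nonneg_right (by linarith) hJ0.le
        have e3 : (1 - c + ε) * (J : ℝ) = (1 - c) * J + ε * J := by ring
        linarith
      have e2 := mul_le_mul_of_nonneg_right e1 hl2.le
      have e3 : -(ε * (J : ℝ)) * Real.log 2 = -(ε * Real.log 2 * J) := by ring
      linarith
    refine ⟨P', P', 0, ((⌊w * J⌋₊ : ℝ) - P') * Real.log 2, V, z,
      fun s => z' (s.1, s.2.1, s.2.2 / 2 ^ (⌊w * J⌋₊ - a)),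
      fun v => G v - X (some l), by rw [abs_zero]; exact zero_le_one, fun v => ?_,
      fun v b b' h0 h7 => ?_, h5.cls, fun ω hω => ?_, (two_div _ _).le, by
        rw [abs_zero]
        exact (Real.exp_pos _).le, Or.inr fun ω _ => hge _ _, le_rfl, Or.inl rfl,
      fun x hx _ => ⟨?_, ?_⟩⟩
    · show (G v - X (some l)).totalDegree ≤ K + 1
      rw [sub_eq_add_neg]
      refine (totalDegree_add _ _).trans (max_le ((h4.deg v).trans (Nat.le_succ K)) ?_)
      rw [totalDegree_neg, totalDegree_X]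
      omega
    · show eval b (G v - X (some l)) = eval b' (G v - X (some l))
      rw [map_sub, map_sub, eval_X, eval_X, h7 l hlI,
        h4.dep v b b' h0 fun i hi => h7 i (Finset.mem_erase.1 hi).2]
    · have h8 := h5.pos ω hω
      show |0 * F.x ω (lst hn) - eval (bt F ω) (G _ - X (some l))| ≤ _
      rw [map_sub, eval_X, zero_mul, zero_sub, neg_sub]
      exact h8
    · have e1 : η / 8 * Real.log 2 * J ≤ ε / 8 * Real.log 2 * J :=
        mul_le_mul_of_nonneg_right (mul_le_mul_of_nonneg_right (by linarith) hl2.le) hJ0.le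
      have e2 : 0 < ε * Real.log 2 * J := by positivity
      have e3 : ε / 8 * Real.log 2 * (J : ℝ) = ε * Real.log 2 * J / 8 := by ring
      have e4 : 0 ≤ x * (J : ℝ) := mul_nonneg hx hJ0.le
      linarith
    · have e1 : ((J : ℝ) - P') ≤ (c - η) * J := by
        have e2 : (1 - c + ε) * (J : ℝ) = J - c * J + ε * J := by ring
        have e3 : η * (J : ℝ) ≤ ε * J := mul_le_mul_of_nonneg_right hηε hJ0.le
        have e4 : (c - η) * (J : ℝ) = c * J - η * J := by ring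
        linarith
      have e2 := mul_le_mul_of_nonneg_right e1 hl2.le
      have e3 : (c - η) * (J : ℝ) * Real.log 2 = (c - η) * Real.log 2 * J := by ring
      have e4 : 0 ≤ x * (J : ℝ) := mul_nonneg hx hJ0.le
      linarith
  refine key.mono 0 ?_
  rintro J - F A h l a P h1 h2 h3 h4
  exact h ⟨l, a, P, h1, h2, h3, h4⟩

/-- **T2.** -/
theorem t2_of (hn : 2 ≤ n) (hZ : ∀ k, 1 ≤ k → k < n → FZX k) (hW : 3 ≤ n → RW (n - 1))
    {al : ℝ} {g₀ : ℝ → ℝ} {s : Fin n → ℝ} {d : ℕ → ℝ} {e : ℝ} {K₀ : ℕ} {N : ℚ → ℚ → ℝ}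
    {S : PCl n} (hal : 0 < al) (hg₀ : ∀ ε : ℝ, 0 < ε → 0 < g₀ ε)
    (hC : ClX s d al g₀ e K₀ N S) {P : ℝ → ℝ → ℝ} {r : ℝ → ℝ}
    (hT : ThrOf (tgs (lst hn)) S (fun _ => P)) (hr : RateOf S (lst hn) r)
    {α α' Q c : ℝ} (hα : 0 ≤ α) (hαα' : α < α') (hα' : α' ≤ 1) (hP : P α' α' ≤ Q) (hc : 0 < c)
    (hcD : c ≤ 1 - Q - (r 1 - r Q)) : T2c S (lst hn) α Q (1 - c) := by
  classical
  intro K ε hε
  have hl2 : 0 < Real.log 2 := Real.log_pos one_lt_two
  have key : Bas S (fun J F A => ¬ ∃ a q y : ℕ, a ≤ ⌊α * J⌋₊ ∧ q ≤ ⌊Q * J⌋₊ ∧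
      (1 - c + ε) * J ≤ q + y ∧ ∃ (V : Type) (z : PtT F → V) (z' : LnT F → V)
        (G : V → MvPolynomial (Option (Fin n)) ℝ),
        LbP F (univ.erase (lst hn)) (lst hn) K J a q A z z' G ∧ ∃ l, l ≠ lst hn ∧ ∀ ω, A ω →
        (2 : ℝ) ^ y ≤ |eval (bt F ω) (pderiv (some l) (G (z' (slam F a ω))))|) := by
    refine bas_of_no (fun J F A B hB h => ?_) fun S' hS' hs hΦ => ?_
    · obtain ⟨a, q, y, h1, h2, h3, V, z, z', G, h4, l, h5, h6⟩ := h
      exact ⟨a, q, y, h1, h2, h3, V, z, z', G, h4.sub hB, l, h5, fun ω hω => h6 ω (hB ω hω)⟩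
    obtain ⟨S₂, L, h5, h6, hL⟩ := lamw S' hS'
    have hs2 : ∀ (τ : ℝ) (J : ℕ) (F : Fam n J) (A : F.Ω → Prop), S₂.St τ J F A →
        S.St τ J F A := fun τ J F A hA => hs τ J F A (h6 τ J F A hA)
    have hC2 := hC.sub h5 hs2
    have hT2 := hT.sub hs2
    have hr2 := hr.sub hs2
    have hQc := q_le hr hc hcD
    obtain ⟨w, hwα, hwα', full⟩ := top_full hn hZ hW hal hg₀ hC2 hT2 hr2 hL hα hαα' hα' hP hc hcD
    have hw0 : 0 < w := by linarith
    have hαP : α' ≤ P α' α' := hT.low () α' α' (by linarith) le_rfl hα'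
    obtain ⟨η, hη⟩ : ∃ η : ℝ, η = min ε c := ⟨_, rfl⟩
    have hη0 : 0 < η := by
      rw [hη]
      exact lt_min hε hc
    have hηε : η ≤ ε := by
      rw [hη]
      exact min_le_left _ _
    have hηc : η ≤ c := by
      rw [hη]
      exact min_le_right _ _
    refine top_core hn hW hal hg₀ hC2 hT2 hr2 hw0 hwα' hα' hP hcD hQc (by linarith)
      (by linarith) full K hη0 hηc ?_
    refine (Bas.sub h6 hΦ).mono 1 ?_
    rintro J hJ F A ⟨a, q, y, h1, h2, h3, V, z, z', G, h4, l, hl, hy⟩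
    have hJ0 : (0 : ℝ) < J := by exact_mod_cast hJ
    have hwJ : ⌊w * J⌋₊ ≤ J := by
      refine Nat.floor_le_of_le ?_
      calc w * J ≤ 1 * J := mul_le_mul_of_nonneg_right (by linarith) hJ0.le
        _ = J := one_mul _
    have haW : a ≤ ⌊w * J⌋₊ :=
      h1.trans (Nat.floor_le_floor (mul_le_mul_of_nonneg_right hwα.le hJ0.le))
    have hWf : (⌊w * J⌋₊ : ℝ) ≤ w * J := Nat.floor_le (by positivity)
    have hQ0 : 0 ≤ Q := by linarith
    have hqf : (q : ℝ) ≤ Q * J :=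
      (Nat.cast_le.2 h2).trans (Nat.floor_le (by positivity))
    have h5 := h4.win haW hwJ
    have e0 : ∀ ω, z' ((slam F ⌊w * J⌋₊ ω).1, (slam F ⌊w * J⌋₊ ω).2.1,
        (slam F ⌊w * J⌋₊ ω).2.2 / 2 ^ (⌊w * J⌋₊ - a)) = z' (slam F a ω) := fun ω => by
      rw [← slam_coarse F haW hwJ ω]
    refine ⟨q, q, 1, ((⌊w * J⌋₊ - q : ℕ) : ℝ) * Real.log 2, V, z,
      fun s => z' (s.1, s.2.1, s.2.2 / 2 ^ (⌊w * J⌋₊ - a)), G, by rw [abs_one],
      h4.deg, h4.dep, h5.cls, fun ω hω => ?_, ?_, ?_, Or.inl (by positivity), le_rfl,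
      Or.inr ?_, fun x hx hB => ?_⟩
    · rw [one_mul]
      exact h5.pos ω hω
    · rw [two_div]
      refine Real.exp_le_exp.2 (mul_le_mul_of_nonneg_right ?_ hl2.le)
      rw [sub_le_iff_le_add]
      exact_mod_cast (by omega : ⌊w * J⌋₊ ≤ (⌊w * J⌋₊ - q) + q)
    · rw [abs_one]
      exact Real.one_le_exp (by positivity)
    · exact h2.trans (Nat.floor_le_floor (mul_le_mul_of_nonneg_right (by linarith) hJ0.le))
    obtain ⟨B, hB0, hBA, hB⟩ := hB
    obtain ⟨ω, hω⟩ := pe_ex hB0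
    have h7 := abs_le_of_gsq (Real.exp_pos _).le (hB ω hω) (some l)
    simp only [e0 ω] at h7
    have h8 : (y : ℝ) * Real.log 2 ≤ x * J := by
      have e1 := (hy ω (hBA ω hω)).trans h7
      rw [two_pow_exp] at e1
      exact Real.exp_le_exp.1 e1
    have h9 : η / 8 * Real.log 2 * J ≤ ε / 8 * Real.log 2 * J :=
      mul_le_mul_of_nonneg_right (mul_le_mul_of_nonneg_right (by linarith) hl2.le) hJ0.le
    have h10 : 0 < ε * Real.log 2 * J := by positivity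
    have h11 : ε / 8 * Real.log 2 * (J : ℝ) = ε * Real.log 2 * J / 8 := by ring
    have h12 := mul_le_mul_of_nonneg_right h3 hl2.le
    refine ⟨?_, ?_⟩
    · rcases Nat.lt_or_ge q ⌊w * J⌋₊ with h13 | h13
      · rw [Nat.cast_sub h13.le]
        have e1 : (⌊w * J⌋₊ : ℝ) * Real.log 2 ≤ (1 - c) * J * Real.log 2 := by
          refine mul_le_mul_of_nonneg_right (hWf.trans ?_) hl2.le
          exact mul_le_mul_of_nonneg_right (by linarith) hJ0.le
        have e2 : (1 - c + ε) * (J : ℝ) * Real.log 2 =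
            (1 - c) * J * Real.log 2 + ε * Real.log 2 * J := by ring
        have e3 : ((q : ℝ) + y) * Real.log 2 = q * Real.log 2 + y * Real.log 2 := by ring
        have e4 : ((⌊w * J⌋₊ : ℝ) - q) * Real.log 2 =
            (⌊w * J⌋₊ : ℝ) * Real.log 2 - q * Real.log 2 := by ring
        linarith
      · have e0 : ⌊w * J⌋₊ - q = 0 := by omega
        rw [e0, Nat.cast_zero, zero_mul, add_zero]
        have e1 : (q : ℝ) * Real.log 2 ≤ (1 - c) * J * Real.log 2 := by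
          refine mul_le_mul_of_nonneg_right (hqf.trans ?_) hl2.le
          exact mul_le_mul_of_nonneg_right hQc hJ0.le
        have e2 : (1 - c + ε) * (J : ℝ) * Real.log 2 =
            (1 - c) * J * Real.log 2 + ε * Real.log 2 * J := by ring
        have e3 : ((q : ℝ) + y) * Real.log 2 = q * Real.log 2 + y * Real.log 2 := by ring
        linarith
    · have e1 : (1 - c + ε) * (J : ℝ) * Real.log 2 =
          J * Real.log 2 - c * Real.log 2 * J + ε * Real.log 2 * J := by ring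
      have e2 : ((q : ℝ) + y) * Real.log 2 = q * Real.log 2 + y * Real.log 2 := by ring
      have e3 : (c - η) * Real.log 2 * J = c * Real.log 2 * J - η * Real.log 2 * J := by ring
      have e4 : η * Real.log 2 * J ≤ ε * Real.log 2 * J :=
        mul_le_mul_of_nonneg_right (mul_le_mul_of_nonneg_right hηε hl2.le) hJ0.le
      have e5 : ((J : ℝ) - q) * Real.log 2 = J * Real.log 2 - q * Real.log 2 := by ring
      linarith
  refine key.mono 0 ?_
  rintro J - F A h a q y h1 h2 h3 h4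
  exact h ⟨a, q, y, h1, h2, h3, h4⟩

/-- **No good labels where the rows are not full.** -/
theorem tops (hZ : ∀ k, 1 ≤ k → k < n → FZX k) (hW : 3 ≤ n → RW (n - 1)) : TopS n := by
  intro hn al g₀ s d hal hg₀ e K₀ N S hC P r hT hr α α' Q c hα hαα' hα' hP hc hcD
  exact ⟨t1_of hn hZ hW hal hg₀ hC hT hr hα hαα' hα' hP hc hcD,
    t2_of hn hZ hW hal hg₀ hC hT hr hα hαα' hα' hP hc hcD⟩

end Pool.TOP
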