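import Pool.Agent.H27.TOP.Stm

/-!
# No good labels where the rows of the target are not full: statements

`T1c S k α σ`: at the windows up to `α`, no coordinate `l ≠ k` has a closed label of precision
above `σ` over the other coordinates without `k`. `T2c S k α Q σ`: no closed label of the
coordinate `k` of precision at most `Q` has a derivative at the own points such that the precision
and the slope together are above `σ`.
`TopS n`: this is so with `σ = 1 - c` if the rows of the coordinate `n - 1` above `Q` have the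
defect `c` and the threshold of its labels is at most `Q`.
-/

set_option autoImplicit false

namespace Pool.TOP

open Finset Real MvPolynomial
open Pool.Agent.H49.Ent Pool.Agent.H32.Dense Pool.STK Pool.KA Pool.KSAT Pool.K2S Pool.PB Pool.S6C
open Pool.GEN Pool.ONE
open Pool.GRD (LbP)
open Pool.LBT (ThrOf)
open Pool.ALL (RateOf)

variable {m n : ℕ}

/-- **No good closed label of another coordinate.** -/
def T1c (S : PCl m) (k : Fin m) (α σ : ℝ) : Prop :=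
  ∀ (K : ℕ) (ε : ℝ), 0 < ε → Bas S (fun J F A => ∀ (l : Fin m) (a P : ℕ), l ≠ k →
    a ≤ ⌊α * J⌋₊ → (σ + ε) * J ≤ P →
    ¬ ∃ (V : Type) (z : PtT F → V) (z' : LnT F → V) (G : V → MvPolynomial (Option (Fin m)) ℝ),
      LbP F ((univ.erase k).erase l) l K J a P A z z' G)

/-- **No steep closed label of the coordinate `k`.** -/
def T2c (S : PCl m) (k : Fin m) (α Q σ : ℝ) : Prop :=
  ∀ (K : ℕ) (ε : ℝ), 0 < ε → Bas S (fun J F A => ∀ (a q s : ℕ), a ≤ ⌊α * J⌋₊ →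
    q ≤ ⌊Q * J⌋₊ → (σ + ε) * J ≤ q + s →
    ¬ ∃ (V : Type) (z : PtT F → V) (z' : LnT F → V) (G : V → MvPolynomial (Option (Fin m)) ℝ),
      LbP F (univ.erase k) k K J a q A z z' G ∧ ∃ l, l ≠ k ∧ ∀ ω, A ω →
        (2 : ℝ) ^ s ≤ |eval (bt F ω) (pderiv (some l) (G (z' (slam F a ω))))|)

/-- **No good labels where the rows are not full.** -/
def TopS (n : ℕ) : Prop :=
  ∀ hn : 2 ≤ n, ∀ (al : ℝ) (g₀ : ℝ → ℝ) (s : Fin n → ℝ) (d : ℕ → ℝ),
    0 < al → (∀ ε : ℝ, 0 < ε → 0 < g₀ ε) →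
    ∀ (e : ℝ) (K₀ : ℕ) (N : ℚ → ℚ → ℝ) (S : PCl n), ClX s d al g₀ e K₀ N S →
    ∀ (P : ℝ → ℝ → ℝ) (r : ℝ → ℝ), ThrOf (tgs (lst hn)) S (fun _ => P) →
      RateOf S (lst hn) r → ∀ α α' Q c : ℝ, 0 ≤ α → α < α' → α' ≤ 1 → P α' α' ≤ Q → 0 < c →
      c ≤ 1 - Q - (r 1 - r Q) → T1c S (lst hn) α (1 - c) ∧ T2c S (lst hn) α Q (1 - c)

/-- The form with the polynomials of the points. -/
theorem T2c.lit {S : PCl m} {k : Fin m} {α Q σ : ℝ} (h : T2c S k α Q σ) :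
    ∀ (K : ℕ) (ε : ℝ), 0 < ε → Bas S (fun J F A => ∀ (q s : ℕ), q ≤ ⌊Q * J⌋₊ →
      (σ + ε) * J ≤ q + s →
      ¬ ∃ (V : Type) (z : PtT F → V) (z' : LnT F → V) (G : V → MvPolynomial (Option (Fin m)) ℝ),
        (∀ v, (G v).totalDegree ≤ K) ∧
        (∀ v, ∀ b b' : Option (Fin m) → ℝ, b none = b' none →
          (∀ i, i ≠ k → b (some i) = b' (some i)) → eval b (G v) = eval b' (G v)) ∧
        (∀ ω, A ω → z (ptr F J ω) = z' (slam F ⌊α * J⌋₊ ω)) ∧
        (∀ ω, A ω → |F.x ω k - eval (bt F ω) (G (z (ptr F J ω)))| ≤ 1 / 2 ^ q) ∧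
        ∃ l, l ≠ k ∧ ∀ ω, A ω →
          (2 : ℝ) ^ s ≤ |eval (bt F ω) (pderiv (some l) (G (z (ptr F J ω))))|) := by
  intro K ε hε
  refine (h K ε hε).mono 0 ?_
  rintro J - F A h1 q s hq hs ⟨V, z, z', G, h2, h3, h4, h5, l, hl, h6⟩
  refine h1 ⌊α * J⌋₊ q s le_rfl hq hs ⟨V, z, z', G, ⟨h2, fun v b b' h0 h7 => ?_, h4,
    fun ω hω => ?_⟩, l, hl, fun ω hω => ?_⟩
  · exact h3 v b b' h0 fun i hi => h7 i (Finset.mem_erase.2 ⟨hi, Finset.mem_univ _⟩)
  · rw [← h4 ω hω]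
    exact h5 ω hω
  · rw [← h4 ω hω]
    exact h6 ω hω

end Pool.TOP
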