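import Pool.Agent.H27.TOP.Rst
import Pool.Agent.H27.TOP.Lbt
import Pool.Agent.H27.TOP.Rt
import Pool.Agent.H27.TOP.Tps

/-!
# The entropy of the other coordinates

`top_ent`: a coordinate which is neither the target nor the active one has at least the entropy of
the defect of the rows of the target, given all other coordinates and the first digits of the
target. `top_full`: the other coordinates are full in small cells.
-/

set_option autoImplicit false

namespace Pool.TOP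

open Finset Real MvPolynomial
open Pool.Agent.H49.Ent Pool.Agent.H32.Dense Pool.STK Pool.KA Pool.KSAT Pool.K2S Pool.PB Pool.S6C
open Pool.GEN Pool.ONE Pool.EXW
open Pool.GRD (LbP)
open Pool.LBT (ThrOf)
open Pool.ALL (RateOf)

variable {m n J : ℕ}

/-- **The entropy of the other coordinates.** -/
theorem top_ent (hn : 2 ≤ n) (hn3 : 3 ≤ n) (hW : RW (n - 1)) {al : ℝ} {g₀ : ℝ → ℝ}
    {s : Fin n → ℝ} {d : ℕ → ℝ} {e : ℝ} {K₀ : ℕ} {N : ℚ → ℚ → ℝ} {S : PCl n} (hal : 0 < al)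
    (hg₀ : ∀ ε : ℝ, 0 < ε → 0 < g₀ ε) (hC : ClX s d al g₀ e K₀ N S) {P : ℝ → ℝ → ℝ} {r : ℝ → ℝ}
    (hT : ThrOf (tgs (lst hn)) S (fun _ => P)) (hr : RateOf S (lst hn) r)
    {w α' Q Q' ρ : ℝ} (hw0 : 0 < w) (hwα : w < α') (hα' : α' ≤ 1) (hP : P α' α' ≤ Q)
    (hQQ' : Q < Q') (hQ' : Q' ≤ 1) (hρ : 0 < ρ) {i : Fin n} (hiN : i ≠ lst hn)
    (hi0 : i ≠ ⟨0, by omega⟩) :
    Bas S (fun J F A => ∀ (V : Type) (z : PtT F → V) (z' : LnT F → V),
      (∀ ω, A ω → z (ptr F J ω) = z' (slam F ⌊w * J⌋₊ ω)) →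
      (1 - Q - (r 1 - r Q) - (Q' - Q) - ρ) * Real.log 2 * J ≤
        CH (Pool.Agent.H49.Ent.cond F.p A True) (fun ω => F.X J ω i)
          (fun ω => (F.X ⌊Q' * J⌋₊ ω (lst hn), (ub ((univ.erase (lst hn)).erase i) (F.X J ω),
            (z' (slam F ⌊w * J⌋₊ ω), F.W ω))))) := by
  classical
  have hl2 : 0 < Real.log 2 := Real.log_pos one_lt_two
  have htm := Pool.GEN.N83.clx_tmc hC
  have hpos : Bas S (fun _ F A => 0 < Pe F.p A) :=
    ⟨1, one_pos, 0, fun J _ F A hA => hC.pos 1 J F A hA⟩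
  have hα'0 : 0 < α' := hw0.trans hwα
  have hαP : α' ≤ P α' α' := hT.low () α' α' hα'0.le le_rfl hα'
  have hQ'0 : 0 ≤ Q' := by linarith
  obtain ⟨v, hv⟩ : ∃ v : ℝ, v = min ((α' - w) / 2) ((1 - w) / 2) := ⟨_, rfl⟩
  have hw1 : w < 1 := by linarith
  have hv0 : 0 < v := by
    rw [hv]
    exact lt_min (by linarith) (by linarith)
  have hv1 : v ≤ (α' - w) / 2 := by
    rw [hv]
    exact min_le_left _ _
  have hv2 : v ≤ (1 - w) / 2 := by
    rw [hv]
    exact min_le_right _ _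
  have hkI : lst hn ∉ (univ.erase (lst hn)).erase i := fun h =>
    (Finset.mem_erase.1 (Finset.mem_erase.1 h).2).1 rfl
  have h1 := hW al g₀ hal hg₀ N hC.actm n 6 S (by norm_num) htm ((univ.erase (lst hn)).erase i)
    (lst hn) ⟨0, by omega⟩ hkI (Finset.mem_erase.2 ⟨hi0.symm, Finset.mem_erase.2
      ⟨fun h => by
        have := congrArg Fin.val h
        unfold lst at this
        simp only at this
        omega, Finset.mem_univ _⟩⟩) (by
      rw [Finset.card_erase_of_mem (Finset.mem_erase.2 ⟨hiN, Finset.mem_univ _⟩),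
        Finset.card_erase_of_mem (Finset.mem_univ _), Finset.card_univ, Fintype.card_fin]
      omega) (hC.actb _ rfl) 0 w Q' v (ρ / 2) le_rfl hw0 (by linarith) hQ' hv0 (by linarith)
    (by linarith) (lbr_no hT le_rfl hkI (by linarith) (by linarith : w + v < α') hα'
      (by linarith) hQ')
  have h2 := row_rate hr hpos hQ'0 hQ' (h := ρ / 4 * Real.log 2) (by positivity)
  refine ((h1.and h2).and hpos).mono 0 ?_
  rintro J - F A ⟨⟨h3, h4⟩, hA⟩ V z z' hz
  have hJ0 : (0 : ℝ) ≤ J := Nat.cast_nonneg J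
  have h5 := h3 V z z' hz
  have h6 := row_drop hA (I := univ.erase (lst hn)) (i := i) (lst hn) ⌊Q' * J⌋₊
    (fun ω => z' (slam F ⌊w * J⌋₊ ω))
  rw [abs_le] at h4
  have h7 : (r 1 - r Q') * Real.log 2 * J ≤ (r 1 - r Q) * Real.log 2 * J := by
    refine mul_le_mul_of_nonneg_right (mul_le_mul_of_nonneg_right ?_ hl2.le) hJ0
    have := hr.mono hQQ'.le
    linarith
  have h8 : (1 - Q' - ρ / 2) * Real.log 2 * J = (1 - Q - (r 1 - r Q) - (Q' - Q) - ρ) *
      Real.log 2 * J + (r 1 - r Q) * Real.log 2 * J + ρ / 2 * Real.log 2 * J := by ring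
  have h9 : 0 ≤ ρ / 4 * Real.log 2 * J := by positivity
  have h10 : ρ / 2 * Real.log 2 * (J : ℝ) = ρ / 4 * Real.log 2 * J + ρ / 4 * Real.log 2 * J := by
    ring
  linarith [h4.1, h4.2]

/-- **The other coordinates are full in small cells.** -/
theorem top_full (hn : 2 ≤ n) (hZ : ∀ k, 1 ≤ k → k < n → FZX k) (hW : 3 ≤ n → RW (n - 1))
    {al : ℝ} {g₀ : ℝ → ℝ} {s : Fin n → ℝ} {d : ℕ → ℝ} {e : ℝ} {K₀ : ℕ} {N : ℚ → ℚ → ℝ}
    {S : PCl n} (hal : 0 < al) (hg₀ : ∀ ε : ℝ, 0 < ε → 0 < g₀ ε)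
    (hC : ClX s d al g₀ e K₀ N S) {P : ℝ → ℝ → ℝ} {r : ℝ → ℝ}
    (hT : ThrOf (tgs (lst hn)) S (fun _ => P)) (hr : RateOf S (lst hn) r)
    {L : Finset (Fin n) → Fin n → ℝ → ℝ → ℝ} (hL : LamW S L) {α α' Q c : ℝ} (hα : 0 ≤ α)
    (hαα' : α < α') (hα' : α' ≤ 1) (hP : P α' α' ≤ Q) (hc : 0 < c)
    (hcD : c ≤ 1 - Q - (r 1 - r Q)) :
    ∃ w : ℝ, α < w ∧ w < α' ∧ Ful S (univ.erase (lst hn)) w (1 - c / 2) := by
  classical
  have hl2 : 0 < Real.log 2 := Real.log_pos one_lt_two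
  have htm := Pool.GEN.N83.clx_tmc hC
  have hpos : Bas S (fun _ F A => 0 < Pe F.p A) :=
    ⟨1, one_pos, 0, fun J _ F A hA => hC.pos 1 J F A hA⟩
  have hα'0 : 0 < α' := by linarith
  have hαP : α' ≤ P α' α' := hT.low () α' α' hα'0.le le_rfl hα'
  have hQc : Q ≤ 1 - c := by
    rcases le_or_gt Q 1 with h | h
    · have := hr.mono h
      linarith
    · have h1 : |r Q - r 1| ≤ |Q - 1| := by
        have := hr.lip.dist_le_mul Q 1
        rw [NNReal.coe_one, one_mul, Real.dist_eq, Real.dist_eq] at this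
        exact this
      rw [abs_of_pos (by linarith : 0 < Q - 1)] at h1
      have h2 := (abs_le.1 h1).2
      linarith
  have hact : ActB N S (⟨0, by omega⟩ : Fin n) := hC.actb _ rfl
  have hN := hC.actm
  obtain ⟨κ, hκ⟩ : ∃ κ : Fin (n - 1), κ = ⟨0, by omega⟩ := ⟨_, rfl⟩
  have hoκ : oc hn κ = ⟨0, by omega⟩ := by
    rw [hκ]
    rfl
  obtain ⟨D, hD, hcov⟩ := wv_cover hL (φ := oc hn) (κ := κ) (fun w hw0 hw1 => by
    rw [hoκ]
    exact hL.act hC.ne hal (hN.q hg₀) hact hpos hw0 hw1)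
  obtain ⟨w, hwD, hwα, hwα'⟩ := (hD.dense_compl ℝ).exists_between hαα'
  have hw0 : 0 < w := by linarith
  have hw1 : w < 1 := by linarith
  obtain ⟨σ, ⟨-, -, hg, hc'⟩, hσ⟩ := hcov w hw0 hw1 hwD
  obtain ⟨ε, hε⟩ : ∃ ε : Fin (n - 1) → Fin n, ε = oc hn ∘ σ := ⟨_, rfl⟩
  rw [← hε] at hg hc'
  have hεi : Function.Injective ε := by
    rw [hε]
    exact (oc_inj hn).comp σ.injective
  have hε0 : ∀ j : Fin (n - 1), (j : ℕ) = 0 → ε j = ⟨0, by omega⟩ := by
    intro j hj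
    rw [hε, Function.comp_apply, hσ j hj, hoκ]
  have himg : univ.image ε = univ.erase (lst hn) := by
    rw [hε]
    exact image_oc hn σ
  have hexa : ∀ ρ' : ℝ, 0 < ρ' → Bas S (fun J F A => ∀ (V : Type) (z : PtT F → V)
      (z' : LnT F → V), (∀ ω, A ω → z (ptr F J ω) = z' (slam F ⌊w * J⌋₊ ω)) →
      ((∑ j : Fin (n - 1), (1 - vs L ε w (j + 1))) - ρ') * Real.log 2 * J ≤
        CH (Pool.Agent.H49.Ent.cond F.p A True)
        (fun ω j => F.X J ω (ε j)) (fun ω => (z' (slam F ⌊w * J⌋₊ ω), F.W ω))) :=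
    fun ρ' hρ' => vst_exa (hZ (n - 1) (by omega) (by omega)) hC.ne (by norm_num) htm hL hal hg₀
      hN hpos hεi (fun k hk => by rw [hε0 k hk]; exact hact) hw0 hw1 hg hc' hρ'
  refine ⟨w, hwα, hwα', ?_⟩
  -- the last number
  obtain ⟨j₀, hj₀⟩ : ∃ j₀ : Fin (n - 1), j₀ = ⟨n - 2, by omega⟩ := ⟨_, rfl⟩
  have hj₀v : (j₀ : ℕ) = n - 2 := by rw [hj₀]
  have hmono : Monotone (vs L ε w) := hg.mono hL hw1.le
  have htop : ∀ j : Fin (n - 1), vs L ε w (j + 1) ≤ vs L ε w (j₀ + 1) := by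
    intro j
    refine hmono ?_
    have := j.2
    omega
  rcases le_or_gt (vs L ε w (j₀ + 1)) (1 - 3 * c / 4) with htp | htp
  · rw [← himg]
    refine full_cls (fun τ J F A _ hA => hC.pos τ J F A hA) (s := fun j => vs L ε w (j + 1))
      (r := fun j => vs L ε w j) (by linarith) (fun j => ?_) (fun j => ?_) hexa
      (fun e he => ?_)
    · exact (htop j).trans (by linarith)
    · exact ((hmono (Nat.le_succ _)).trans (htop j)).trans (by linarith)
    · obtain ⟨K, hK⟩ := vst_att hL hw0 hw1 hg hc' he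
      exact ⟨K, fun j => hK j j le_rfl⟩
  · exfalso
    have hj₀0 : (j₀ : ℕ) ≠ 0 := by
      intro h0
      have a1 := vs_succ L ε w j₀
      unfold vn at a1
      have a2 : (Finset.Iio j₀).image ε = ∅ := by
        rw [Finset.image_eq_empty]
        ext x
        simp only [Finset.mem_Iio, Finset.notMem_empty, iff_false, not_lt, Fin.le_def]
        omega
      have a3 : vs L ε w j₀ = w := by
        rw [h0]
        rfl
      rw [a2, a3, hε0 j₀ h0] at a1
      rw [hL.act hC.ne hal (hN.q hg₀) hact hpos hw0.le hw1] at a1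
      linarith
    have hn3 : 3 ≤ n := by omega
    obtain ⟨K, hK⟩ := vst_att hL hw0 hw1 hg hc' (show (0 : ℝ) < c / 32 by positivity)
    have hy0 : ε j₀ ≠ ⟨0, by omega⟩ := by
      intro h7
      have h8 := hε0 ⟨0, by omega⟩ rfl
      have h9 := hεi (h7.trans h8.symm)
      rw [h9] at hj₀0
      exact hj₀0 rfl
    have hyI : ε j₀ ∈ univ.erase (lst hn) := by
      rw [← himg]
      exact mem_image_of_mem _ (mem_univ _)
    have htc := top_ch hpos (I := univ.erase (lst hn)) (k := lst hn) (Q := Q + c / 32)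
      (I' := (Finset.Iio j₀).image ε) (y := ε j₀) (β := 7 * c / 8 * Real.log 2) (fun x hx => by
        obtain ⟨l, hl, rfl⟩ := Finset.mem_image.1 hx
        refine Finset.mem_erase.2 ⟨fun h7 => ?_, ?_⟩
        · exact (Finset.mem_Iio.1 hl).ne (hεi h7)
        · rw [← himg]
          exact mem_image_of_mem _ (mem_univ _)) (by positivity : 0 ≤ c / 32)
      (by linarith [vs_le1 hL ε hw1.le (j₀ + 1)] : vs L ε w (j₀ + 1) - c / 32 ≤ 1)
      (min_le_right _ _) (by
        refine mul_lt_mul_of_pos_right ?_ hl2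
        linarith) (hK j₀ j₀ le_rfl)
    have hen := top_ent hn hn3 (hW hn3) hal hg₀ hC hT hr hw0 hwα' hα' hP
      (Q' := Q + c / 32) (by linarith) (by linarith) (show (0 : ℝ) < c / 32 by positivity)
      (Finset.ne_of_mem_erase hyI) hy0
    refine bas_no hC.ne ((htc.and hen).mono 1 ?_)
    rintro J hJ F A ⟨⟨V, z, z', hz, h1⟩, h2⟩
    have hJ0 : (0 : ℝ) < J := by exact_mod_cast hJ
    have h3 := (h2 V z z' hz).trans h1
    have h4 : (15 * c / 16) * Real.log 2 * J ≤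
        (1 - Q - (r 1 - r Q) - (Q + c / 32 - Q) - c / 32) * Real.log 2 * J :=
      mul_le_mul_of_nonneg_right (mul_le_mul_of_nonneg_right (by linarith) hl2.le) hJ0.le
    have h5 : 0 < c / 16 * Real.log 2 * J := by positivity
    have h6 : (15 * c / 16) * Real.log 2 * J =
        7 * c / 8 * Real.log 2 * J + c / 16 * Real.log 2 * J := by ring
    linarith

end Pool.TOP
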