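import Pool.Agent.H27.TOP.Tpe

/-!
# Fullness and closed labels

`ful_gen`: the top number of the coordinates without the target: fullness above it, and a closed
label of this precision. `rel_bd`: a relation over full coordinates has small derivatives.
`dich_fin`: finitely many alternatives at once, in a subclass.
-/

set_option autoImplicit false

namespace Pool.TOP

open Finset Real MvPolynomial
open Pool.Agent.H49.Ent Pool.Agent.H32.Dense Pool.STK Pool.KA Pool.KSAT Pool.K2S Pool.PB Pool.S6C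
open Pool.GEN Pool.ONE Pool.EXW
open Pool.GRD (LbP)
open Pool.LBT (ThrOf)
open Pool.ALL (RateOf)

variable {m n J : ℕ}

/-- **Finitely many alternatives at once**, in a subclass. -/
theorem dich_fin {S : PCl m} (hS : S.Ne) {ι : Type} [Fintype ι] (Φ : ι → ℕ → Stat m)
    (her : ∀ (i : ι) (K J : ℕ) (F : Fam m J), Hered (Φ i K J F)) :
    ∃ S' : PCl m, S'.Ne ∧ (∀ (τ : ℝ) (J : ℕ) (F : Fam m J) (A : F.Ω → Prop), S'.St τ J F A →
      S.St τ J F A) ∧ ∀ i, (∀ K, Bas S' (fun J F A => ¬ Φ i K J F A)) ∨ ∃ K, Bas S' (Φ i K) := by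
  classical
  have key : ∀ T : Finset ι, ∃ S' : PCl m, S'.Ne ∧ (∀ (τ : ℝ) (J : ℕ) (F : Fam m J)
      (A : F.Ω → Prop), S'.St τ J F A → S.St τ J F A) ∧ ∀ i ∈ T,
      (∀ K, Bas S' (fun J F A => ¬ Φ i K J F A)) ∨ ∃ K, Bas S' (Φ i K) := by
    intro T
    induction T using Finset.induction_on with
    | empty => exact ⟨S, hS, fun _ _ _ _ h => h, fun i hi => absurd hi (Finset.notMem_empty i)⟩
    | insert a T _ ih =>
      obtain ⟨S₁, h1, h2, h3⟩ := ih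
      by_cases h4 : ∀ K, Bas S₁ (fun J F A => ¬ Φ a K J F A)
      · refine ⟨S₁, h1, h2, fun i hi => ?_⟩
        rcases Finset.mem_insert.1 hi with rfl | hi
        · exact Or.inl h4
        · exact h3 i hi
      · push Not at h4
        obtain ⟨K, hK⟩ := h4
        obtain ⟨S₂, hS₂⟩ : ∃ S₂ : PCl m, ∀ (τ : ℝ) (J : ℕ) (F : Fam m J) (A : F.Ω → Prop),
            S₂.St τ J F A ↔ S₁.St τ J F A ∧ Φ a K J F A :=
          ⟨⟨fun τ J F A => S₁.St τ J F A ∧ Φ a K J F A, fun hτ hA => ⟨S₁.mono hτ hA.1, hA.2⟩,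
            fun hτ hA hB hP => ⟨S₁.res hτ hA.1 hB hP, her _ _ _ _ _ _ hB hA.2⟩⟩,
            fun _ _ _ _ => Iff.rfl⟩
        have hs : ∀ (τ : ℝ) (J : ℕ) (F : Fam m J) (A : F.Ω → Prop), S₂.St τ J F A →
            S₁.St τ J F A := fun τ J F A hA => ((hS₂ τ J F A).1 hA).1
        refine ⟨S₂, ?_, fun τ J F A hA => h2 τ J F A (hs τ J F A hA), fun i hi => ?_⟩
        · intro τ hτ J₁
          by_contra h5
          exact hK ⟨τ, hτ, J₁, fun J hJ F A hA hΦ =>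
            h5 ⟨J, hJ, F, A, (hS₂ τ J F A).2 ⟨hA, hΦ⟩⟩⟩
        · rcases Finset.mem_insert.1 hi with rfl | hi
          · exact Or.inr ⟨K, ⟨1, one_pos, 0, fun J _ F A hA => ((hS₂ _ J F A).1 hA).2⟩⟩
          · rcases h3 i hi with h5 | ⟨K', h5⟩
            · exact Or.inl fun K' => Bas.sub hs (h5 K')
            · exact Or.inr ⟨K', Bas.sub hs h5⟩
  obtain ⟨S', h1, h2, h3⟩ := key univ
  exact ⟨S', h1, h2, fun i => h3 i (Finset.mem_univ i)⟩

/-- **A relation over full coordinates has small derivatives.** -/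
theorem rel_bd {S : PCl m} {C₀ : ℝ} (hC₀ : 0 ≤ C₀) (htm : TmC S C₀) (I : Finset (Fin m))
    {w u : ℝ} (hwu : w ≤ u) (hu0 : 0 ≤ u) (hu : u < 1) (full : Ful S I w u) (K : ℕ) {ε : ℝ}
    (hε : 0 < ε) :
    Bas S (fun J F A => ∀ (P : ℕ) (V : Type) (z : PtT F → V) (z' : LnT F → V)
      (E : V → MvPolynomial (Option (Fin m)) ℝ) (i : Option (Fin m)),
      (∀ v, (E v).totalDegree ≤ K) →
      (∀ v, ∀ b b' : Option (Fin m) → ℝ, b none = b' none →
        (∀ i ∈ I, b (some i) = b' (some i)) → eval b (E v) = eval b' (E v)) →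
      (∀ ω, A ω → z (ptr F J ω) = z' (slam F ⌊w * J⌋₊ ω)) →
      (∀ ω, A ω → |eval (bt F ω) (E (z' (slam F ⌊w * J⌋₊ ω)))| ≤ 1 / 2 ^ P) →
      ∃ ω, A ω ∧ |eval (bt F ω) (pderiv i (E (z' (slam F ⌊w * J⌋₊ ω))))| ≤
        Real.exp ((u * Real.log 2 + ε) * J - P * Real.log 2)) := by
  have hl2 : 0 < Real.log 2 := Real.log_pos one_lt_two
  have h1 := uni_cls hC₀ htm I hwu hu0 hu full K (h := ε / 2) (by positivity) (η := 1 / 2)
    (by norm_num) (by norm_num)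
  obtain ⟨Cm, hCm, hmk⟩ := Pool.GRD.dir_markov (m := m) K
  obtain ⟨J₁, hJ₁⟩ := exp_big Cm (b := ε / 2) (by positivity)
  have hpos : Bas S (fun _ F A => 0 < Pe F.p A) :=
    ⟨1, one_pos, 0, fun J _ F A hA => tmc_pos htm one_pos hA⟩
  refine (h1.and hpos).mono J₁ ?_
  rintro J hJ F A ⟨h2, hA⟩ P V z z' E i hdeg hdep hcls hsm
  have hJ0 : (0 : ℝ) ≤ J := Nat.cast_nonneg J
  obtain ⟨B, hBA, hPB, hB⟩ := h2 V z z' E (fun _ => 1 / 2 ^ P) hdeg hdep hcls
    (fun _ => by positivity) hsm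
  obtain ⟨ω, hω⟩ : ∃ ω, B ω := by
    by_contra h3
    push Not at h3
    have h4 : Pe F.p B = 0 := by
      classical
      rw [Pe_eq]
      refine Finset.sum_eq_zero fun ω _ => ?_
      rw [if_neg (h3 ω)]
    linarith
  refine ⟨ω, hBA ω hω, ?_⟩
  have h3 := hmk (E (z' (slam F ⌊w * J⌋₊ ω))) (bt F ω) i (1 / 2 ^ ⌊u * J⌋₊)
    (Real.exp (ε / 2 * J) * (1 / 2 ^ P)) (hdeg _) (by positivity) fun s hs => by
      refine hB ω hω _ fun o' => ?_
      by_cases ho : o' = i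
      · subst ho
        rw [Function.update_self, add_sub_cancel_left]
        have : (0 : ℝ) < 1 / 2 ^ ⌊u * J⌋₊ := by positivity
        linarith
      · rw [Function.update_of_ne ho, sub_self, abs_zero]
        positivity
  refine h3.trans ?_
  have e1 : Cm * (Real.exp (ε / 2 * J) * (1 / 2 ^ P)) / (1 / 2 ^ ⌊u * J⌋₊) =
      Cm * (Real.exp (ε / 2 * J) * (2 ^ ⌊u * J⌋₊ / 2 ^ P)) := by
    field_simp
  rw [e1]
  have e2 : (2 : ℝ) ^ ⌊u * J⌋₊ / 2 ^ P ≤ Real.exp (u * Real.log 2 * J - P * Real.log 2) := by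
    rw [two_pow_exp, two_pow_exp, ← Real.exp_sub]
    refine Real.exp_le_exp.2 ?_
    have e3 : (⌊u * J⌋₊ : ℝ) * Real.log 2 ≤ u * J * Real.log 2 :=
      mul_le_mul_of_nonneg_right (Nat.floor_le (by positivity)) hl2.le
    have e4 : u * (J : ℝ) * Real.log 2 = u * Real.log 2 * J := by ring
    linarith
  calc Cm * (Real.exp (ε / 2 * J) * (2 ^ ⌊u * J⌋₊ / 2 ^ P)) ≤
        Real.exp (ε / 2 * J) * (Real.exp (ε / 2 * J) *
          Real.exp (u * Real.log 2 * J - P * Real.log 2)) :=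
        mul_le_mul (hJ₁ J hJ) (mul_le_mul_of_nonneg_left e2 (Real.exp_pos _).le)
          (by positivity) (Real.exp_pos _).le
    _ = Real.exp ((u * Real.log 2 + ε) * J - P * Real.log 2) := by
        rw [← Real.exp_add, ← Real.exp_add]
        congr 1
        ring

/-- **The top number**: fullness above it, and a closed label of this precision. -/
theorem ful_gen (hn : 2 ≤ n) (hZ : ∀ k, 1 ≤ k → k < n → FZX k) {al : ℝ} {g₀ : ℝ → ℝ}
    {s : Fin n → ℝ} {d : ℕ → ℝ} {e : ℝ} {K₀ : ℕ} {N : ℚ → ℚ → ℝ} {S : PCl n} (hal : 0 < al)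
    (hg₀ : ∀ ε : ℝ, 0 < ε → 0 < g₀ ε) (hC : ClX s d al g₀ e K₀ N S)
    {L : Finset (Fin n) → Fin n → ℝ → ℝ → ℝ} (hL : LamW S L) :
    ∃ D : Set ℝ, D.Countable ∧ ∀ w : ℝ, 0 < w → w < 1 → w ∉ D → ∃ x : ℝ, w ≤ x ∧ x ≤ 1 ∧
      (∀ u : ℝ, x ≤ u → Ful S (univ.erase (lst hn)) w u) ∧
      ∃ y ∈ univ.erase (lst hn), (x = w ∨ y ≠ ⟨0, by omega⟩) ∧ ∀ ε : ℝ, 0 < ε → ∃ K : ℕ,
        Bas S (fun J F A => ∃ (V : Type) (z : PtT F → V) (z' : LnT F → V)
          (G : V → MvPolynomial (Option (Fin n)) ℝ),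
          LbP F ((univ.erase (lst hn)).erase y) y K J ⌊w * J⌋₊ ⌊(x - ε) * J⌋₊ A z z' G) := by
  classical
  have htm := Pool.GEN.N83.clx_tmc hC
  have hpos : Bas S (fun _ F A => 0 < Pe F.p A) :=
    ⟨1, one_pos, 0, fun J _ F A hA => hC.pos 1 J F A hA⟩
  have hact : ActB N S (⟨0, by omega⟩ : Fin n) := hC.actb _ rfl
  have hN := hC.actm
  obtain ⟨κ, hκ⟩ : ∃ κ : Fin (n - 1), κ = ⟨0, by omega⟩ := ⟨_, rfl⟩
  have hoκ : oc hn κ = ⟨0, by omega⟩ := by
    rw [hκ]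
    rfl
  obtain ⟨D, hD, hcov⟩ := wv_cover hL (φ := oc hn) (κ := κ) (fun w hw0 hw1 => by
    rw [hoκ]
    exact hL.act hC.ne hal (hN.q hg₀) hact hpos hw0 hw1)
  refine ⟨D, hD, fun w hw0 hw1 hwD => ?_⟩
  obtain ⟨σ, ⟨-, -, hg, hc'⟩, hσ⟩ := hcov w hw0 hw1 hwD
  obtain ⟨ε, hε⟩ : ∃ ε : Fin (n - 1) → Fin n, ε = oc hn ∘ σ := ⟨_, rfl⟩
  rw [← hε] at hg hc'
  have hεi : Function.Injective ε := by
    rw [hε]
    exact (oc_inj hn).comp σ.injective
  have hε0 : ∀ j : Fin (n - 1), (j : ℕ) = 0 → ε j = ⟨0, by omega⟩ := by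
    intro j hj
    rw [hε, Function.comp_apply, hσ j hj, hoκ]
  have himg : univ.image ε = univ.erase (lst hn) := by
    rw [hε]
    exact image_oc hn σ
  have hexa : ∀ ρ' : ℝ, 0 < ρ' → Bas S (fun J F A => ∀ (V : Type) (z : PtT F → V)
      (z' : LnT F → V), (∀ ω, A ω → z (ptr F J ω) = z' (slam F ⌊w * J⌋₊ ω)) →
      ((∑ j : Fin (n - 1), (1 - vs L ε w (j + 1))) - ρ') * Real.log 2 * J ≤
        CH (Pool.Agent.H49.Ent.cond F.p A True)
        (fun ω j => F.X J ω (ε j)) (fun ω => (z' (slam F ⌊w * J⌋₊ ω), F.W ω))) :=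
    fun ρ' hρ' => vst_exa (hZ (n - 1) (by omega) (by omega)) hC.ne (by norm_num) htm hL hal hg₀
      hN hpos hεi (fun k hk => by rw [hε0 k hk]; exact hact) hw0 hw1 hg hc' hρ'
  obtain ⟨j₀, hj₀⟩ : ∃ j₀ : Fin (n - 1), j₀ = ⟨n - 2, by omega⟩ := ⟨_, rfl⟩
  have hj₀v : (j₀ : ℕ) = n - 2 := by rw [hj₀]
  have hmono : Monotone (vs L ε w) := hg.mono hL hw1.le
  have htop : ∀ j : Fin (n - 1), vs L ε w (j + 1) ≤ vs L ε w (j₀ + 1) := by
    intro j
    refine hmono ?_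
    have := j.2
    omega
  have hwx : w ≤ vs L ε w (j₀ + 1) := le_vs hL ε hw1.le _
  have hyI : ε j₀ ∈ univ.erase (lst hn) := by
    rw [← himg]
    exact mem_image_of_mem _ (mem_univ _)
  refine ⟨vs L ε w (j₀ + 1), hwx, vs_le1 hL ε hw1.le _, fun u hu => ?_, ε j₀, hyI, ?_,
    fun e' he' => ?_⟩
  · rw [← himg]
    refine full_cls (fun τ J F A _ hA => hC.pos τ J F A hA) (s := fun j => vs L ε w (j + 1))
      (r := fun j => vs L ε w j) (by linarith) (fun j => ?_) (fun j => ?_) hexa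
      (fun e he => ?_)
    · exact (htop j).trans hu
    · exact ((hmono (Nat.le_succ _)).trans (htop j)).trans hu
    · obtain ⟨K, hK⟩ := vst_att hL hw0 hw1 hg hc' he
      exact ⟨K, fun j => hK j j le_rfl⟩
  · rcases Nat.eq_zero_or_pos (j₀ : ℕ) with h0 | h0
    · left
      have a1 := vs_succ L ε w j₀
      unfold vn at a1
      have a2 : (Finset.Iio j₀).image ε = ∅ := by
        rw [Finset.image_eq_empty]
        ext x
        simp only [Finset.mem_Iio, Finset.notMem_empty, iff_false, not_lt, Fin.le_def]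
        omega
      have a3 : vs L ε w j₀ = w := by
        rw [h0]
        rfl
      rw [a2, a3, hε0 j₀ h0] at a1
      rw [hL.act hC.ne hal (hN.q hg₀) hact hpos hw0.le hw1] at a1
      exact a1
    · right
      intro h7
      have h8 := hε0 ⟨0, by omega⟩ rfl
      have h9 := hεi (h7.trans h8.symm)
      rw [h9] at h0
      exact absurd h0 (lt_irrefl 0)
  · obtain ⟨K, hK⟩ := vst_att hL hw0 hw1 hg hc' he'
    refine ⟨K, (hK j₀ j₀ le_rfl).mono 0 ?_⟩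
    rintro J - F A ⟨V, z, z', G, hG⟩
    refine ⟨V, z, z', G, (LbP.of hG).mono (fun x hx => ?_) le_rfl le_rfl⟩
    obtain ⟨l, hl, rfl⟩ := Finset.mem_image.1 hx
    refine Finset.mem_erase.2 ⟨fun h7 => ?_, ?_⟩
    · exact (Finset.mem_Iio.1 hl).ne (hεi h7)
    · rw [← himg]
      exact mem_image_of_mem _ (mem_univ _)

end Pool.TOP
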