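import Pool.Agent.H27.TOP.Tx
import Pool.Agent.H27.TOP.Top

/-!
# T2 from T1

`t1c_of_ful`: coordinates which are full in small cells have no good closed labels over each
other. `ful_of_t1c`: the converse at the generic windows. `t2_of_t1`: with `T1c` and rows of
defect `1 - σ` above `Q` there is no closed label of the target of precision at most `Q` and steep
at the own points (`T2c`), without a condition on the thresholds.
-/

set_option autoImplicit false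

namespace Pool.TOP

open Finset Real MvPolynomial
open Pool.Agent.H49.Ent Pool.Agent.H32.Dense Pool.STK Pool.KA Pool.KSAT Pool.K2S Pool.PB Pool.S6C
open Pool.GEN Pool.ONE Pool.EXW
open Pool.GRD (LbP)
open Pool.LBT (ThrOf)
open Pool.ALL (RateOf)

variable {m n J : ℕ}

/-- `T1c` in a subclass. -/
theorem T1c.sub {S S' : PCl m} {k : Fin m} {α σ : ℝ} (h : T1c S k α σ)
    (hs : ∀ (τ : ℝ) (J : ℕ) (F : Fam m J) (A : F.Ω → Prop), S'.St τ J F A → S.St τ J F A) :
    T1c S' k α σ := fun K ε hε => Bas.sub hs (h K ε hε)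

/-- `Ful` in a subclass. -/
theorem Ful.sub {S S' : PCl m} {I : Finset (Fin m)} {w u : ℝ} (h : Ful S I w u)
    (hs : ∀ (τ : ℝ) (J : ℕ) (F : Fam m J) (A : F.Ω → Prop), S'.St τ J F A → S.St τ J F A) :
    Ful S' I w u := by
  intro ρ hρ
  exact Bas.sub hs (h ρ hρ)

/-- **Full coordinates have no good labels over each other.** -/
theorem t1c_of_ful {S : PCl m} {C₀ : ℝ} (hC₀ : 0 ≤ C₀) (htm : TmC S C₀) {N : Fin m} {α σ : ℝ}
    (hσ : σ < 1) (full : ∀ u : ℝ, σ < u → ∃ w : ℝ, 0 ≤ w ∧ α < w ∧ w ≤ u ∧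
      Ful S (univ.erase N) w u) : T1c S N α σ := by
  classical
  intro K ε hε
  have hl2 : 0 < Real.log 2 := Real.log_pos one_lt_two
  obtain ⟨δ, hδ⟩ : ∃ δ : ℝ, δ = min (ε / 2) ((1 - σ) / 2) := ⟨_, rfl⟩
  have hδ0 : 0 < δ := by
    rw [hδ]
    exact lt_min (by linarith) (by linarith)
  have hδε : δ ≤ ε / 2 := by
    rw [hδ]
    exact min_le_left _ _
  have hδσ : δ ≤ (1 - σ) / 2 := by
    rw [hδ]
    exact min_le_right _ _
  obtain ⟨w, hw0, hwα, hwu, hf⟩ := full (σ + δ) (by linarith)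
  have hw1 : w ≤ 1 := by linarith
  refine (rel_bd hC₀ htm (univ.erase N) hwu (by linarith) (by linarith) hf (K + 1)
    (ε := ε / 4 * Real.log 2) (by positivity)).mono 1 ?_
  rintro J hJ F A h1 l a P hl ha hP ⟨V, z, z', G, hG⟩
  have hJ0 : (0 : ℝ) < J := by exact_mod_cast hJ
  have hwJ : ⌊w * J⌋₊ ≤ J := by
    refine Nat.floor_le_of_le ?_
    calc w * J ≤ 1 * J := mul_le_mul_of_nonneg_right hw1 hJ0.le
      _ = J := one_mul _
  have haW : a ≤ ⌊w * J⌋₊ :=
    ha.trans (Nat.floor_le_floor (mul_le_mul_of_nonneg_right hwα.le hJ0.le))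
  have h5 := hG.win haW hwJ
  have hlI : l ∈ univ.erase N := Finset.mem_erase.2 ⟨hl, Finset.mem_univ _⟩
  obtain ⟨ω, hω, h2⟩ := h1 P V z (fun s => z' (s.1, s.2.1, s.2.2 / 2 ^ (⌊w * J⌋₊ - a)))
    (fun v => G v - X (some l)) (some l)
    (fun v => (by
      rw [sub_eq_add_neg]
      refine (totalDegree_add _ _).trans (max_le ((hG.deg v).trans (Nat.le_succ K)) ?_)
      rw [totalDegree_neg, totalDegree_X]
      omega : (G v - X (some l)).totalDegree ≤ K + 1)) (fun v b b' h0 h7 => by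
      rw [map_sub, map_sub, eval_X, eval_X, h7 l hlI,
        hG.dep v b b' h0 fun i hi => h7 i (Finset.mem_erase.1 hi).2])
    h5.cls (fun ω hω => by
      rw [map_sub, eval_X, abs_sub_comm]
      exact h5.pos ω hω)
  rw [map_sub, map_sub, pderiv_X, Pi.single_eq_same, map_one,
    pd_zero (hG.dep _) (fun h => (Finset.mem_erase.1 h).1 rfl), zero_sub, abs_neg, abs_one] at h2
  have h3 : 0 ≤ ((σ + δ) * Real.log 2 + ε / 4 * Real.log 2) * J - P * Real.log 2 := by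
    by_contra h4
    push Not at h4
    exact absurd (h2.trans_lt (Real.exp_lt_one_iff.2 h4)) (lt_irrefl 1)
  have h4 := mul_le_mul_of_nonneg_right hP hl2.le
  have h6 : (σ + δ) * Real.log 2 * (J : ℝ) ≤ (σ + ε / 2) * Real.log 2 * J :=
    mul_le_mul_of_nonneg_right (mul_le_mul_of_nonneg_right (by linarith) hl2.le) hJ0.le
  have h7 : 0 < ε / 4 * Real.log 2 * J := by positivity
  have h8 : (σ + ε) * (J : ℝ) * Real.log 2 = (σ + ε / 2) * Real.log 2 * J +
      ε / 4 * Real.log 2 * J + ε / 4 * Real.log 2 * J := by ring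
  have h9 : ((σ + δ) * Real.log 2 + ε / 4 * Real.log 2) * (J : ℝ) =
      (σ + δ) * Real.log 2 * J + ε / 4 * Real.log 2 * J := by ring
  linarith

/-- **Coordinates without good labels are full.** -/
theorem ful_of_t1c (hn : 2 ≤ n) (hZ : ∀ k, 1 ≤ k → k < n → FZX k) {al : ℝ} {g₀ : ℝ → ℝ}
    {s : Fin n → ℝ} {d : ℕ → ℝ} {e : ℝ} {K₀ : ℕ} {N : ℚ → ℚ → ℝ} {S : PCl n} (hal : 0 < al)
    (hg₀ : ∀ ε : ℝ, 0 < ε → 0 < g₀ ε) (hC : ClX s d al g₀ e K₀ N S)
    {L : Finset (Fin n) → Fin n → ℝ → ℝ → ℝ} (hL : LamW S L) :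
    ∃ D : Set ℝ, D.Countable ∧ ∀ w : ℝ, 0 < w → w < 1 → w ∉ D → ∀ α σ : ℝ, w ≤ α →
      T1c S (lst hn) α σ → ∀ u : ℝ, σ ≤ u → Ful S (univ.erase (lst hn)) w u := by
  classical
  obtain ⟨D, hD, h1⟩ := ful_gen hn hZ hal hg₀ hC hL
  refine ⟨D, hD, fun w hw0 hw1 hwD α σ hα hT u hu => ?_⟩
  obtain ⟨x, hwx, hx1, h2, y, hy, -, h3⟩ := h1 w hw0 hw1 hwD
  refine h2 u (le_trans ?_ hu)
  by_contra hcon
  push Not at hcon
  obtain ⟨K, hK⟩ := h3 ((x - σ) / 3) (by linarith)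
  obtain ⟨J₁, hJ₁⟩ := exists_nat_ge (1 / ((x - σ) / 3))
  refine bas_no hC.ne ((hK.and (hT K ((x - σ) / 3) (by linarith))).mono (max 1 J₁) ?_)
  rintro J hJ F A ⟨⟨V, z, z', G, h4⟩, h5⟩
  have hJ0 : (0 : ℝ) < J := by exact_mod_cast (le_max_left _ _).trans hJ
  have e1 : (J₁ : ℝ) ≤ J := by exact_mod_cast (le_max_right _ _).trans hJ
  have e2 := hJ₁.trans e1
  rw [div_le_iff₀ (by linarith)] at e2
  refine h5 y ⌊w * J⌋₊ ⌊(x - (x - σ) / 3) * J⌋₊ (Finset.ne_of_mem_erase hy)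
    (Nat.floor_le_floor (mul_le_mul_of_nonneg_right hα hJ0.le)) ?_ ⟨V, z, z', G, h4⟩
  have e3 := Nat.sub_one_lt_floor ((x - (x - σ) / 3) * (J : ℝ))
  have e4 : (x - (x - σ) / 3) * (J : ℝ) = (σ + (x - σ) / 3) * J + (x - σ) / 3 * J := by ring
  have e5 : J * ((x - σ) / 3) = (x - σ) / 3 * (J : ℝ) := mul_comm _ _
  linarith

/-- **The entropy of a coordinate over which the target has no label.** -/
theorem top_ent' (hn : 2 ≤ n) (hn3 : 3 ≤ n) (hW : RW (n - 1)) {al : ℝ} {g₀ : ℝ → ℝ}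
    {s : Fin n → ℝ} {d : ℕ → ℝ} {e : ℝ} {K₀ : ℕ} {N : ℚ → ℚ → ℝ} {S : PCl n} (hal : 0 < al)
    (hg₀ : ∀ ε : ℝ, 0 < ε → 0 < g₀ ε) (hC : ClX s d al g₀ e K₀ N S) {r : ℝ → ℝ}
    (hr : RateOf S (lst hn) r) {w w' Q Q' ρ : ℝ} (hw0 : 0 < w) (hww : w < w') (hw1 : w' < 1)
    (hwQ : w ≤ Q) (hQQ' : Q < Q') (hQ' : Q' ≤ 1) (hρ : 0 < ρ) {i : Fin n} (hiN : i ≠ lst hn)
    (hi0 : i ≠ ⟨0, by omega⟩) (hno : ∀ K : ℕ, Bas S (fun J F A =>
      ¬ LbR 0 F ((univ.erase (lst hn)).erase i) (lst hn) K ⌊w' * J⌋₊ ⌊Q' * J⌋₊ A)) :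
    Bas S (fun J F A => ∀ (V : Type) (z : PtT F → V) (z' : LnT F → V),
      (∀ ω, A ω → z (ptr F J ω) = z' (slam F ⌊w * J⌋₊ ω)) →
      (1 - Q - (r 1 - r Q) - (Q' - Q) - ρ) * Real.log 2 * J ≤
        CH (Pool.Agent.H49.Ent.cond F.p A True) (fun ω => F.X J ω i)
          (fun ω => (F.X ⌊Q' * J⌋₊ ω (lst hn), (ub ((univ.erase (lst hn)).erase i) (F.X J ω),
            (z' (slam F ⌊w * J⌋₊ ω), F.W ω))))) := by
  classical
  have hl2 : 0 < Real.log 2 := Real.log_pos one_lt_two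
  have htm := Pool.GEN.N83.clx_tmc hC
  have hpos : Bas S (fun _ F A => 0 < Pe F.p A) :=
    ⟨1, one_pos, 0, fun J _ F A hA => hC.pos 1 J F A hA⟩
  have hQ'0 : 0 ≤ Q' := by linarith
  have hkI : lst hn ∉ (univ.erase (lst hn)).erase i := fun h =>
    (Finset.mem_erase.1 (Finset.mem_erase.1 h).2).1 rfl
  have ew : w + (w' - w) = w' := by ring
  have h1 := hW al g₀ hal hg₀ N hC.actm n 6 S (by norm_num) htm ((univ.erase (lst hn)).erase i)
    (lst hn) ⟨0, by omega⟩ hkI (Finset.mem_erase.2 ⟨hi0.symm, Finset.mem_erase.2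
      ⟨fun h => by
        have := congrArg Fin.val h
        unfold lst at this
        simp only at this
        omega, Finset.mem_univ _⟩⟩) (by
      rw [Finset.card_erase_of_mem (Finset.mem_erase.2 ⟨hiN, Finset.mem_univ _⟩),
        Finset.card_erase_of_mem (Finset.mem_univ _), Finset.card_univ, Fintype.card_fin]
      omega) (hC.actb _ rfl) 0 w Q' (w' - w) (ρ / 2) le_rfl hw0 (by linarith) hQ' (by linarith)
    (by linarith) (by linarith) (by rw [ew]; exact hno)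
  have h2 := row_rate hr hpos hQ'0 hQ' (h := ρ / 4 * Real.log 2) (by positivity)
  refine ((h1.and h2).and hpos).mono 0 ?_
  rintro J - F A ⟨⟨h3, h4⟩, hA⟩ V z z' hz
  have hJ0 : (0 : ℝ) ≤ J := Nat.cast_nonneg J
  have h5 := h3 V z z' hz
  have h6 := row_drop hA (I := univ.erase (lst hn)) (i := i) (lst hn) ⌊Q' * J⌋₊
    (fun ω => z' (slam F ⌊w * J⌋₊ ω))
  rw [abs_le] at h4
  have h7 : (r 1 - r Q') * Real.log 2 * J ≤ (r 1 - r Q) * Real.log 2 * J := by
    refine mul_le_mul_of_nonneg_right (mul_le_mul_of_nonneg_right ?_ hl2.le) hJ0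
    have := hr.mono hQQ'.le
    linarith
  have h8 : (1 - Q' - ρ / 2) * Real.log 2 * J = (1 - Q - (r 1 - r Q) - (Q' - Q) - ρ) *
      Real.log 2 * J + (r 1 - r Q) * Real.log 2 * J + ρ / 2 * Real.log 2 * J := by ring
  have h9 : 0 ≤ ρ / 4 * Real.log 2 * J := by positivity
  have h10 : ρ / 2 * Real.log 2 * (J : ℝ) = ρ / 4 * Real.log 2 * J + ρ / 4 * Real.log 2 * J := by
    ring
  linarith [h4.1, h4.2]

/-- The stable labels in a larger degree. -/
theorem LbR.deg {R : ℝ} {F : Fam m J} {I : Finset (Fin m)} {k : Fin m} {K K' w P : ℕ}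
    {A : F.Ω → Prop} (hK : K ≤ K') (h : LbR R F I k K w P A) : LbR R F I k K' w P A := by
  obtain ⟨V, z, z', G, h1⟩ := h
  exact ⟨V, z, z', G, fun v => (h1.deg v).trans hK, h1.dep, h1.cls, h1.pos⟩

/-- The stable labels on a smaller event. -/
theorem LbR.sub {R : ℝ} {F : Fam m J} {I : Finset (Fin m)} {k : Fin m} {K w P : ℕ}
    {A B : F.Ω → Prop} (hB : Sub B A) (h : LbR R F I k K w P A) : LbR R F I k K w P B := by
  obtain ⟨V, z, z', G, h1⟩ := h
  exact ⟨V, z, z', G, h1.deg, h1.dep, fun ω hω => h1.cls ω (hB ω hω),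
    fun ω hω => h1.pos ω (hB ω hω)⟩

/-- **T2 from T1.** -/
theorem t2_of_t1 (hn : 2 ≤ n) (hZ : ∀ k, 1 ≤ k → k < n → FZX k) (hW : 3 ≤ n → RW (n - 1))
    {al : ℝ} {g₀ : ℝ → ℝ} {s : Fin n → ℝ} {d : ℕ → ℝ} {e : ℝ} {K₀ : ℕ} {N : ℚ → ℚ → ℝ}
    {S : PCl n} (hal : 0 < al) (hg₀ : ∀ ε : ℝ, 0 < ε → 0 < g₀ ε)
    (hC : ClX s d al g₀ e K₀ N S) {r : ℝ → ℝ} (hr : RateOf S (lst hn) r)
    {α α' Q σ : ℝ} (hα : 0 ≤ α) (hαα' : α < α') (hα' : α' ≤ 1) (hQ : α' ≤ Q) (hσ : σ < 1)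
    (hcD : 1 - σ ≤ 1 - Q - (r 1 - r Q)) (hT1 : T1c S (lst hn) α' σ) :
    T2c S (lst hn) α Q σ := by
  classical
  intro K ε hε
  have hl2 : 0 < Real.log 2 := Real.log_pos one_lt_two
  have key : Bas S (fun J F A => ¬ ∃ a q y : ℕ, a ≤ ⌊α * J⌋₊ ∧ q ≤ ⌊Q * J⌋₊ ∧
      (σ + ε) * J ≤ q + y ∧ ∃ (V : Type) (z : PtT F → V) (z' : LnT F → V)
        (G : V → MvPolynomial (Option (Fin n)) ℝ),
        LbP F (univ.erase (lst hn)) (lst hn) K J a q A z z' G ∧ ∃ l, l ≠ lst hn ∧ ∀ ω, A ω →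
        (2 : ℝ) ^ y ≤ |eval (bt F ω) (pderiv (some l) (G (z' (slam F a ω))))|) := by
    refine bas_of_no (fun J F A B hB h => ?_) fun S' hS' hs hΦ => ?_
    · obtain ⟨a, q, y, h1, h2, h3, V, z, z', G, h4, l, h5, h6⟩ := h
      exact ⟨a, q, y, h1, h2, h3, V, z, z', G, h4.sub hB, l, h5, fun ω hω => h6 ω (hB ω hω)⟩
    obtain ⟨S₂, L, h5, h6, hL⟩ := lamw S' hS'
    have hs2 : ∀ (τ : ℝ) (J : ℕ) (F : Fam n J) (A : F.Ω → Prop), S₂.St τ J F A →
        S.St τ J F A := fun τ J F A hA => hs τ J F A (h6 τ J F A hA)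
    have hC2 := hC.sub h5 hs2
    have hQσ : Q ≤ σ := by
      have := q_le hr (by linarith : 0 < 1 - σ) hcD
      linarith
    obtain ⟨D, hD, hfu⟩ := ful_of_t1c hn hZ hal hg₀ hC2 hL
    obtain ⟨w, hwD, hwα, hwα'⟩ := (hD.dense_compl ℝ).exists_between hαα'
    obtain ⟨w', hwD', hww, hwα2⟩ := (hD.dense_compl ℝ).exists_between hwα'
    have hw0 : 0 < w := by linarith
    have hf : Ful S₂ (univ.erase (lst hn)) w σ :=
      hfu w hw0 (by linarith) hwD α' σ hwα'.le (hT1.sub hs2) σ le_rfl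
    have hf' : Ful S₂ (univ.erase (lst hn)) w' σ :=
      hfu w' (by linarith) (by linarith) hwD' α' σ hwα2.le (hT1.sub hs2) σ le_rfl
    obtain ⟨η, hη⟩ : ∃ η : ℝ, η = min ε (1 - σ) := ⟨_, rfl⟩
    have hη0 : 0 < η := by
      rw [hη]
      exact lt_min hε (by linarith)
    have hηε : η ≤ ε := by
      rw [hη]
      exact min_le_left _ _
    have hησ : η ≤ 1 - σ := by
      rw [hη]
      exact min_le_right _ _
    -- the alternatives
    obtain ⟨S₃, hS₃, hs3, hdi⟩ := dich_fin h5 (ι := Fin n) (fun i K J F A =>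
      LbR 0 F ((univ.erase (lst hn)).erase i) (lst hn) K ⌊w' * J⌋₊ ⌊(Q + η / 8) * J⌋₊ A)
      (fun i K J F A B hB h => h.sub hB)
    have hC3 := hC2.sub hS₃ hs3
    have hr3 := (hr.sub hs2).sub hs3
    have hf3 := Ful.sub hf hs3
    have hf3' := Ful.sub hf' hs3
    have htm := Pool.GEN.N83.clx_tmc hC3
    have hpos : Bas S₃ (fun _ F A => 0 < Pe F.p A) :=
      ⟨1, one_pos, 0, fun J _ F A hA => hC3.pos 1 J F A hA⟩
    have hact : ActB N S₃ (⟨0, by omega⟩ : Fin n) := hC3.actb _ rfl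
    obtain ⟨Kf, hKf⟩ : ∃ Kf : Fin n → ℕ, ∀ i, (∀ K, Bas S₃ (fun J F A => ¬ LbR 0 F
        ((univ.erase (lst hn)).erase i) (lst hn) K ⌊w' * J⌋₊ ⌊(Q + η / 8) * J⌋₊ A)) ∨
        Bas S₃ (fun J F A => LbR 0 F ((univ.erase (lst hn)).erase i) (lst hn) (Kf i)
          ⌊w' * J⌋₊ ⌊(Q + η / 8) * J⌋₊ A) := by
      refine ⟨fun i => if h : ∃ K, Bas S₃ (fun J F A => LbR 0 F
        ((univ.erase (lst hn)).erase i) (lst hn) K ⌊w' * J⌋₊ ⌊(Q + η / 8) * J⌋₊ A) then
        h.choose else 0, fun i => ?_⟩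
      rcases hdi i with h | h
      · exact Or.inl h
      · right
        simp only [dif_pos h]
        exact h.choose_spec
    obtain ⟨K₂, hK₂⟩ : ∃ K₂ : ℕ, ∀ i, Kf i ≤ K₂ :=
      ⟨univ.sup Kf, fun i => Finset.le_sup (mem_univ i)⟩
    have hen : Bas S₃ (fun J F A => ∀ i : Fin n, i ≠ lst hn → i ≠ ⟨0, by omega⟩ →
        LbR 0 F ((univ.erase (lst hn)).erase i) (lst hn) K₂ ⌊w' * J⌋₊ ⌊(Q + η / 8) * J⌋₊ A ∨
        ∀ (V : Type) (z : PtT F → V) (z' : LnT F → V),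
        (∀ ω, A ω → z (ptr F J ω) = z' (slam F ⌊w * J⌋₊ ω)) →
        (1 - Q - (r 1 - r Q) - (Q + η / 8 - Q) - η / 8) * Real.log 2 * J ≤
          CH (Pool.Agent.H49.Ent.cond F.p A True) (fun ω => F.X J ω i)
            (fun ω => (F.X ⌊(Q + η / 8) * J⌋₊ ω (lst hn),
              (ub ((univ.erase (lst hn)).erase i) (F.X J ω),
              (z' (slam F ⌊w * J⌋₊ ω), F.W ω))))) := by
      refine Bas.fin fun i => ?_
      by_cases hi : i ≠ lst hn ∧ i ≠ ⟨0, by omega⟩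
      · have hn3 : 3 ≤ n := by
          by_contra hn3
          have h8 := i.2
          have h9 : (i : ℕ) ≠ 0 := fun h => hi.2 (Fin.ext h)
          refine hi.1 (Fin.ext ?_)
          unfold lst
          simp only
          omega
        rcases hKf i with h | h
        · exact (top_ent' hn hn3 (hW hn3) hal hg₀ hC3 hr3 hw0 hww (by linarith) (Q := Q)
            (Q' := Q + η / 8) (by linarith) (by linarith) (by linarith)
            (show (0 : ℝ) < η / 8 by positivity) hi.1 hi.2 h).mono 0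
            fun J _ F A h _ _ => Or.inr h
        · exact h.mono 0 fun J _ F A h _ _ => Or.inl (h.deg (hK₂ i))
      · exact ⟨1, one_pos, 0, fun J _ F A _ h1 h2 => absurd ⟨h1, h2⟩ hi⟩
    have hrel := rel_bd (by norm_num) htm (univ.erase (lst hn)) (w := w') (u := σ)
      (by linarith) (by linarith) hσ hf3' (K + K₂) (ε := η / 8 * Real.log 2) (by positivity)
    obtain ⟨c₁, hc₁, hst⟩ := steepR (by norm_num) htm
      (fun τ J F A hA => (hC3.mem τ J F A hA).2.2.2.2.1) hal (hC3.actm.q hg₀) hact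
      (univ.erase (lst hn)) (lst hn) hw0.le (by linarith : w ≤ σ) hσ hf3 K
      (t := η / 8 * Real.log 2) (by positivity)
    refine bas_no hS₃ ((((Bas.sub hs3 (Bas.sub h6 hΦ)).and hst).and
      ((bas_ev (hen.and hrel) hc₁).and hpos)).mono (max 1 ⌈4 / η⌉₊) ?_)
    rintro J hJ F A ⟨⟨⟨a, q, y, h1, h2, h3, V, z, z', G, h4, l, hl, hy⟩, h12⟩, h13, hA⟩
    have hJ1 : 1 ≤ J := (le_max_left _ _).trans hJ
    have hJ0 : (0 : ℝ) < J := by exact_mod_cast hJ1
    have hJ2 : 4 ≤ η * J := by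
      have e1 : 4 / η ≤ J := (Nat.le_ceil _).trans (by exact_mod_cast (le_max_right _ _).trans hJ)
      rw [div_le_iff₀ hη0] at e1
      linarith
    have hwJ : ⌊w * J⌋₊ ≤ J := by
      refine Nat.floor_le_of_le ?_
      calc w * J ≤ 1 * J := mul_le_mul_of_nonneg_right (by linarith) hJ0.le
        _ = J := one_mul _
    have hwJ' : ⌊w' * J⌋₊ ≤ J := by
      refine Nat.floor_le_of_le ?_
      calc w' * J ≤ 1 * J := mul_le_mul_of_nonneg_right (by linarith) hJ0.le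
        _ = J := one_mul _
    have haW : a ≤ ⌊w * J⌋₊ :=
      h1.trans (Nat.floor_le_floor (mul_le_mul_of_nonneg_right hwα.le hJ0.le))
    have haW' : a ≤ ⌊w' * J⌋₊ :=
      haW.trans (Nat.floor_le_floor (mul_le_mul_of_nonneg_right hww.le hJ0.le))
    have hWf : (⌊w * J⌋₊ : ℝ) ≤ w * J := Nat.floor_le (by positivity)
    have hQ0 : 0 ≤ Q := by linarith
    have hqf : (q : ℝ) ≤ Q * J := (Nat.cast_le.2 h2).trans (Nat.floor_le (by positivity))
    have hqQ : q ≤ ⌊(Q + η / 8) * J⌋₊ :=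
      h2.trans (Nat.floor_le_floor (mul_le_mul_of_nonneg_right (by linarith) hJ0.le))
    have h5 := h4.win haW hwJ
    have e0 : ∀ ω, z' ((slam F ⌊w * J⌋₊ ω).1, (slam F ⌊w * J⌋₊ ω).2.1,
        (slam F ⌊w * J⌋₊ ω).2.2 / 2 ^ (⌊w * J⌋₊ - a)) = z' (slam F a ω) := fun ω => by
      rw [← slam_coarse F haW hwJ ω]
    have e0' : ∀ ω, z' ((slam F ⌊w' * J⌋₊ ω).1, (slam F ⌊w' * J⌋₊ ω).2.1,
        (slam F ⌊w' * J⌋₊ ω).2.2 / 2 ^ (⌊w' * J⌋₊ - a)) = z' (slam F a ω) := fun ω => by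
      rw [← slam_coarse F haW' hwJ' ω]
    obtain ⟨x, B, hx0, -, hBA, hPB, hg, hor⟩ := h12 q 1 (((⌊w * J⌋₊ - q : ℕ) : ℝ) * Real.log 2)
      V z (fun s => z' (s.1, s.2.1, s.2.2 / 2 ^ (⌊w * J⌋₊ - a))) G (by rw [abs_one])
      h4.deg h4.dep h5.cls (fun ω hω => by
        rw [one_mul]
        exact h5.pos ω hω) (by
        rw [two_div]
        refine Real.exp_le_exp.2 (mul_le_mul_of_nonneg_right ?_ hl2.le)
        rw [sub_le_iff_le_add]
        exact_mod_cast (by omega : ⌊w * J⌋₊ ≤ (⌊w * J⌋₊ - q) + q)) (by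
        rw [abs_one]
        exact Real.one_le_exp (by positivity)) (Or.inl (by positivity))
    have hB0 : 0 < Pe F.p B := lt_of_lt_of_le (by positivity) hPB
    have hxy : (y : ℝ) * Real.log 2 ≤ x * J := by
      obtain ⟨ω, hω⟩ := pe_ex hB0
      have h7 := abs_le_of_gsq (Real.exp_pos _).le (hg ω hω) (some l)
      simp only [e0 ω] at h7
      have e1 := (hy ω (hBA ω hω)).trans h7
      rw [two_pow_exp] at e1
      exact Real.exp_le_exp.1 e1
    have hqy := mul_le_mul_of_nonneg_right h3 hl2.le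
    have hσJ : 0 < η * Real.log 2 * J := by positivity
    have hηJ : η * Real.log 2 * J ≤ ε * Real.log 2 * J :=
      mul_le_mul_of_nonneg_right (mul_le_mul_of_nonneg_right hηε hl2.le) hJ0.le
    have hex : (σ + ε) * (J : ℝ) * Real.log 2 = σ * Real.log 2 * J + ε * Real.log 2 * J := by
      ring
    have hex2 : ((q : ℝ) + y) * Real.log 2 = q * Real.log 2 + y * Real.log 2 := by ring
    have hex3 : η / 8 * Real.log 2 * (J : ℝ) = η * Real.log 2 * J / 8 := by ring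
    rcases hor with h16 | ⟨i, hi, hi0, hder, h16⟩
    · -- the slope is small
      have e1 : (⌊w * J⌋₊ : ℝ) * Real.log 2 ≤ σ * Real.log 2 * J := by
        have e2 : (⌊w * J⌋₊ : ℝ) * Real.log 2 ≤ w * J * Real.log 2 :=
          mul_le_mul_of_nonneg_right hWf hl2.le
        have e3 : w * (J : ℝ) * Real.log 2 ≤ σ * J * Real.log 2 :=
          mul_le_mul_of_nonneg_right (mul_le_mul_of_nonneg_right (by linarith) hJ0.le) hl2.le
        have e4 : σ * (J : ℝ) * Real.log 2 = σ * Real.log 2 * J := by ring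
        linarith
      have e2 : (q : ℝ) * Real.log 2 ≤ σ * Real.log 2 * J := by
        have e3 : (q : ℝ) * Real.log 2 ≤ Q * J * Real.log 2 :=
          mul_le_mul_of_nonneg_right hqf hl2.le
        have e4 : Q * (J : ℝ) * Real.log 2 ≤ σ * J * Real.log 2 :=
          mul_le_mul_of_nonneg_right (mul_le_mul_of_nonneg_right hQσ hJ0.le) hl2.le
        have e5 : σ * (J : ℝ) * Real.log 2 = σ * Real.log 2 * J := by ring
        linarith
      rcases Nat.lt_or_ge q ⌊w * J⌋₊ with h17 | h17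
      · rw [Nat.cast_sub h17.le, sub_mul] at h16
        linarith
      · have e3 : ⌊w * J⌋₊ - q = 0 := by omega
        rw [e3, Nat.cast_zero, zero_mul, add_zero] at h16
        linarith
    obtain ⟨h17, h18⟩ := h13 B hBA hPB
    rcases h17 i (Finset.ne_of_mem_erase hi) hi0 with h19 | h19
    · -- a label over the other coordinates: a relation
      obtain ⟨V₂, z₂, z₂', G₂, h20⟩ := h19
      have hd : ∀ (v : V × V₂) (b : Option (Fin n) → ℝ),
          eval b (pderiv (some i) (C (1 / 2) * (G v.1 - G₂ v.2))) =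
            1 / 2 * eval b (pderiv (some i) (G v.1)) := by
        intro v b
        rw [pderiv_C_mul, map_mul, eval_C, map_sub, map_sub,
          pd_zero (h20.dep v.2) (fun h => (Finset.mem_erase.1 h).1 rfl) b, sub_zero]
      have c1 : ∀ v : V × V₂, (C (1 / 2) * (G v.1 - G₂ v.2)).totalDegree ≤ K + K₂ := by
        intro v
        refine (totalDegree_mul _ _).trans ?_
        rw [totalDegree_C, zero_add, sub_eq_add_neg]
        refine (totalDegree_add _ _).trans (max_le ((h4.deg _).trans (Nat.le_add_right _ _)) ?_)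
        rw [totalDegree_neg]
        exact (h20.deg _).trans (Nat.le_add_left _ _)
      have c2 : ∀ v : V × V₂, ∀ b b' : Option (Fin n) → ℝ, b none = b' none →
          (∀ i ∈ univ.erase (lst hn), b (some i) = b' (some i)) →
          eval b (C (1 / 2) * (G v.1 - G₂ v.2)) = eval b' (C (1 / 2) * (G v.1 - G₂ v.2)) := by
        intro v b b' h0 h7
        rw [map_mul, map_mul, map_sub, map_sub, eval_C, eval_C,
          h4.dep v.1 b b' h0 h7, h20.dep v.2 b b' h0 fun j hj => h7 j (Finset.mem_erase.1 hj).2]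
      have c3 : ∀ ω, B ω → (fun s => (z s, z₂ s)) (ptr F J ω) = (fun s => (z' (s.1, s.2.1,
          s.2.2 / 2 ^ (⌊w' * J⌋₊ - a)), z₂' s)) (slam F ⌊w' * J⌋₊ ω) := by
        intro ω hω
        have a1 := (h4.win haW' hwJ').cls ω (hBA ω hω)
        have a2 := h20.cls ω hω
        simp only at a1 ⊢
        rw [a1, a2]
      have c4 : ∀ ω, B ω → |eval (bt F ω) (C (1 / 2) * (G (z' ((slam F ⌊w' * J⌋₊ ω).1,
          (slam F ⌊w' * J⌋₊ ω).2.1, (slam F ⌊w' * J⌋₊ ω).2.2 / 2 ^ (⌊w' * J⌋₊ - a))) -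
          G₂ (z₂' (slam F ⌊w' * J⌋₊ ω))))| ≤ 1 / 2 ^ q := by
        intro ω hω
        have f1 := (h4.win haW' hwJ').pos ω (hBA ω hω)
        have f2 := h20.pos ω hω (bt F ω) fun o => by
          rw [sub_self, abs_zero, zero_div]
        have f3 : (1 : ℝ) / 2 ^ ⌊(Q + η / 8) * J⌋₊ ≤ 1 / 2 ^ q :=
          one_div_le_one_div_of_le (by positivity) (pow_le_pow_right₀ one_le_two hqQ)
        rw [map_mul, eval_C, map_sub, abs_mul, abs_of_pos (by norm_num : (0 : ℝ) < 1 / 2)]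
        rw [abs_le] at f1 f2
        have f4 : |eval (bt F ω) (G (z' ((slam F ⌊w' * J⌋₊ ω).1, (slam F ⌊w' * J⌋₊ ω).2.1,
            (slam F ⌊w' * J⌋₊ ω).2.2 / 2 ^ (⌊w' * J⌋₊ - a)))) -
            eval (bt F ω) (G₂ (z₂' (slam F ⌊w' * J⌋₊ ω)))| ≤ 2 * (1 / 2 ^ q) := by
          rw [abs_le]
          constructor <;> linarith [f1.1, f1.2, f2.1, f2.2]
        linarith
      obtain ⟨ω, hω, h21⟩ := h18 q (V × V₂) (fun s => (z s, z₂ s))
        (fun s => (z' (s.1, s.2.1, s.2.2 / 2 ^ (⌊w' * J⌋₊ - a)), z₂' s))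
        (fun v => C (1 / 2) * (G v.1 - G₂ v.2)) (some i) c1 c2 c3 c4
      rw [hd] at h21
      simp only [e0' ω] at h21
      have h22 := hder ω hω
      simp only [e0 ω] at h22
      rw [abs_mul, abs_of_pos (by norm_num : (0 : ℝ) < 1 / 2)] at h21
      have h23 : Real.exp ((x - η / 8 * Real.log 2) * J - Real.log 2) ≤
          Real.exp ((σ * Real.log 2 + η / 8 * Real.log 2) * J - q * Real.log 2) := by
        refine le_trans (le_of_eq ?_) ((mul_le_mul_of_nonneg_left h22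
          (by norm_num : (0 : ℝ) ≤ 1 / 2)).trans h21)
        rw [Real.exp_sub, Real.exp_log (by norm_num)]
        ring
      have h24 := Real.exp_le_exp.1 h23
      have e1 : (x - η / 8 * Real.log 2) * (J : ℝ) = x * J - η * Real.log 2 * J / 8 := by ring
      have e2 : (σ * Real.log 2 + η / 8 * Real.log 2) * (J : ℝ) =
        σ * Real.log 2 * J + η * Real.log 2 * J / 8 := by ring
      have e3 : 4 * Real.log 2 ≤ η * J * Real.log 2 := mul_le_mul_of_nonneg_right hJ2 hl2.le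
      have e4 : η * (J : ℝ) * Real.log 2 = η * Real.log 2 * J := by ring
      linarith
    · -- no label: the entropy of the rows
      have h20 := h16 ⌊(Q + η / 8) * J⌋₊ q le_rfl (Or.inr hqQ)
      have h21 := h19 V z (fun s => z' (s.1, s.2.1, s.2.2 / 2 ^ (⌊w * J⌋₊ - a)))
        (fun ω hω => h5.cls ω (hBA ω hω))
      have h22 := h21.trans h20
      have e1 : (1 - σ - η / 4) * Real.log 2 * J ≤
          (1 - Q - (r 1 - r Q) - (Q + η / 8 - Q) - η / 8) * Real.log 2 * J :=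
        mul_le_mul_of_nonneg_right (mul_le_mul_of_nonneg_right (by linarith) hl2.le) hJ0.le
      have e2 : max (((J : ℝ) - q) * Real.log 2 - x * J) 0 ≤ (1 - σ - η) * Real.log 2 * J := by
        refine max_le ?_ ?_
        · have e3 : (1 - σ - η) * Real.log 2 * (J : ℝ) =
            J * Real.log 2 - σ * Real.log 2 * J - η * Real.log 2 * J := by ring
          have e4 : ((J : ℝ) - q) * Real.log 2 = J * Real.log 2 - q * Real.log 2 := by ring
          linarith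
        · have : 0 ≤ 1 - σ - η := by linarith
          positivity
      have e3 : (1 - σ - η / 4) * Real.log 2 * (J : ℝ) = (1 - σ - η) * Real.log 2 * J +
        3 / 4 * (η * Real.log 2 * J) := by ring
      linarith
  refine key.mono 0 ?_
  rintro J - F A h a q y h1 h2 h3 h4
  exact h ⟨a, q, y, h1, h2, h3, h4⟩

end Pool.TOP
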